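import Pool.Agent.NH50.SPH.Stm

/-!
# Project SPH: elementary rules for `Q`
-/

set_option autoImplicit false

open Set Filter Topology

noncomputable section

namespace Pool.Agent.NH50.SPH

theorem GId_one : GId 1 := ⟨univ, isOpen_univ, univ_nonempty, fun _ _ => rfl⟩

theorem GId_inv {f : S ≃ₜ S} (hf : GId f) : GId f⁻¹ := by
  obtain ⟨O, hO, hn, h⟩ := hf
  refine ⟨O, hO, hn, fun z hz => ?_⟩
  conv_lhs => rw [← h z hz]
  exact inv_ap f z

theorem GId_conj {f : S ≃ₜ S} (hf : GId f) (h : S ≃ₜ S) : GId (h * f * h⁻¹) := by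
  obtain ⟨O, hO, hn, hz⟩ := hf
  refine ⟨h '' O, h.isOpenMap O hO, hn.image _, ?_⟩
  rintro _ ⟨z, hzO, rfl⟩
  rw [mul_ap, mul_ap, inv_ap, hz z hzO]

theorem GId_of_eventually {f : S ≃ₜ S} (w : S) (h : ∀ᶠ z in 𝓝 w, f z = z) : GId f := by
  obtain ⟨O, hO1, hO2, hw⟩ := eventually_nhds_iff.1 h
  exact ⟨O, hO2, ⟨w, hw⟩, hO1⟩

theorem Q_of_GId {f : S ≃ₜ S} (hf : GId f) (w : S) : Q f w :=
  ⟨f, Eventually.of_forall fun _ => rfl, hf⟩

theorem Q_congr {f g : S ≃ₜ S} {w : S} (hf : Q f w) (h : ∀ᶠ z in 𝓝 w, f z = g z) : Q g w := by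
  obtain ⟨Φ, h1, h2⟩ := hf
  exact ⟨Φ, by filter_upwards [h1, h] with z a b using a.trans b, h2⟩

theorem Q_conj {f : S ≃ₜ S} {w : S} (hf : Q f w) (h : S ≃ₜ S) : Q (h * f * h⁻¹) (h w) := by
  obtain ⟨Φ, h1, h2⟩ := hf
  refine ⟨h * Φ * h⁻¹, ?_, GId_conj h2 h⟩
  have h3 : Tendsto (fun z => h⁻¹ z) (𝓝 (h w)) (𝓝 w) := by
    have := h⁻¹.continuous.tendsto (h w)
    rwa [inv_ap] at this
  filter_upwards [h3.eventually h1] with z hz
  rw [mul_ap, mul_ap, mul_ap, mul_ap, hz]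

theorem Q_inv {f : S ≃ₜ S} {w : S} (hf : Q f w) : Q f⁻¹ (f w) := by
  obtain ⟨Φ, h1, h2⟩ := hf
  refine ⟨Φ⁻¹, ?_, GId_inv h2⟩
  have h3 : Tendsto (fun z => f⁻¹ z) (𝓝 (f w)) (𝓝 w) := by
    have := f⁻¹.continuous.tendsto (f w)
    rwa [inv_ap] at this
  filter_upwards [h3.eventually h1] with z hz
  rw [ap_inv] at hz
  conv_lhs => rw [← hz]
  exact inv_ap Φ _

/-- `Q` for the inverse at a given point. -/
theorem Q_inv' {f : S ≃ₜ S} {w : S} (hf : Q f (f⁻¹ w)) : Q f⁻¹ w := by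
  have := Q_inv hf
  rwa [ap_inv] at this

/-- A statement about germs at `w` can be pulled back along a homeomorphism. -/
theorem ev_comp {p : S → Prop} (h : S ≃ₜ S) {w : S} (hp : ∀ᶠ z in 𝓝 (h w), p z) :
    ∀ᶠ z in 𝓝 w, p (h z) := (h.continuous.tendsto w).eventually hp

/-- Germs at points of the plane. -/
theorem ev_coe {p : S → Prop} {w : ℂ} : (∀ᶠ z in 𝓝 (w : S), p z) ↔ ∀ᶠ z : ℂ in 𝓝 w, p (z : S) := by
  rw [OnePoint.nhds_coe_eq, eventually_map]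

/-- Germs at infinity. -/
theorem ev_infty_of {p : S → Prop} (R : ℝ) (h1 : p OnePoint.infty)
    (h2 : ∀ z : ℂ, R ≤ ‖z‖ → p (z : S)) : ∀ᶠ z in 𝓝 (OnePoint.infty : S), p z := by
  rw [OnePoint.nhds_infty_eq, eventually_sup, eventually_map, eventually_pure]
  refine ⟨?_, h1⟩
  rw [coclosedCompact_eq_cocompact, ← Metric.cobounded_eq_cocompact]
  filter_upwards [eventually_cobounded_le_norm R] with z hz using h2 z hz

end Pool.Agent.NH50.SPH
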