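import Pool.Agent.NH50.SPH.Calc

/-!
# Project SPH: localisation and products for `Q`, normal forms
-/

set_option autoImplicit false

open Set Filter Topology

noncomputable section

namespace Pool.Agent.NH50.SPH

namespace Calc2

/-- A nonempty open set contains a point outside a given finite set. -/
theorem exists_mem_not (O : Set S) (hO : IsOpen O) (hn : O.Nonempty) (F : Finset S) :
    ∃ v ∈ O, v ∉ F := by
  have hp : (O \ (F : Set S)).Nonempty := by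
    have h1 : O.Infinite := by
      obtain ⟨z, hz⟩ := hn
      have : (𝓝[≠] z).NeBot := by
        induction z using OnePoint.rec with
        | infty => exact OnePoint.nhdsNE_infty_neBot
        | coe z => exact OnePoint.nhdsNE_coe_neBot z
      exact infinite_of_mem_nhds z (hO.mem_nhds hz)
    exact (h1.sdiff F.finite_toSet).nonempty
  obtain ⟨v, h1, h2⟩ := hp
  exact ⟨v, h1, h2⟩

theorem loc1 (hpp : St_PP) (f : S ≃ₜ S) (w v : S) (hQ : Q f w) (h1 : v ≠ w) (h2 : v ≠ f w) :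
    ∃ Φ : S ≃ₜ S, (∀ᶠ z in 𝓝 w, Φ z = f z) ∧ (∀ᶠ z in 𝓝 v, Φ z = z) := by
  classical
  obtain ⟨Φ, hΦ, O, hO, hn, hid⟩ := hQ
  obtain ⟨v', hv'O, hv'⟩ := exists_mem_not O hO hn {v, w, f w}
  simp only [Finset.mem_insert, Finset.mem_singleton, not_or] at hv'
  obtain ⟨κ, κ', h3, h4, h5, h6⟩ := hpp v v' {w} {f w} (by simpa using h1)
    (by simpa using hv'.2.1) (by simpa using h2) (by simpa using hv'.2.2)
  have h4' := h4 w (by simp)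
  have h5' := h5 (f w) (by simp)
  refine ⟨κ' * Φ * κ, ?_, ?_⟩
  · filter_upwards [h4', hΦ, ev_comp f h5'] with z a b c
    rw [mul_ap, mul_ap, a, b, c]
  · have h7 : ∀ᶠ z in 𝓝 (κ v), Φ z = z := by
      rw [h3]
      filter_upwards [hO.mem_nhds hv'O] with z hz using hid z hz
    filter_upwards [h6, ev_comp κ h7] with z a b
    rw [mul_ap, mul_ap, b, a]

end Calc2

open Calc2

theorem loc2 (hpp : St_PP) : St_loc2 := by
  classical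
  intro f w v₁ v₂ hQ h12 h1w h1f h2w h2f
  obtain ⟨Φ, hΦ, hid⟩ := loc1 hpp f w v₁ hQ h1w h1f
  obtain ⟨O, hO1, hO2, hO3⟩ := eventually_nhds_iff.1 hid
  obtain ⟨v', hv'O, hv'⟩ := exists_mem_not O hO2 ⟨v₁, hO3⟩ {v₁, v₂, w, f w}
  simp only [Finset.mem_insert, Finset.mem_singleton, not_or] at hv'
  obtain ⟨a1, a2, a3, a4⟩ := hv'
  obtain ⟨κ, κ', h3, h4, h5, h6⟩ := hpp v₂ v' {w, v₁} {f w, v₁}
    (by simp [h2w, h12.symm]) (by simp [a1, a3]) (by simp [h2f, h12.symm]) (by simp [a1, a4])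
  refine ⟨κ' * Φ * κ, ?_, ?_, ?_⟩
  · filter_upwards [h4 w (by simp), hΦ, ev_comp f (h5 (f w) (by simp))] with z a b c
    rw [mul_ap, mul_ap, a, b, c]
  · filter_upwards [h4 v₁ (by simp), hid, h5 v₁ (by simp)] with z a b c
    rw [mul_ap, mul_ap, a, b, c]
  · have h7 : ∀ᶠ z in 𝓝 (κ v₂), Φ z = z := by
      rw [h3]
      filter_upwards [hO2.mem_nhds hv'O] with z hz using hO1 z hz
    filter_upwards [h6, ev_comp κ h7] with z a b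
    rw [mul_ap, mul_ap, b, a]

theorem mulQ (hpp : St_PP) : St_mul := by
  classical
  intro f g w hg hf
  obtain ⟨v, -, hv⟩ := exists_mem_not univ isOpen_univ univ_nonempty {w, g w, f (g w)}
  simp only [Finset.mem_insert, Finset.mem_singleton, not_or] at hv
  obtain ⟨Φ₁, h1, h2⟩ := loc1 hpp g w v hg hv.1 hv.2.1
  obtain ⟨Φ₂, h3, h4⟩ := loc1 hpp f (g w) v hf hv.2.1 hv.2.2
  refine ⟨Φ₂ * Φ₁, ?_, GId_of_eventually v ?_⟩
  · filter_upwards [h1, ev_comp g h3] with z a b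
    rw [mul_ap, mul_ap, a, b]
  · filter_upwards [h2, h4] with z a b
    rw [mul_ap, a, b]

namespace Calc2

/-- Two-germ extension at `0` (identity) and `p`. -/
theorem stepA (hpp : St_PP) (hm : St_mul) (f g : S ≃ₜ S) (o i : S) (hQ : ∀ w, Q f w)
    (hf : f o ≠ o) (hg : g o = i) (hi : i ≠ o) (hg0 : Q g o) :
    ∃ Φ : S ≃ₜ S, (∀ᶠ z in 𝓝 o, Φ z = z) ∧ (∀ᶠ z in 𝓝 (f o), Φ z = (g * f⁻¹) z) := by
  have h1 : Q (g * f⁻¹) (f o) := by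
    apply hm
    · exact Q_inv (hQ o)
    · rw [inv_ap]; exact hg0
  have h2 : (g * f⁻¹) (f o) = i := by rw [mul_ap, inv_ap, hg]
  obtain ⟨Φ, h3, h4⟩ := loc1 hpp (g * f⁻¹) (f o) o h1 hf.symm (by rw [h2]; exact hi.symm)
  exact ⟨Φ, h4, h3⟩

/-- conjugating a point to `0` -/
theorem tau (hpp : St_PP) (x y : S) : ∃ τ : S ≃ₜ S, τ x = y := by
  obtain ⟨κ, -, h, -⟩ := hpp x y ∅ ∅ (by simp) (by simp) (by simp) (by simp)
  exact ⟨κ, h⟩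

end Calc2

theorem nf1 (hpp : St_PP) (hm : St_mul) : St_NF1 := by
  intro f hQ x hx g hg hg0
  obtain ⟨τ, hτ⟩ := tau hpp x ((0 : ℂ) : S)
  set f' := τ * f * τ⁻¹ with hf'
  have hτ' : τ⁻¹ ((0 : ℂ) : S) = x := by rw [← hτ, inv_ap]
  have hQ' : ∀ w, Q f' w := fun w => by
    have := Q_conj (hQ (τ⁻¹ w)) τ
    rwa [ap_inv] at this
  have hf0 : f' ((0 : ℂ) : S) ≠ ((0 : ℂ) : S) := by
    rw [hf', mul_ap, mul_ap, hτ']
    intro h
    apply hx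
    rw [← hτ] at h
    exact τ.injective h
  have h10 : ((1 : ℂ) : S) ≠ ((0 : ℂ) : S) := by
    rw [Ne, OnePoint.coe_eq_coe]; exact one_ne_zero
  obtain ⟨Φ, h1, h2⟩ := stepA hpp hm f' g _ _ hQ' hf0 hg h10 hg0
  refine ⟨Φ * τ, ?_⟩
  have e : Φ * τ * f * (Φ * τ)⁻¹ = Φ * f' * Φ⁻¹ := by rw [hf']; group
  rw [e]
  have h0 : Φ⁻¹ ((0 : ℂ) : S) = ((0 : ℂ) : S) := by
    conv_lhs => rw [← h1.self_of_nhds]
    exact inv_ap _ _
  have h3 : ∀ᶠ z in 𝓝 ((0 : ℂ) : S), Φ⁻¹ z = z := by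
    have h5 : ∀ᶠ z in 𝓝 (Φ⁻¹ ((0 : ℂ) : S)), Φ z = z := by rw [h0]; exact h1
    filter_upwards [ev_comp Φ⁻¹ h5] with z hz
    rw [ap_inv] at hz
    exact hz.symm
  filter_upwards [h3, ev_comp f' h2] with z a b
  rw [mul_ap, mul_ap, a, b, mul_ap, inv_ap]

theorem nf2 (hpp : St_PP) (hm : St_mul) : St_NF2 := by
  intro f hQ x hx hxx g₁ g₂ hg₁ hg₂ hq₁ hq₂
  obtain ⟨τ, hτ⟩ := tau hpp x ((0 : ℂ) : S)
  set f' := τ * f * τ⁻¹ with hf'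
  have hτ' : τ⁻¹ ((0 : ℂ) : S) = x := by rw [← hτ, inv_ap]
  have hQ' : ∀ w, Q f' w := fun w => by
    have := Q_conj (hQ (τ⁻¹ w)) τ
    rwa [ap_inv] at this
  have hf0 : f' ((0 : ℂ) : S) ≠ ((0 : ℂ) : S) := by
    rw [hf', mul_ap, mul_ap, hτ']
    intro h
    apply hx
    rw [← hτ] at h
    exact τ.injective h
  have hff0 : f' (f' ((0 : ℂ) : S)) ≠ ((0 : ℂ) : S) := by
    rw [hf', mul_ap, mul_ap, mul_ap, mul_ap, hτ', inv_ap]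
    intro h
    apply hxx
    rw [← hτ] at h
    exact τ.injective h
  have h10 : ((1 : ℂ) : S) ≠ ((0 : ℂ) : S) := by
    rw [Ne, OnePoint.coe_eq_coe]; exact one_ne_zero
  have hm10 : ((-1 : ℂ) : S) ≠ ((0 : ℂ) : S) := by
    rw [Ne, OnePoint.coe_eq_coe]; norm_num
  have hm11 : ((-1 : ℂ) : S) ≠ ((1 : ℂ) : S) := by
    rw [Ne, OnePoint.coe_eq_coe]; norm_num
  obtain ⟨Φ, h1, h2⟩ := stepA hpp hm f' g₁ _ _ hQ' hf0 hg₁ h10 hq₁
  -- the third point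
  set q := f'⁻¹ ((0 : ℂ) : S) with hq
  have hfq : f' q = ((0 : ℂ) : S) := ap_inv _ _
  have hΦ0 : Φ ((0 : ℂ) : S) = ((0 : ℂ) : S) := h1.self_of_nhds
  have hΦp : Φ (f' ((0 : ℂ) : S)) = ((1 : ℂ) : S) := by
    rw [h2.self_of_nhds, mul_ap, inv_ap, hg₁]
  have hq0 : q ≠ ((0 : ℂ) : S) := by
    intro h; apply hf0; rw [h] at hfq; exact hfq
  have hqp : q ≠ f' ((0 : ℂ) : S) := by
    intro h; apply hff0; rw [← h]; exact hfq
  have hw0 : Φ q ≠ ((0 : ℂ) : S) := by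
    intro h; exact hq0 (Φ.injective (h.trans hΦ0.symm))
  have hw1 : Φ q ≠ ((1 : ℂ) : S) := by
    intro h; exact hqp (Φ.injective (h.trans hΦp.symm))
  have hΦi : GId Φ⁻¹ := GId_inv (GId_of_eventually _ h1)
  have hQ3 : Q (g₂ * f' * Φ⁻¹) (Φ q) := by
    apply hm
    · exact Q_of_GId hΦi _
    · rw [inv_ap]
      apply hm
      · exact hQ' q
      · rw [hfq]; exact hq₂
  have hv : (g₂ * f' * Φ⁻¹) (Φ q) = ((-1 : ℂ) : S) := by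
    rw [mul_ap, mul_ap, inv_ap, hfq, hg₂]
  obtain ⟨Ψ, k1, k2, k3⟩ := loc2 hpp (g₂ * f' * Φ⁻¹) (Φ q) ((0 : ℂ) : S) ((1 : ℂ) : S) hQ3
    h10.symm hw0.symm (by rw [hv]; exact hm10.symm) hw1.symm (by rw [hv]; exact hm11.symm)
  refine ⟨Ψ * Φ * τ, ?_, ?_⟩
  · have e : Ψ * Φ * τ * f * (Ψ * Φ * τ)⁻¹ = (Ψ * Φ) * f' * (Ψ * Φ)⁻¹ := by rw [hf']; group
    rw [e]
    have h0 : ∀ᶠ z in 𝓝 ((0 : ℂ) : S), (Ψ * Φ) z = z := by
      filter_upwards [h1, k2] with z a b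
      rw [mul_ap, a, b]
    have h00 : (Ψ * Φ)⁻¹ ((0 : ℂ) : S) = ((0 : ℂ) : S) := by
      conv_lhs => rw [← h0.self_of_nhds]
      exact inv_ap _ _
    have h3 : ∀ᶠ z in 𝓝 ((0 : ℂ) : S), (Ψ * Φ)⁻¹ z = z := by
      have h5 : ∀ᶠ z in 𝓝 ((Ψ * Φ)⁻¹ ((0 : ℂ) : S)), (Ψ * Φ) z = z := by rw [h00]; exact h0
      filter_upwards [ev_comp (Ψ * Φ)⁻¹ h5] with z hz
      rw [ap_inv] at hz
      exact hz.symm
    have h6 : ∀ᶠ z in 𝓝 (g₁ ((0 : ℂ) : S)), Ψ z = z := by rw [hg₁]; exact k3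
    filter_upwards [h3, ev_comp f' h2, ev_comp g₁ h6] with z a b c
    rw [mul_ap, mul_ap (Ψ * Φ), a, mul_ap Ψ, b, mul_ap, inv_ap, c]
  · have e : Ψ * Φ * τ * f⁻¹ * (Ψ * Φ * τ)⁻¹ = (Ψ * Φ) * f'⁻¹ * (Ψ * Φ)⁻¹ := by rw [hf']; group
    rw [e]
    have h0 : ∀ᶠ z in 𝓝 ((0 : ℂ) : S), (Ψ * Φ) z = z := by
      filter_upwards [h1, k2] with z a b
      rw [mul_ap, a, b]
    have h00 : (Ψ * Φ)⁻¹ ((0 : ℂ) : S) = ((0 : ℂ) : S) := by
      conv_lhs => rw [← h0.self_of_nhds]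
      exact inv_ap _ _
    have h3 : ∀ᶠ z in 𝓝 ((0 : ℂ) : S), (Ψ * Φ)⁻¹ z = z := by
      have h5 : ∀ᶠ z in 𝓝 ((Ψ * Φ)⁻¹ ((0 : ℂ) : S)), (Ψ * Φ) z = z := by rw [h00]; exact h0
      filter_upwards [ev_comp (Ψ * Φ)⁻¹ h5] with z hz
      rw [ap_inv] at hz
      exact hz.symm
    have h7 : ∀ᶠ z in 𝓝 ((0 : ℂ) : S), Ψ (Φ (f'⁻¹ z)) = (g₂ * f' * Φ⁻¹) (Φ (f'⁻¹ z)) := by
      have := ev_comp f'⁻¹ (w := ((0 : ℂ) : S)) (ev_comp Φ (w := q) k1)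
      exact this
    filter_upwards [h3, h7] with z a b
    rw [mul_ap, mul_ap (Ψ * Φ), a, mul_ap Ψ, b, mul_ap, mul_ap, inv_ap, ap_inv]

end Pool.Agent.NH50.SPH
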