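import Pool.Agent.NH50.SPH.Calc

/-!
# Project SPH (MP_c6d336_gt), part P2: cut-off homeomorphisms of the plane

`strict : St_strict` and `bump : St_bump`.  Both are obtained from the fact that `id + u` is a
homeomorphism of the plane as soon as `u` is Lipschitz with a constant `< 1`; the maps `u` are
obtained by a Lipschitz extension of a map defined on the union of a small disc and the exterior of
a larger one.
-/

set_option autoImplicit false

open Set Filter Topology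
open scoped NNReal

noncomputable section

namespace Pool.Agent.NH50.SPH

namespace Cut

/-- `id + u` is a homeomorphism when `u` is Lipschitz with constant less than one. -/
theorem exists_idadd (u : ℂ → ℂ) (c : ℝ≥0) (hc : c < 1) (hu : LipschitzWith c u) :
    ∃ Φ : ℂ ≃ₜ ℂ, ∀ z, Φ z = z + u z := by
  have happ : ApproximatesLinearOn (fun z : ℂ => z + u z)
      ((ContinuousLinearEquiv.refl ℝ ℂ : ℂ ≃L[ℝ] ℂ) : ℂ →L[ℝ] ℂ) univ c := by
    intro x _ y _
    have h1 : (x + u x) - (y + u y) -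
        ((ContinuousLinearEquiv.refl ℝ ℂ : ℂ ≃L[ℝ] ℂ) : ℂ →L[ℝ] ℂ) (x - y) = u x - u y := by
      show (x + u x) - (y + u y) - (x - y) = u x - u y
      ring
    show ‖(x + u x) - (y + u y) -
        ((ContinuousLinearEquiv.refl ℝ ℂ : ℂ ≃L[ℝ] ℂ) : ℂ →L[ℝ] ℂ) (x - y)‖ ≤ _
    rw [h1]
    have h2 := hu.dist_le_mul x y
    rwa [dist_eq_norm, dist_eq_norm] at h2
  have hN : ‖(((ContinuousLinearEquiv.refl ℝ ℂ : ℂ ≃L[ℝ] ℂ).symm : ℂ ≃L[ℝ] ℂ) :
      ℂ →L[ℝ] ℂ)‖₊ = 1 := by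
    have h3 : (((ContinuousLinearEquiv.refl ℝ ℂ : ℂ ≃L[ℝ] ℂ).symm : ℂ ≃L[ℝ] ℂ) :
      ℂ →L[ℝ] ℂ) = ContinuousLinearMap.id ℝ ℂ := rfl
    rw [h3]
    exact ContinuousLinearMap.nnnorm_id
  refine ⟨happ.toHomeomorph _ (Or.inr ?_), fun z => rfl⟩
  rw [hN]
  simpa using hc

/-- The gluing estimate. -/
theorem glue (c : ℂ) (r : ℝ) (hr : 0 < r) (v : ℂ → ℂ) (ε : ℝ≥0)
    (h1 : ∀ x y : ℂ, ‖x - c‖ ≤ r / 2 → ‖y - c‖ ≤ r / 2 → ‖v x - v y‖ ≤ ε * ‖x - y‖)
    (h2 : ∀ x : ℂ, ‖x - c‖ ≤ r / 2 → ‖v x‖ ≤ ε * (r / 2)) :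
    LipschitzOnWith ε (fun z => if ‖z - c‖ ≤ r / 2 then v z else 0)
      {z | ‖z - c‖ ≤ r / 2 ∨ r ≤ ‖z - c‖} := by
  have key : ∀ x y : ℂ, ‖x - c‖ ≤ r / 2 → r ≤ ‖y - c‖ → ‖v x‖ ≤ ε * ‖x - y‖ := by
    intro x y hx hy
    refine (h2 x hx).trans ?_
    refine mul_le_mul_of_nonneg_left ?_ ε.2
    have h3 : ‖y - c‖ ≤ ‖x - y‖ + ‖x - c‖ := by
      have h4 : y - c = -(x - y) + (x - c) := by ring
      calc ‖y - c‖ = ‖-(x - y) + (x - c)‖ := by rw [h4]
        _ ≤ ‖-(x - y)‖ + ‖x - c‖ := norm_add_le _ _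
        _ = ‖x - y‖ + ‖x - c‖ := by rw [norm_neg]
    linarith
  refine LipschitzOnWith.of_dist_le_mul ?_
  intro x hx y hy
  rw [dist_eq_norm, dist_eq_norm]
  rcases hx with hx | hx <;> rcases hy with hy | hy
  · simp only [hx, hy, if_true]
    exact h1 x y hx hy
  · have hy' : ¬ ‖y - c‖ ≤ r / 2 := by
      intro h
      linarith
    simp only [hx, hy', if_true, if_false, sub_zero]
    exact key x y hx hy
  · have hx' : ¬ ‖x - c‖ ≤ r / 2 := by
      intro h
      linarith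
    simp only [hy, hx', if_true, if_false, zero_sub, norm_neg]
    rw [norm_sub_rev]
    exact key y x hy hx
  · have hx' : ¬ ‖x - c‖ ≤ r / 2 := by
      intro h
      linarith
    have hy' : ¬ ‖y - c‖ ≤ r / 2 := by
      intro h
      linarith
    simp only [hy', hx', if_false, sub_zero, norm_zero]
    positivity

end Cut

open Cut

theorem strict : St_strict := by
  intro g hg
  have hCpos := lipschitzExtensionConstant_pos ℂ
  obtain ⟨s, hs, happ⟩ := hg.approximates_deriv_on_nhds (c := (2 * lipschitzExtensionConstant ℂ)⁻¹)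
    (Or.inr (by positivity))
  obtain ⟨r, hr, hrs⟩ := Metric.mem_nhds_iff.1 hs
  set ε : ℝ≥0 := (2 * lipschitzExtensionConstant ℂ)⁻¹ with hε
  have hball : ∀ x : ℂ, ‖x - 0‖ ≤ r / 2 → x ∈ s := by
    intro x hx
    refine hrs ?_
    rw [Metric.mem_ball, dist_eq_norm]
    linarith
  set v : ℂ → ℂ := fun z => g z - z - g 0 with hv
  have h1 : ∀ x y : ℂ, ‖x - 0‖ ≤ r / 2 → ‖y - 0‖ ≤ r / 2 → ‖v x - v y‖ ≤ ε * ‖x - y‖ := by
    intro x y hx hy
    have h := happ x (hball x hx) y (hball y hy)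
    have h3 : g x - g y - (ContinuousLinearMap.id ℝ ℂ) (x - y) = v x - v y := by
      simp only [hv, ContinuousLinearMap.id_apply]
      ring
    rw [h3] at h
    exact h
  have h2 : ∀ x : ℂ, ‖x - 0‖ ≤ r / 2 → ‖v x‖ ≤ ε * (r / 2) := by
    intro x hx
    have h0 : ‖(0 : ℂ) - 0‖ ≤ r / 2 := by
      rw [sub_zero, norm_zero]
      linarith
    have h := h1 x 0 hx h0
    have h3 : v 0 = 0 := by
      simp only [hv]
      ring
    rw [h3, sub_zero] at h
    exact h.trans (mul_le_mul_of_nonneg_left hx ε.2)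
  obtain ⟨w, hw, hws⟩ := (glue 0 r hr v ε h1 h2).extend_finite_dimension
  have hlip : LipschitzWith (1 / 2 : ℝ≥0) (fun z => w z + g 0) := by
    have h4 : lipschitzExtensionConstant ℂ * ε = 1 / 2 := by
      rw [hε]
      field_simp
    rw [h4] at hw
    refine LipschitzWith.of_dist_le_mul ?_
    intro x y
    rw [dist_add_right]
    exact hw.dist_le_mul x y
  obtain ⟨Φ, hΦ⟩ := exists_idadd _ (1 / 2) (by
    rw [← NNReal.coe_lt_coe]
    push_cast
    norm_num) hlip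
  refine ⟨Φ, ?_, r, ?_⟩
  · filter_upwards [Metric.ball_mem_nhds (0 : ℂ) (half_pos hr)] with z hz
    rw [Metric.mem_ball, dist_eq_norm] at hz
    have h5 : w z = v z := by
      have h6 := hws (Or.inl hz.le : z ∈ {z : ℂ | ‖z - 0‖ ≤ r / 2 ∨ r ≤ ‖z - 0‖})
      rw [← h6]
      simp only [hz.le, if_true]
    rw [hΦ, h5]
    simp only [hv]
    ring
  · intro z hz
    have hz0 : ‖z - 0‖ = ‖z‖ := by rw [sub_zero]
    have hz' : ¬ ‖z - 0‖ ≤ r / 2 := by
      rw [hz0]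
      intro h
      linarith
    have h5 : w z = 0 := by
      have h6 := hws (Or.inr (by rw [hz0]; exact hz) :
        z ∈ {z : ℂ | ‖z - 0‖ ≤ r / 2 ∨ r ≤ ‖z - 0‖})
      rw [← h6]
      simp only [hz', if_false]
    rw [hΦ, h5]
    ring

theorem bump : St_bump := by
  intro c a r hr ha
  -- a Lipschitz cut-off
  have hβ : LipschitzOnWith (2 / ⟨r, hr.le⟩ : ℝ≥0) (fun z : ℂ => if ‖z - c‖ ≤ r / 2 then (1 : ℝ) else 0)
      {z | ‖z - c‖ ≤ r / 2 ∨ r ≤ ‖z - c‖} := by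
    have key : ∀ x y : ℂ, ‖x - c‖ ≤ r / 2 → r ≤ ‖y - c‖ → 1 ≤ 2 / r * ‖x - y‖ := by
      intro x y hx hy
      have h3 : ‖y - c‖ ≤ ‖x - y‖ + ‖x - c‖ := by
        have h4 : y - c = -(x - y) + (x - c) := by ring
        calc ‖y - c‖ = ‖-(x - y) + (x - c)‖ := by rw [h4]
          _ ≤ ‖-(x - y)‖ + ‖x - c‖ := norm_add_le _ _
          _ = ‖x - y‖ + ‖x - c‖ := by rw [norm_neg]
      rw [div_mul_eq_mul_div, le_div_iff₀ hr]
      linarith
    refine LipschitzOnWith.of_dist_le_mul ?_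
    intro x hx y hy
    have hcoe : ((2 / ⟨r, hr.le⟩ : ℝ≥0) : ℝ) = 2 / r := by
      push_cast
      rfl
    rw [hcoe, dist_eq_norm, dist_eq_norm]
    rcases hx with hx | hx <;> rcases hy with hy | hy
    · simp only [hx, hy, if_true, sub_self, norm_zero]
      positivity
    · have hy' : ¬ ‖y - c‖ ≤ r / 2 := by
        intro h
        linarith
      simp only [hx, hy', if_true, if_false, sub_zero, norm_one]
      exact key x y hx hy
    · have hx' : ¬ ‖x - c‖ ≤ r / 2 := by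
        intro h
        linarith
      simp only [hy, hx', if_true, if_false, zero_sub, norm_neg, norm_one]
      rw [norm_sub_rev]
      exact key y x hy hx
    · have hx' : ¬ ‖x - c‖ ≤ r / 2 := by
        intro h
        linarith
      have hy' : ¬ ‖y - c‖ ≤ r / 2 := by
        intro h
        linarith
      simp only [hy', hx', if_false, sub_zero, norm_zero]
      positivity
  obtain ⟨β, hβl, hβs⟩ := hβ.extend_real
  have hlip : LipschitzWith (1 / 2 : ℝ≥0) (fun z => (β z : ℂ) * a) := by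
    refine LipschitzWith.of_dist_le_mul ?_
    intro x y
    have h1 := hβl.dist_le_mul x y
    have hcoe : ((2 / ⟨r, hr.le⟩ : ℝ≥0) : ℝ) = 2 / r := by
      push_cast
      rfl
    rw [hcoe, dist_eq_norm, dist_eq_norm, Real.norm_eq_abs] at h1
    rw [dist_eq_norm, dist_eq_norm, ← sub_mul, norm_mul]
    have h2 : ‖(β x : ℂ) - (β y : ℂ)‖ = |β x - β y| := by
      rw [← Complex.ofReal_sub, Complex.norm_real, Real.norm_eq_abs]
    rw [h2]
    have h3 : |β x - β y| * ‖a‖ ≤ (2 / r * ‖x - y‖) * (r / 4) :=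
      mul_le_mul h1 ha.le (norm_nonneg _) (by positivity)
    have h4 : (2 / r * ‖x - y‖) * (r / 4) = 1 / 2 * ‖x - y‖ := by
      field_simp
      ring
    rw [h4] at h3
    have h5 : ((1 / 2 : ℝ≥0) : ℝ) = 1 / 2 := by
      push_cast
      rfl
    rw [h5]
    exact h3
  obtain ⟨Φ, hΦ⟩ := exists_idadd _ (1 / 2) (by
    rw [← NNReal.coe_lt_coe]
    push_cast
    norm_num) hlip
  refine ⟨Φ, ?_, ?_⟩
  · intro z hz
    have h5 : β z = 1 := by
      have h6 := hβs (Or.inl hz : z ∈ {z : ℂ | ‖z - c‖ ≤ r / 2 ∨ r ≤ ‖z - c‖})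
      rw [← h6]
      simp only [hz, if_true]
    rw [hΦ, h5, Complex.ofReal_one, one_mul]
  · intro z hz
    have hz' : ¬ ‖z - c‖ ≤ r / 2 := by
      intro h
      linarith
    have h5 : β z = 0 := by
      have h6 := hβs (Or.inr hz : z ∈ {z : ℂ | ‖z - c‖ ≤ r / 2 ∨ r ≤ ‖z - c‖})
      rw [← h6]
      simp only [hz', if_false]
    rw [hΦ, h5, Complex.ofReal_zero, zero_mul, add_zero]

end Pool.Agent.NH50.SPH
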