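import Mathlib

/-!
# Project SPH (MP_c6d336_gt): products of conjugates in the homeomorphism group of the 2-sphere

Common definitions: the Riemann sphere `S = OnePoint ℂ`, translations, scalings, the inversion
`J z = -1/z`, and the germ property `Q`.
-/

set_option autoImplicit false

open Set Filter Topology

noncomputable section

namespace Pool.Agent.NH50.SPH

/-- The Riemann sphere. -/
abbrev S := OnePoint ℂ

/-- The extension of a homeomorphism of the plane to the sphere (fixing `∞`). -/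
def ext (h : ℂ ≃ₜ ℂ) : S ≃ₜ S := h.onePointCongr

@[simp] theorem ext_coe (h : ℂ ≃ₜ ℂ) (z : ℂ) : ext h (z : S) = ((h z : ℂ) : S) := rfl

@[simp] theorem ext_infty (h : ℂ ≃ₜ ℂ) : ext h OnePoint.infty = OnePoint.infty := rfl

@[simp] theorem ext_inv_coe (h : ℂ ≃ₜ ℂ) (z : ℂ) : (ext h)⁻¹ (z : S) = ((h.symm z : ℂ) : S) := rfl

@[simp] theorem ext_inv_infty (h : ℂ ≃ₜ ℂ) : (ext h)⁻¹ OnePoint.infty = OnePoint.infty := rfl

theorem mul_ap {X : Type} [TopologicalSpace X] (f g : X ≃ₜ X) (z : X) : (f * g) z = f (g z) := rfl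

theorem inv_ap {X : Type} [TopologicalSpace X] (f : X ≃ₜ X) (z : X) : f⁻¹ (f z) = z :=
  f.symm_apply_apply z

theorem ap_inv {X : Type} [TopologicalSpace X] (f : X ≃ₜ X) (z : X) : f (f⁻¹ z) = z :=
  f.apply_symm_apply z

/-- Translation `z ↦ z + a`. -/
def tr (a : ℂ) : ℂ ≃ₜ ℂ := Homeomorph.addRight a

@[simp] theorem tr_ap (a z : ℂ) : tr a z = z + a := rfl

@[simp] theorem tr_symm_ap (a z : ℂ) : (tr a).symm z = z - a := by
  show z + -a = z - a
  ring

/-- Scaling `z ↦ c z`, `c ≠ 0`. -/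
def sc (c : ℂ) (hc : c ≠ 0) : ℂ ≃ₜ ℂ := Homeomorph.mulLeft₀ c hc

@[simp] theorem sc_ap (c : ℂ) (hc : c ≠ 0) (z : ℂ) : sc c hc z = c * z := rfl

@[simp] theorem sc_symm_ap (c : ℂ) (hc : c ≠ 0) (z : ℂ) : (sc c hc).symm z = c⁻¹ * z := rfl

open Classical in
/-- The inversion as a function. -/
def Jf (z : S) : S := z.elim ((0 : ℂ) : S)
    (fun w : ℂ => if w = 0 then OnePoint.infty else ((-w⁻¹ : ℂ) : S))

theorem Jf_infty : Jf OnePoint.infty = ((0 : ℂ) : S) := rfl

theorem Jf_zero : Jf ((0 : ℂ) : S) = OnePoint.infty := by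
  show (if (0 : ℂ) = 0 then OnePoint.infty else ((-(0 : ℂ)⁻¹ : ℂ) : S)) = OnePoint.infty
  simp

theorem Jf_coe (z : ℂ) (hz : z ≠ 0) : Jf (z : S) = ((-z⁻¹ : ℂ) : S) := by
  show (if z = 0 then OnePoint.infty else ((-z⁻¹ : ℂ) : S)) = _
  simp [hz]

theorem Jf_Jf (z : S) : Jf (Jf z) = z := by
  induction z using OnePoint.rec with
  | infty => rw [Jf_infty, Jf_zero]
  | coe z =>
    by_cases hz : z = 0
    · subst hz; rw [Jf_zero, Jf_infty]
    · rw [Jf_coe z hz, Jf_coe _ (neg_ne_zero.2 (inv_ne_zero hz))]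
      congr 1
      field_simp

theorem Jf_cont : Continuous Jf := by
  rw [continuous_iff_continuousAt]
  intro z
  induction z using OnePoint.rec with
  | infty =>
    rw [OnePoint.continuousAt_infty']
    rw [Jf_infty]
    have h1 : Tendsto (fun w : ℂ => ((-w⁻¹ : ℂ) : S)) (coclosedCompact ℂ) (𝓝 ((0 : ℂ) : S)) := by
      refine (OnePoint.continuous_coe.tendsto _).comp ?_
      rw [coclosedCompact_eq_cocompact]
      have h2 := (tendsto_inv₀_cobounded (α := ℂ)).neg
      rw [neg_zero, Metric.cobounded_eq_cocompact] at h2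
      exact h2
    refine h1.congr' ?_
    have h3 : ∀ᶠ w : ℂ in coclosedCompact ℂ, w ≠ 0 := by
      rw [coclosedCompact_eq_cocompact]
      have : ({0} : Set ℂ)ᶜ ∈ cocompact ℂ := isCompact_singleton.compl_mem_cocompact
      exact this
    filter_upwards [h3] with w hw
    exact (Jf_coe w hw).symm
  | coe z =>
    rw [OnePoint.continuousAt_coe]
    by_cases hz : z = 0
    · subst hz
      show Tendsto (Jf ∘ (fun w : ℂ => (w : S))) (𝓝 0) (𝓝 (Jf ((0 : ℂ) : S)))
      rw [Jf_zero, ← nhdsNE_sup_pure (0 : ℂ)]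
      refine Tendsto.sup ?_ ?_
      · have h1 : Tendsto (fun w : ℂ => -w⁻¹) (𝓝[≠] 0) (cocompact ℂ) := by
          rw [← Metric.cobounded_eq_cocompact]
          exact tendsto_neg_cobounded.comp tendsto_inv₀_nhdsNE_zero
        have h2 : Tendsto (fun w : ℂ => ((-w⁻¹ : ℂ) : S)) (𝓝[≠] 0) (𝓝 OnePoint.infty) := by
          have h3 := OnePoint.tendsto_coe_infty (X := ℂ)
          rw [coclosedCompact_eq_cocompact] at h3
          exact h3.comp h1
        refine h2.congr' ?_
        filter_upwards [self_mem_nhdsWithin] with w hw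
        exact (Jf_coe w hw).symm
      · rw [tendsto_pure_left]
        intro s hs
        show Jf ((0 : ℂ) : S) ∈ s
        rw [Jf_zero]
        exact mem_of_mem_nhds hs
    · have h1 : ContinuousAt (fun w : ℂ => ((-w⁻¹ : ℂ) : S)) z :=
        OnePoint.continuous_coe.continuousAt.comp (continuousAt_inv₀ hz).neg
      refine h1.congr ?_
      filter_upwards [isOpen_ne.mem_nhds hz] with w hw
      exact (Jf_coe w hw).symm

/-- The inversion `z ↦ -1/z` of the sphere. -/
def J : S ≃ₜ S where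
  toFun := Jf
  invFun := Jf
  left_inv := Jf_Jf
  right_inv := Jf_Jf
  continuous_toFun := Jf_cont
  continuous_invFun := Jf_cont

@[simp] theorem J_infty : J OnePoint.infty = ((0 : ℂ) : S) := Jf_infty
@[simp] theorem J_zero : J ((0 : ℂ) : S) = OnePoint.infty := Jf_zero
theorem J_coe (z : ℂ) (hz : z ≠ 0) : J (z : S) = ((-z⁻¹ : ℂ) : S) := Jf_coe z hz
theorem J_J (z : S) : J (J z) = z := Jf_Jf z
theorem J_inv : J⁻¹ = J := rfl

/-- The Moebius map `z ↦ -1/(z + L)`. -/
def M (L : ℝ) : S ≃ₜ S := J * ext (tr (L : ℂ))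

/-- `f` is the identity on a nonempty open set. -/
def GId (f : S ≃ₜ S) : Prop := ∃ O : Set S, IsOpen O ∧ O.Nonempty ∧ ∀ z ∈ O, f z = z

/-- The germ of `f` at `w` extends to a homeomorphism which is the identity on a nonempty open
set. -/
def Q (f : S ≃ₜ S) (w : S) : Prop := ∃ Φ : S ≃ₜ S, (∀ᶠ z in 𝓝 w, Φ z = f z) ∧ GId Φ

/-- The path component of the identity in the homeomorphism group of `X` (compact-open
topology). -/
def G (X : Type) [TopologicalSpace X] : Set (X ≃ₜ X) :=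
  {f | ∃ h : unitInterval → (X ≃ₜ X),
    Continuous (fun t => (⟨h t, (h t).continuous⟩ : C(X, X))) ∧ h 0 = 1 ∧ h 1 = f}

end Pool.Agent.NH50.SPH
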