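import Pool.Agent.NH50.SPH.Stm

/-!
# Project SPH: conjugating a periodic homeomorphism to sublinear displacement
-/

set_option autoImplicit false

open Set Filter Topology

noncomputable section

namespace Pool.Agent.NH50.SPH.DispAux

/-- The homeomorphism `t ↦ sign t * √|t|` of the line. -/
def ssq : ℝ ≃ₜ ℝ where
  toFun t := √t - √(-t)
  invFun t := t * |t|
  left_inv t := by
    rcases le_total 0 t with h | h
    · have h1 : √(-t) = 0 := Real.sqrt_eq_zero_of_nonpos (by linarith)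
      simp only [h1, sub_zero]
      rw [abs_of_nonneg (Real.sqrt_nonneg _), Real.mul_self_sqrt h]
    · have h1 : √t = 0 := Real.sqrt_eq_zero_of_nonpos h
      have h2 : 0 ≤ -t := by linarith
      simp only [h1, zero_sub]
      rw [abs_neg, abs_of_nonneg (Real.sqrt_nonneg _), neg_mul, Real.mul_self_sqrt h2]
      ring
  right_inv t := by
    rcases le_total 0 t with h | h
    · have h1 : √(-(t * |t|)) = 0 :=
        Real.sqrt_eq_zero_of_nonpos (by have := mul_nonneg h (abs_nonneg t); linarith)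
      simp only [h1, sub_zero]
      rw [abs_of_nonneg h, Real.sqrt_mul_self h]
    · have h1 : √(t * |t|) = 0 :=
        Real.sqrt_eq_zero_of_nonpos (mul_nonpos_of_nonpos_of_nonneg h (abs_nonneg t))
      have h2 : -(t * |t|) = (-t) * (-t) := by rw [abs_of_nonpos h]; ring
      have h3 : 0 ≤ -t := by linarith
      simp only [h1, zero_sub]
      rw [h2, Real.sqrt_mul_self h3]
      ring
  continuous_toFun := by fun_prop
  continuous_invFun := by fun_prop

theorem ssq_nonneg {t : ℝ} (h : 0 ≤ t) : ssq t = √t := by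
  show √t - √(-t) = √t
  have h1 : √(-t) = 0 := Real.sqrt_eq_zero_of_nonpos (by linarith)
  rw [h1, sub_zero]

theorem ssq_nonpos {t : ℝ} (h : t ≤ 0) : ssq t = -√(-t) := by
  show √t - √(-t) = -√(-t)
  have h1 : √t = 0 := Real.sqrt_eq_zero_of_nonpos h
  rw [h1, zero_sub]

theorem ssq_abs (t : ℝ) : |ssq t| = √|t| := by
  rcases le_total 0 t with h | h
  · rw [ssq_nonneg h, abs_of_nonneg (Real.sqrt_nonneg _), abs_of_nonneg h]
  · rw [ssq_nonpos h, abs_neg, abs_of_nonneg (Real.sqrt_nonneg _), abs_of_nonpos h]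

theorem sqrt_diff {A B : ℝ} (hA : 0 ≤ A) (hB : 0 ≤ B) (h : |A - B| ≤ 1) : |√A - √B| ≤ 1 := by
  rw [abs_le] at h ⊢
  have h1 : √A ≤ √B + 1 := by
    rw [Real.sqrt_le_left (by positivity)]
    nlinarith [Real.sqrt_nonneg B, Real.sq_sqrt hB]
  have h2 : √B ≤ √A + 1 := by
    rw [Real.sqrt_le_left (by positivity)]
    nlinarith [Real.sqrt_nonneg A, Real.sq_sqrt hA]
  constructor <;> linarith

/-- The product of two homeomorphisms of the line, on the plane. -/
def prd (f g : ℝ ≃ₜ ℝ) : ℂ ≃ₜ ℂ :=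
  (Complex.equivRealProdCLM.toHomeomorph.trans (f.prodCongr g)).trans
    Complex.equivRealProdCLM.symm.toHomeomorph

theorem prd_re (f g : ℝ ≃ₜ ℝ) (z : ℂ) : (prd f g z).re = f z.re := rfl

theorem prd_im (f g : ℝ ≃ₜ ℝ) (z : ℂ) : (prd f g z).im = g z.im := rfl

/-- Periodic continuous functions are bounded on vertical strips. -/
theorem strip_bound (f : ℂ → ℝ) (hf : Continuous f)
    (hper : ∀ ζ : ℂ, f (ζ + 2 * Real.pi * Complex.I) = f ζ) (r : ℝ) :
    ∃ D : ℝ, 0 ≤ D ∧ ∀ z : ℂ, |z.re| ≤ r → f z ≤ D := by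
  have hc : IsCompact (Icc (-r) r ×ℂ Icc (0 : ℝ) (2 * Real.pi)) := isCompact_Icc.reProdIm isCompact_Icc
  obtain ⟨D, hD⟩ := (hc.image hf).bddAbove
  have hpern : ∀ (n : ℤ) (ζ : ℂ), f (ζ + n * (2 * Real.pi * Complex.I)) = f ζ := by
    intro n
    induction n using Int.induction_on with
    | zero => intro ζ; simp
    | succ n ih =>
      intro ζ
      rw [← ih ζ, ← hper (ζ + ((n : ℕ) : ℤ) * (2 * Real.pi * Complex.I))]
      congr 1
      push_cast; ring
    | pred n ih =>
      intro ζ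
      rw [← ih ζ, ← hper (ζ + ((-(n : ℤ) - 1 : ℤ) : ℂ) * (2 * Real.pi * Complex.I))]
      congr 1
      push_cast; ring
  refine ⟨max D 0, le_max_right _ _, fun z hz => (le_max_left _ _).trans' ?_⟩
  have h2 : 0 < 2 * Real.pi := Real.two_pi_pos
  obtain ⟨n, hn⟩ : ∃ n : ℤ, z.im + n * (2 * Real.pi) ∈ Icc (0 : ℝ) (2 * Real.pi) := by
    refine ⟨-⌊z.im / (2 * Real.pi)⌋, ?_⟩
    have h3 := Int.floor_le (z.im / (2 * Real.pi))
    have h4 := (Int.lt_floor_add_one (z.im / (2 * Real.pi))).le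
    rw [le_div_iff₀ h2] at h3
    rw [div_le_iff₀ h2] at h4
    push_cast
    constructor <;> linarith
  rw [← hpern n z]
  refine hD ⟨_, ?_, rfl⟩
  rw [Complex.mem_reProdIm]
  constructor
  · have : (z + n * (2 * Real.pi * Complex.I)).re = z.re := by simp
    rw [this]
    exact abs_le.1 hz
  · have : (z + n * (2 * Real.pi * Complex.I)).im = z.im + n * (2 * Real.pi) := by simp
    rw [this]
    exact hn

theorem im_key (φ : ℝ ≃o ℝ) (hodd : ∀ x, φ (-x) = -φ x) (D : ℝ → ℝ) (hD0 : ∀ r, 0 ≤ D r)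
    (hDm : ∀ r s : ℝ, 0 ≤ r → r ≤ s → D r ≤ D s)
    (hφ : ∀ r : ℝ, 0 ≤ r → φ (r + D r) ≤ φ r + 1) (x y y' : ℝ) (hx : 0 ≤ x)
    (h : |y' - y| ≤ D x) : |ssq (φ y') - ssq (φ y)| ≤ 2 * √(φ x + 1) + 1 := by
  have hz : φ 0 = 0 := by have := hodd 0; rw [neg_zero] at this; linarith
  have habs : ∀ t, |φ t| = φ |t| := by
    intro t
    rcases le_total 0 t with h | h
    · have : 0 ≤ φ t := by rw [← hz]; exact φ.monotone h
      rw [abs_of_nonneg this, abs_of_nonneg h]
    · have : φ t ≤ 0 := by rw [← hz]; exact φ.monotone h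
      rw [abs_of_nonpos this, abs_of_nonpos h, hodd]
  have hφx : 0 ≤ φ x := by rw [← hz]; exact φ.monotone hx
  -- the bound in terms of absolute values
  have hbig : |y| ≤ x + D x → |y'| ≤ x + D x → |ssq (φ y') - ssq (φ y)| ≤ 2 * √(φ x + 1) := by
    intro h1 h2
    have h3 : √|φ y| ≤ √(φ x + 1) := by
      apply Real.sqrt_le_sqrt
      rw [habs]
      exact (φ.monotone h1).trans (hφ x hx)
    have h4 : √|φ y'| ≤ √(φ x + 1) := by
      apply Real.sqrt_le_sqrt
      rw [habs]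
      exact (φ.monotone h2).trans (hφ x hx)
    have h5 := abs_sub (ssq (φ y')) (ssq (φ y))
    rw [ssq_abs, ssq_abs] at h5
    linarith
  have hyy : |y'| ≤ |y| + D x := by
    have := abs_sub_abs_le_abs_sub y' y
    linarith
  have hyy' : |y| ≤ |y'| + D x := by
    have := abs_sub_abs_le_abs_sub y y'
    rw [abs_sub_comm y y'] at this
    linarith
  have hDx := hD0 x
  rcases le_or_gt |y| x with h1 | h1
  · have := hbig (by linarith) (by linarith)
    linarith
  rcases le_or_gt |y'| x with h2 | h2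
  · have := hbig (by linarith) (by linarith)
    linarith
  -- both are larger than `x`
  have h3 : |y'| ≤ |y| + D |y| := hyy.trans (by have := hDm x |y| hx h1.le; linarith)
  have h4 : |y| ≤ |y'| + D |y'| := hyy'.trans (by have := hDm x |y'| hx h2.le; linarith)
  have h5 : φ |y'| ≤ φ |y| + 1 := (φ.monotone h3).trans (hφ _ (abs_nonneg _))
  have h6 : φ |y| ≤ φ |y'| + 1 := (φ.monotone h4).trans (hφ _ (abs_nonneg _))
  have hs := Real.sqrt_nonneg (φ x + 1)
  rcases le_total 0 y with hy | hy <;> rcases le_total 0 y' with hy' | hy'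
  · rw [abs_of_nonneg hy, abs_of_nonneg hy'] at h5 h6
    have p1 : 0 ≤ φ y := by rw [← hz]; exact φ.monotone hy
    have p2 : 0 ≤ φ y' := by rw [← hz]; exact φ.monotone hy'
    rw [ssq_nonneg p1, ssq_nonneg p2]
    have := sqrt_diff p2 p1 (abs_le.2 ⟨by linarith, by linarith⟩)
    linarith
  · have h7 : |y' - y| = |y'| + |y| := by
      rw [abs_of_nonpos (by linarith : y' - y ≤ 0), abs_of_nonneg hy, abs_of_nonpos hy']; ring
    have := hbig (by linarith [abs_nonneg y']) (by linarith [abs_nonneg y])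
    linarith
  · have h7 : |y' - y| = |y'| + |y| := by
      rw [abs_of_nonneg (by linarith : 0 ≤ y' - y), abs_of_nonpos hy, abs_of_nonneg hy']; ring
    have := hbig (by linarith [abs_nonneg y']) (by linarith [abs_nonneg y])
    linarith
  · rw [abs_of_nonpos hy, abs_of_nonpos hy', hodd, hodd] at h5 h6
    have p1 : φ y ≤ 0 := by rw [← hz]; exact φ.monotone hy
    have p2 : φ y' ≤ 0 := by rw [← hz]; exact φ.monotone hy'
    rw [ssq_nonpos p1, ssq_nonpos p2]
    have := sqrt_diff (A := -φ y) (B := -φ y') (by linarith) (by linarith)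
      (abs_le.2 ⟨by linarith, by linarith⟩)
    have h8 : -√(-φ y') - -√(-φ y) = √(-φ y) - √(-φ y') := by ring
    rw [h8]
    linarith

theorem re_key (φ : ℝ ≃o ℝ) (hodd : ∀ x, φ (-x) = -φ x) (D : ℝ → ℝ)
    (hφ : ∀ r : ℝ, 0 ≤ r → φ (r + D r) ≤ φ r + 1) (X x x' : ℝ) (hX : 0 ≤ X)
    (h1 : |x'| ≤ |x| + D |x|) (h2 : |x| ≤ |x'| + D |x'|)
    (h3 : X ≤ x → 0 ≤ x') (h4 : x ≤ -X → x' ≤ 0) : |φ x' - φ x| ≤ 2 * φ X + 1 := by
  have hz : φ 0 = 0 := by have := hodd 0; rw [neg_zero] at this; linarith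
  have habs : ∀ t, |φ t| = φ |t| := by
    intro t
    rcases le_total 0 t with h | h
    · have : 0 ≤ φ t := by rw [← hz]; exact φ.monotone h
      rw [abs_of_nonneg this, abs_of_nonneg h]
    · have : φ t ≤ 0 := by rw [← hz]; exact φ.monotone h
      rw [abs_of_nonpos this, abs_of_nonpos h, hodd]
  have hφX : 0 ≤ φ X := by rw [← hz]; exact φ.monotone hX
  have h5 : φ |x'| ≤ φ |x| + 1 := (φ.monotone h1).trans (hφ _ (abs_nonneg _))
  have h6 : φ |x| ≤ φ |x'| + 1 := (φ.monotone h2).trans (hφ _ (abs_nonneg _))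
  rcases le_or_gt X x with hx | hx
  · have := h3 hx
    rw [abs_of_nonneg this, abs_of_nonneg (hX.trans hx)] at h5 h6
    rw [abs_le]
    constructor <;> linarith
  rcases le_or_gt x (-X) with hx' | hx'
  · have := h4 hx'
    rw [abs_of_nonpos this, abs_of_nonpos (by linarith : x ≤ 0), hodd, hodd] at h5 h6
    rw [abs_le]
    constructor <;> linarith
  · have h7 : |x| ≤ X := abs_le.2 ⟨by linarith, hx.le⟩
    have h8 : φ |x| ≤ φ X := φ.monotone h7
    have h9 := abs_sub (φ x') (φ x)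
    rw [habs, habs] at h9
    linarith

end Pool.Agent.NH50.SPH.DispAux

namespace Pool.Agent.NH50.SPH

open DispAux

theorem disp (h : St_slow) : St_disp := by
  intro K hper hplus hminus
  -- bounds for the displacement on strips
  have hb : ∀ n : ℕ, ∃ D : ℝ, 0 ≤ D ∧ ∀ z : ℂ, |z.re| ≤ n → ‖K z - z‖ ≤ D ∧
      ‖K.symm z - z‖ ≤ D := by
    intro n
    have hper' : ∀ ζ : ℂ, K.symm (ζ + 2 * Real.pi * Complex.I) =
        K.symm ζ + 2 * Real.pi * Complex.I := by
      intro ζ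
      apply K.injective
      rw [hper, K.apply_symm_apply, K.apply_symm_apply]
    obtain ⟨D₁, h1, h2⟩ := strip_bound (fun z => ‖K z - z‖) (by fun_prop)
      (fun ζ => by simp only [hper]; congr 1; ring) n
    obtain ⟨D₂, h3, h4⟩ := strip_bound (fun z => ‖K.symm z - z‖) (by fun_prop)
      (fun ζ => by simp only [hper']; congr 1; ring) n
    exact ⟨max D₁ D₂, h1.trans (le_max_left _ _), fun z hz =>
      ⟨(h2 z hz).trans (le_max_left _ _), (h4 z hz).trans (le_max_right _ _)⟩⟩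
  choose Dn hDn0 hDn using hb
  set D : ℝ → ℝ := fun r => ∑ i ∈ Finset.range (⌈r⌉₊ + 1), Dn i with hD
  have hD0 : ∀ r, 0 ≤ D r := fun r => Finset.sum_nonneg fun i _ => hDn0 i
  have hDm : ∀ r s : ℝ, 0 ≤ r → r ≤ s → D r ≤ D s := by
    intro r s _ hrs
    refine Finset.sum_le_sum_of_subset_of_nonneg ?_ fun i _ _ => hDn0 i
    intro i hi
    rw [Finset.mem_range] at hi ⊢
    have := Nat.ceil_mono hrs
    omega
  have hDb : ∀ z : ℂ, ‖K z - z‖ ≤ D |z.re| ∧ ‖K.symm z - z‖ ≤ D |z.re| := by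
    intro z
    obtain ⟨h1, h2⟩ := hDn ⌈|z.re|⌉₊ z (Nat.le_ceil _)
    have h3 : Dn ⌈|z.re|⌉₊ ≤ D |z.re| :=
      Finset.single_le_sum (f := Dn) (fun i _ => hDn0 i) (Finset.mem_range.2 (Nat.lt_succ_self _))
    exact ⟨h1.trans h3, h2.trans h3⟩
  obtain ⟨φ, hodd, hφ⟩ := h (fun r => r + D r) fun r s hr hrs => add_le_add hrs (hDm r s hr hrs)
  have hz : φ 0 = 0 := by have := hodd 0; rw [neg_zero] at this; linarith
  obtain ⟨X₁, hX₁⟩ := hplus 0
  obtain ⟨X₂, hX₂⟩ := hminus 0
  set X := max X₁ (max (-X₂) 0) with hX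
  have hX0 : 0 ≤ X := (le_max_right _ _).trans (le_max_right _ _)
  have hXa : X₁ ≤ X := le_max_left _ _
  have hXb : -X₂ ≤ X := (le_max_left _ _).trans (le_max_right _ _)
  set ψ : ℝ ≃ₜ ℝ := φ.toHomeomorph.trans ssq with hψ
  refine ⟨prd φ.toHomeomorph ψ, 2 * φ X + 5, ?_⟩
  intro p
  obtain ⟨z, rfl⟩ := (prd φ.toHomeomorph ψ).surjective p
  rw [Homeomorph.symm_apply_apply]
  have hx1 : |(K z).re| ≤ |z.re| + D |z.re| := by
    have h1 := (Complex.abs_re_le_norm (K z - z)).trans (hDb z).1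
    rw [Complex.sub_re] at h1
    have := abs_sub_abs_le_abs_sub (K z).re z.re
    linarith
  have hx2 : |z.re| ≤ |(K z).re| + D |(K z).re| := by
    have h1 := (Complex.abs_re_le_norm (K.symm (K z) - K z)).trans (hDb (K z)).2
    rw [K.symm_apply_apply, Complex.sub_re] at h1
    have := abs_sub_abs_le_abs_sub z.re (K z).re
    linarith
  have hre := re_key φ hodd D hφ X z.re (K z).re hX0 hx1 hx2
    (fun h => hX₁ z (hXa.trans h)) (fun h => hX₂ z (by linarith))
  have him := im_key φ hodd D hD0 hDm hφ |z.re| z.im (K z).im (abs_nonneg _)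
    (by
      have h1 := (Complex.abs_im_le_norm (K z - z)).trans (hDb z).1
      rwa [Complex.sub_im] at h1)
  have hn : φ |z.re| ≤ ‖prd φ.toHomeomorph ψ z‖ := by
    have h1 := Complex.abs_re_le_norm (prd φ.toHomeomorph ψ z)
    rw [prd_re] at h1
    have h2 : |φ.toHomeomorph z.re| = φ |z.re| := by
      show |φ z.re| = φ |z.re|
      rcases le_total 0 z.re with h | h
      · have : 0 ≤ φ z.re := by rw [← hz]; exact φ.monotone h
        rw [abs_of_nonneg this, abs_of_nonneg h]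
      · have : φ z.re ≤ 0 := by rw [← hz]; exact φ.monotone h
        rw [abs_of_nonpos this, abs_of_nonpos h, hodd]
    rwa [h2] at h1
  have h1 : ‖prd φ.toHomeomorph ψ (K z) - prd φ.toHomeomorph ψ z‖ ≤
      |φ (K z).re - φ z.re| + |ssq (φ (K z).im) - ssq (φ z.im)| := by
    refine (Complex.norm_le_abs_re_add_abs_im _).trans (le_of_eq ?_)
    rw [Complex.sub_re, Complex.sub_im, prd_re, prd_re, prd_im, prd_im]
    rfl
  set N := ‖prd φ.toHomeomorph ψ z‖ with hN
  have hN0 : 0 ≤ N := norm_nonneg _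
  have h2 : √(φ |z.re| + 1) ≤ √N + 1 := by
    rw [Real.sqrt_le_left (by positivity)]
    nlinarith [Real.sqrt_nonneg N, Real.sq_sqrt hN0]
  have hφX : 0 ≤ φ X := by rw [← hz]; exact φ.monotone hX0
  have hs := Real.sqrt_nonneg N
  nlinarith [mul_nonneg hφX hs]

end Pool.Agent.NH50.SPH
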