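import Pool.Agent.NH50.SPH.Calc

/-!
# Project SPH: the conjugacy lemma

Two homeomorphisms of a compact space which agree on a closed trap `D` and whose points, except
one fixed point outside `D`, all enter `D`, are conjugate. Application: `St_dyn`.
-/

set_option autoImplicit false

open Set Filter Topology

noncomputable section

namespace Pool.Agent.NH50.SPH

namespace Dyn

section abs

variable {X : Type} [TopologicalSpace X]

/-- `D` is a trap for `T`, and `p` is the only point that does not enter it. -/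
structure Att (T : X ≃ₜ X) (D : Set X) (p : X) : Prop where
  fix : T p = p
  out : p ∉ D
  into : ∀ z ∈ D, T z ∈ interior D
  abs : ∀ z, z ≠ p → ∃ n : ℕ, (T ^ n) z ∈ D

theorem pow_succ_ap (T : X ≃ₜ X) (n : ℕ) (z : X) : (T ^ (n + 1)) z = T ((T ^ n) z) := by
  rw [pow_succ']; rfl

theorem pow_succ_ap' (T : X ≃ₜ X) (n : ℕ) (z : X) : (T ^ (n + 1)) z = (T ^ n) (T z) := by
  rw [pow_succ]; rfl

theorem Att.fixn {T : X ≃ₜ X} {D : Set X} {p : X} (h : Att T D p) (n : ℕ) : (T ^ n) p = p := by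
  induction n with
  | zero => rfl
  | succ n ih => rw [pow_succ_ap, ih, h.fix]

theorem Att.stay {T : X ≃ₜ X} {D : Set X} {p : X} (h : Att T D p) {z : X} {n : ℕ}
    (hn : (T ^ n) z ∈ D) {m : ℕ} (hm : n ≤ m) : (T ^ m) z ∈ D := by
  induction m, hm using Nat.le_induction with
  | base => exact hn
  | succ m _ ih =>
    rw [pow_succ_ap]
    exact interior_subset (h.into _ ih)

open Classical in
/-- The conjugating map. -/
def Th (T₁ T₂ : X ≃ₜ X) (D : Set X) (p₂ : X) (z : X) : X :=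
  if h : ∃ n : ℕ, (T₁ ^ n) z ∈ D then (T₂ ^ (Nat.find h))⁻¹ ((T₁ ^ (Nat.find h)) z) else p₂

theorem Th_of {T₁ T₂ : X ≃ₜ X} {D : Set X} {p₁ p₂ : X} (h₁ : Att T₁ D p₁)
    (hD : ∀ z ∈ D, T₁ z = T₂ z) {z : X} {n : ℕ} (hn : (T₁ ^ n) z ∈ D) :
    Th T₁ T₂ D p₂ z = (T₂ ^ n)⁻¹ ((T₁ ^ n) z) := by
  classical
  have key : ∀ k : ℕ, (T₁ ^ k) z ∈ D → ∀ m, k ≤ m →
      (T₂ ^ m)⁻¹ ((T₁ ^ m) z) = (T₂ ^ k)⁻¹ ((T₁ ^ k) z) := by
    intro k hk m hm
    induction m, hm using Nat.le_induction with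
    | base => rfl
    | succ m hm ih =>
      rw [← ih, pow_succ_ap, hD _ (h₁.stay hk hm), pow_succ', mul_inv_rev, mul_ap, inv_ap]
  have hex : ∃ n : ℕ, (T₁ ^ n) z ∈ D := ⟨n, hn⟩
  rw [Th, dif_pos hex]
  exact (key _ (Nat.find_spec hex) n (Nat.find_min' hex hn)).symm

theorem Th_fix {T₁ T₂ : X ≃ₜ X} {D : Set X} {p₁ p₂ : X} (h₁ : Att T₁ D p₁) :
    Th T₁ T₂ D p₂ p₁ = p₂ := by
  classical
  rw [Th, dif_neg]
  rintro ⟨n, hn⟩
  rw [h₁.fixn] at hn
  exact h₁.out hn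

theorem Th_Th {T₁ T₂ : X ≃ₜ X} {D : Set X} {p₁ p₂ : X} (h₁ : Att T₁ D p₁) (h₂ : Att T₂ D p₂)
    (hD : ∀ z ∈ D, T₁ z = T₂ z) (z : X) : Th T₂ T₁ D p₁ (Th T₁ T₂ D p₂ z) = z := by
  by_cases hz : z = p₁
  · subst hz
    rw [Th_fix h₁, Th_fix h₂]
  · obtain ⟨n, hn⟩ := h₁.abs z hz
    rw [Th_of h₁ hD hn, Th_of h₂ (fun w hw => (hD w hw).symm) (n := n) (by rwa [ap_inv]), ap_inv,
      inv_ap]

theorem Th_semi {T₁ T₂ : X ≃ₜ X} {D : Set X} {p₁ p₂ : X} (h₁ : Att T₁ D p₁) (h₂ : Att T₂ D p₂)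
    (hD : ∀ z ∈ D, T₁ z = T₂ z) (z : X) : Th T₁ T₂ D p₂ (T₁ z) = T₂ (Th T₁ T₂ D p₂ z) := by
  by_cases hz : z = p₁
  · subst hz
    rw [h₁.fix, Th_fix h₁, h₂.fix]
  · obtain ⟨n, hn⟩ := h₁.abs z hz
    have hn1 : (T₁ ^ (n + 1)) z ∈ D := h₁.stay hn (Nat.le_succ n)
    have hn2 : (T₁ ^ n) (T₁ z) ∈ D := by rwa [← pow_succ_ap']
    rw [Th_of h₁ hD hn1, Th_of h₁ hD hn2, ← pow_succ_ap', pow_succ (T₂) n, mul_inv_rev, mul_ap,
      ap_inv]

theorem Th_cont [CompactSpace X] [T2Space X] {T₁ T₂ : X ≃ₜ X} {D : Set X} {p₁ p₂ : X}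
    (h₁ : Att T₁ D p₁) (h₂ : Att T₂ D p₂) (hc : IsClosed D)
    (hD : ∀ z ∈ D, T₁ z = T₂ z) : Continuous (Th T₁ T₂ D p₂) := by
  rw [continuous_iff_continuousAt]
  intro z
  by_cases hz : z = p₁
  · subst hz
    rw [ContinuousAt, Th_fix h₁, tendsto_def]
    intro s hs
    obtain ⟨U, hU, hUo, hpU⟩ := mem_nhds_iff.1 hs
    have hK : IsCompact Uᶜ := hUo.isClosed_compl.isCompact
    have hcov : ∃ N : ℕ, ∀ q ∈ Uᶜ, (T₂ ^ N) q ∈ D := by
      have h3 := hK.elim_directed_cover (fun n : ℕ => (T₂ ^ n) ⁻¹' interior D)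
        (fun n => isOpen_interior.preimage (T₂ ^ n).continuous) ?_ ?_
      · obtain ⟨N, hN⟩ := h3
        exact ⟨N, fun q hq => interior_subset (hN hq)⟩
      · intro q hq
        have hqp : q ≠ p₂ := fun h => hq (h ▸ hpU)
        obtain ⟨n, hn⟩ := h₂.abs q hqp
        rw [mem_iUnion]
        refine ⟨n + 1, ?_⟩
        show (T₂ ^ (n + 1)) q ∈ interior D
        rw [pow_succ_ap]
        exact h₂.into _ hn
      · refine Monotone.directed_le ?_
        refine monotone_nat_of_le_succ fun n q hq => ?_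
        show (T₂ ^ (n + 1)) q ∈ interior D
        rw [pow_succ_ap]
        exact h₂.into _ (interior_subset hq)
    obtain ⟨N, hN⟩ := hcov
    have hopen : IsOpen {w : X | (T₁ ^ N) w ∉ D} := by
      have := hc.isOpen_compl.preimage (T₁ ^ N).continuous
      exact this
    have hmem : z ∈ {w : X | (T₁ ^ N) w ∉ D} := by
      show (T₁ ^ N) z ∉ D
      rw [h₁.fixn]
      exact h₁.out
    filter_upwards [hopen.mem_nhds hmem] with w hw
    apply hU
    by_contra hwU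
    have h4 := hN _ hwU
    have h5 : Th T₂ T₁ D z (Th T₁ T₂ D p₂ w) = (T₁ ^ N)⁻¹ ((T₂ ^ N) (Th T₁ T₂ D p₂ w)) :=
      Th_of h₂ (fun w hw => (hD w hw).symm) h4
    rw [Th_Th h₁ h₂ hD] at h5
    apply hw
    rw [h5, ap_inv]
    exact h4
  · obtain ⟨n, hn⟩ := h₁.abs z hz
    have h3 : (T₁ ^ (n + 1)) z ∈ interior D := by
      rw [pow_succ_ap]
      exact h₁.into _ hn
    have h4 : ContinuousAt (fun w => (T₂ ^ (n + 1))⁻¹ ((T₁ ^ (n + 1)) w)) z :=
      ((T₂ ^ (n + 1))⁻¹.continuous.comp (T₁ ^ (n + 1)).continuous).continuousAt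
    refine h4.congr ?_
    have h5 : ∀ᶠ w in 𝓝 z, (T₁ ^ (n + 1)) w ∈ interior D :=
      ((T₁ ^ (n + 1)).continuous.tendsto z).eventually (isOpen_interior.mem_nhds h3)
    filter_upwards [h5] with w hw
    exact (Th_of h₁ hD (interior_subset hw)).symm

theorem conj_of_att [CompactSpace X] [T2Space X] {T₁ T₂ : X ≃ₜ X} {D : Set X} {p₁ p₂ : X}
    (h₁ : Att T₁ D p₁) (h₂ : Att T₂ D p₂) (hc : IsClosed D)
    (hD : ∀ z ∈ D, T₁ z = T₂ z) : ∃ K : X ≃ₜ X, T₁ = K * T₂ * K⁻¹ := by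
  have hD' : ∀ z ∈ D, T₂ z = T₁ z := fun w hw => (hD w hw).symm
  let Θ : X ≃ₜ X :=
    { toFun := Th T₁ T₂ D p₂
      invFun := Th T₂ T₁ D p₁
      left_inv := Th_Th h₁ h₂ hD
      right_inv := Th_Th h₂ h₁ hD'
      continuous_toFun := Th_cont h₁ h₂ hc hD
      continuous_invFun := Th_cont h₂ h₁ hc hD' }
  refine ⟨Θ⁻¹, ?_⟩
  rw [inv_inv]
  ext z
  rw [mul_ap, mul_ap]
  have h3 : Θ (T₁ z) = T₂ (Θ z) := Th_semi h₁ h₂ hD z
  rw [← h3, inv_ap]

end abs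

/-- The closed disc of radius `r` in the sphere. -/
def disc (r : ℝ) : Set S := (fun z : ℂ => (z : S)) '' Metric.closedBall 0 r

theorem disc_closed (r : ℝ) : IsClosed (disc r) :=
  ((isCompact_closedBall (0 : ℂ) r).image OnePoint.continuous_coe).isClosed

theorem coe_mem_disc {r : ℝ} {z : ℂ} : (z : S) ∈ disc r ↔ ‖z‖ ≤ r := by
  constructor
  · rintro ⟨w, hw, hwz⟩
    have : w = z := OnePoint.coe_injective hwz
    subst this
    simpa using hw
  · intro h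
    exact ⟨z, by simpa using h, rfl⟩

theorem infty_notMem_disc {r : ℝ} : (OnePoint.infty : S) ∉ disc r := by
  rintro ⟨w, _, hw⟩
  exact OnePoint.coe_ne_infty w hw

theorem mem_interior_disc {r : ℝ} {z : ℂ} (h : ‖z‖ < r) : (z : S) ∈ interior (disc r) := by
  rw [mem_interior]
  refine ⟨(fun z : ℂ => (z : S)) '' Metric.ball 0 r, ?_, ?_, ?_⟩
  · exact image_mono Metric.ball_subset_closedBall
  · exact OnePoint.isOpenEmbedding_coe.isOpenMap _ Metric.isOpen_ball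
  · exact ⟨z, by simpa using h, rfl⟩

/-- Good maps have the disc as trap. -/
theorem att_of_good (C : S ≃ₜ S) (L r : ℝ) (a : ℂ) (hr : 3 ≤ r) (hL : 2 * r ≤ L)
    (ha : r + 1 ≤ ‖a‖)
    (h1 : ∀ z : ℂ, ‖z‖ ≤ r → C (z : S) = ((-(z + L)⁻¹ : ℂ) : S))
    (h2 : ∀ w : ℂ, r ≤ ‖w‖ → C⁻¹ (w : S) = ((a - w⁻¹ : ℂ) : S))
    (h3 : C⁻¹ OnePoint.infty = (a : S)) : ∃ p : S, Att C (disc r) p := by
  have hr0 : 0 < r := by linarith
  -- the fixed point
  have hroot : ∃ p q : ℂ, p * q = 1 ∧ p + q = a ∧ ‖q‖ ≤ ‖p‖ := by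
    obtain ⟨s, hs⟩ := IsAlgClosed.exists_pow_nat_eq (a ^ 2 - 4) (n := 2) (by norm_num)
    have e1 : (a + s) / 2 * ((a - s) / 2) = 1 := by
      have : (a + s) / 2 * ((a - s) / 2) = (a ^ 2 - s ^ 2) / 4 := by ring
      rw [this, hs]; ring
    rcases le_total ‖(a - s) / 2‖ ‖(a + s) / 2‖ with h | h
    · exact ⟨(a + s) / 2, (a - s) / 2, e1, by ring, h⟩
    · exact ⟨(a - s) / 2, (a + s) / 2, by rw [mul_comm]; exact e1, by ring, h⟩
  obtain ⟨p, q, hpq, hsum, hle⟩ := hroot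
  have hnn : ‖p‖ * ‖q‖ = 1 := by rw [← norm_mul, hpq, norm_one]
  have hp0 : 0 < ‖p‖ := by
    rcases (norm_nonneg p).eq_or_lt with h | h
    · rw [← h, zero_mul] at hnn; norm_num at hnn
    · exact h
  have hp1 : 1 ≤ ‖p‖ := by
    by_contra hlt
    push Not at hlt
    have : ‖p‖ * ‖q‖ ≤ ‖p‖ * ‖p‖ := by gcongr
    nlinarith
  have hq1 : ‖q‖ ≤ 1 := by
    by_contra hlt
    push Not at hlt
    nlinarith
  have hpa : ‖a‖ ≤ ‖p‖ + ‖q‖ := by rw [← hsum]; exact norm_add_le _ _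
  have hpr : r ≤ ‖p‖ := by linarith
  have hq2 : ‖q‖ ≤ 1 / 3 := by
    have h4 : 3 * ‖q‖ ≤ ‖p‖ * ‖q‖ := by
      apply mul_le_mul_of_nonneg_right _ (norm_nonneg q)
      linarith
    linarith
  have hpr' : r < ‖p‖ := by linarith
  have hpne : p ≠ 0 := norm_pos_iff.1 hp0
  have hqinv : p⁻¹ = q := inv_eq_of_mul_eq_one_right hpq
  have hCinv : C⁻¹ (p : S) = (p : S) := by
    rw [h2 p hpr, hqinv, ← hsum]
    congr 1
    ring
  refine ⟨(p : S), ?_, ?_, ?_, ?_⟩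
  · conv_lhs => rw [← hCinv]
    exact ap_inv C _
  · rw [coe_mem_disc]
    exact not_le.2 hpr'
  · rintro _ ⟨z, hz, rfl⟩
    have hz' : ‖z‖ ≤ r := by simpa using hz
    show C (z : S) ∈ _
    rw [h1 z hz']
    apply mem_interior_disc
    have h5 : r ≤ ‖z + L‖ := by
      have h6 : ‖(L : ℂ)‖ ≤ ‖z + L‖ + ‖z‖ := by
        have : (L : ℂ) = (z + L) - z := by ring
        calc ‖(L : ℂ)‖ = ‖(z + L) - z‖ := by rw [← this]
          _ ≤ _ := norm_sub_le _ _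
      rw [Complex.norm_real, Real.norm_eq_abs, abs_of_nonneg (by linarith)] at h6
      linarith
    rw [norm_neg, norm_inv]
    calc ‖z + L‖⁻¹ ≤ r⁻¹ := inv_anti₀ hr0 h5
      _ ≤ 1 := inv_le_one_of_one_le₀ (by linarith)
      _ < r := by linarith
  · intro z hzp
    by_contra hcon
    push Not at hcon
    -- the orbit is in the plane
    have hback : ∀ n, (C ^ n) z = C⁻¹ ((C ^ (n + 1)) z) := fun n => by
      rw [pow_succ_ap, inv_ap]
    have hfin : ∀ n, ∃ w : ℂ, (C ^ n) z = (w : S) := by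
      intro n
      rw [hback n]
      have hout := hcon (n + 1)
      generalize (C ^ (n + 1)) z = y at hout ⊢
      induction y using OnePoint.rec with
      | infty => exact ⟨a, h3⟩
      | coe y =>
        rw [coe_mem_disc, not_le] at hout
        exact ⟨_, h2 y hout.le⟩
    choose w hw using hfin
    have hwr : ∀ n, r < ‖w n‖ := fun n => by
      have := hcon n
      rwa [hw n, coe_mem_disc, not_le] at this
    have hrec : ∀ n, w n = a - (w (n + 1))⁻¹ := fun n => by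
      have := hback n
      rw [hw n, hw (n + 1), h2 _ (hwr (n + 1)).le] at this
      exact OnePoint.coe_injective this
    have hbd : ∀ n, ‖w n - p‖ ≤ ‖a‖ + 1 + ‖p‖ := fun n => by
      have h5 : ‖w n‖ ≤ ‖a‖ + 1 := by
        rw [hrec n]
        refine (norm_sub_le _ _).trans ?_
        have h6 : ‖(w (n + 1))⁻¹‖ ≤ 1 := by
          rw [norm_inv]
          exact inv_le_one_of_one_le₀ (by linarith [hwr (n + 1)])
        linarith
      exact (norm_sub_le _ _).trans (by linarith)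
    have hstep : ∀ n, ‖w n - p‖ ≤ (1 / 9) * ‖w (n + 1) - p‖ := fun n => by
      have hwn0 : w (n + 1) ≠ 0 := norm_pos_iff.1 (by linarith [hwr (n + 1)])
      have h5 : w n - p = (w (n + 1) - p) * (p⁻¹ * (w (n + 1))⁻¹) := by
        have h6 : p = a - p⁻¹ := by rw [hqinv, ← hsum]; ring
        have h7 : w n - p = p⁻¹ - (w (n + 1))⁻¹ := by
          rw [hrec n]
          linear_combination -h6
        rw [h7]
        field_simp
      rw [h5, norm_mul, norm_mul, norm_inv, norm_inv, mul_comm]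
      refine mul_le_mul_of_nonneg_right ?_ (norm_nonneg _)
      have h8 : ‖p‖⁻¹ ≤ 1 / 3 := by
        rw [one_div]
        exact inv_anti₀ (by norm_num) (by linarith)
      have h9 : ‖w (n + 1)‖⁻¹ ≤ 1 / 3 := by
        rw [one_div]
        exact inv_anti₀ (by norm_num) (by linarith [hwr (n + 1)])
      calc ‖p‖⁻¹ * ‖w (n + 1)‖⁻¹ ≤ (1 / 3) * (1 / 3) := by
            gcongr
        _ = 1 / 9 := by norm_num
    have hall : ∀ n, ‖w 0 - p‖ ≤ (1 / 9) ^ n * ‖w n - p‖ := by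
      intro n
      induction n with
      | zero => simp
      | succ n ih =>
        calc ‖w 0 - p‖ ≤ (1 / 9) ^ n * ‖w n - p‖ := ih
          _ ≤ (1 / 9) ^ n * ((1 / 9) * ‖w (n + 1) - p‖) := by
            have := hstep n
            gcongr
          _ = (1 / 9) ^ (n + 1) * ‖w (n + 1) - p‖ := by ring
    have hlim : Tendsto (fun n : ℕ => ((1 : ℝ) / 9) ^ n * (‖a‖ + 1 + ‖p‖)) atTop (𝓝 0) := by
      have := (tendsto_pow_atTop_nhds_zero_of_lt_one (r := (1 : ℝ) / 9) (by norm_num)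
        (by norm_num)).mul_const (‖a‖ + 1 + ‖p‖)
      rwa [zero_mul] at this
    have hle0 : ‖w 0 - p‖ ≤ 0 := by
      refine ge_of_tendsto' hlim fun n => (hall n).trans ?_
      have := hbd n
      gcongr
    have hw0 : w 0 = p := by
      rw [← sub_eq_zero]
      exact norm_le_zero_iff.1 hle0
    apply hzp
    have := hw 0
    rw [hw0] at this
    exact this

/-- `M L` is good. -/
theorem M_coe (L r : ℝ) (hr : 3 ≤ r) (hL : 2 * r ≤ L) (z : ℂ) (hz : ‖z‖ ≤ r) :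
    M L (z : S) = ((-(z + L)⁻¹ : ℂ) : S) := by
  have h1 : z + L ≠ 0 := by
    intro h
    have h2 : (L : ℂ) = -z := by linear_combination h
    have h3 : ‖(L : ℂ)‖ = ‖z‖ := by rw [h2, norm_neg]
    rw [Complex.norm_real, Real.norm_eq_abs, abs_of_nonneg (by linarith)] at h3
    linarith
  show J (ext (tr (L : ℂ)) (z : S)) = _
  rw [ext_coe, tr_ap, J_coe _ h1]

theorem M_inv_infty (L : ℝ) : (M L)⁻¹ OnePoint.infty = ((-L : ℂ) : S) := by
  have h : M L ((-L : ℂ) : S) = OnePoint.infty := by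
    show J (ext (tr (L : ℂ)) ((-L : ℂ) : S)) = _
    rw [ext_coe, tr_ap, neg_add_cancel, J_zero]
  rw [← h, inv_ap]

theorem M_inv_coe (L : ℝ) (w : ℂ) (hw : w ≠ 0) :
    (M L)⁻¹ (w : S) = (((-L : ℂ) - w⁻¹ : ℂ) : S) := by
  have h : M L (((-L : ℂ) - w⁻¹ : ℂ) : S) = (w : S) := by
    show J (ext (tr (L : ℂ)) (((-L : ℂ) - w⁻¹ : ℂ) : S)) = _
    have h1 : (-L : ℂ) - w⁻¹ + L = -w⁻¹ := by ring
    rw [ext_coe, tr_ap, h1, J_coe _ (neg_ne_zero.2 (inv_ne_zero hw))]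
    congr 1
    rw [inv_neg, inv_inv, neg_neg]
  rw [← h, inv_ap]

end Dyn

theorem dyn : St_dyn := by
  intro C L r a hr hL ha h1 h2 h3
  obtain ⟨p, hp⟩ := Dyn.att_of_good C L r a hr hL ha h1 h2 h3
  have hLn : r + 1 ≤ ‖(-L : ℂ)‖ := by
    rw [norm_neg, Complex.norm_real, Real.norm_eq_abs, abs_of_nonneg (by linarith)]
    linarith
  obtain ⟨p', hp'⟩ := Dyn.att_of_good (M L) L r (-L : ℂ) hr hL hLn (Dyn.M_coe L r hr hL)
    (fun w hw => Dyn.M_inv_coe L w (norm_pos_iff.1 (by linarith))) (Dyn.M_inv_infty L)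
  refine Dyn.conj_of_att hp hp' (Dyn.disc_closed r) ?_
  rintro _ ⟨z, hz, rfl⟩
  have hz' : ‖z‖ ≤ r := by simpa using hz
  show C (z : S) = M L (z : S)
  rw [h1 z hz', Dyn.M_coe L r hr hL z hz']

end Pool.Agent.NH50.SPH
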