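import Pool.Agent.NH50.SPH.Calc

/-!
# Project SPH: assembly
-/

set_option autoImplicit false

open Set Filter Topology

noncomputable section

namespace Pool.Agent.NH50.SPH

/-- Property `P(n)` for a space `X`: for all nontrivial `A`, `B` in the identity component, `B` is
a product of exactly `n` conjugates of `A` by homeomorphisms of `X`. -/
def PP (X : Type) [TopologicalSpace X] (n : ℕ) : Prop :=
  ∀ A ∈ G X, ∀ B ∈ G X, A ≠ 1 → B ≠ 1 →
    ∃ H : Fin n → (X ≃ₜ X), B = (List.ofFn fun i => H i * A * (H i)⁻¹).prod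

section transfer

variable {X Y : Type} [TopologicalSpace X] [TopologicalSpace Y]

/-- Conjugation by a homeomorphism between two spaces. -/
def cj (e : X ≃ₜ Y) : (X ≃ₜ X) ≃* (Y ≃ₜ Y) where
  toFun f := (e.symm.trans f).trans e
  invFun f := (e.trans f).trans e.symm
  left_inv f := by ext x; simp
  right_inv f := by ext x; simp
  map_mul' f g := by
    ext x
    show e (f (g (e.symm x))) = e (f (e.symm (e (g (e.symm x)))))
    rw [e.symm_apply_apply]

theorem cj_G (e : X ≃ₜ Y) {f : X ≃ₜ X} (hf : f ∈ G X) : cj e f ∈ G Y := by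
  obtain ⟨h, hc, h0, h1⟩ := hf
  refine ⟨fun t => cj e (h t), ?_, ?_, ?_⟩
  · let a : C(Y, X) := ⟨e.symm, e.symm.continuous⟩
    let b : C(X, Y) := ⟨e, e.continuous⟩
    have h2 : Continuous fun F : C(X, X) => (b.comp F).comp a :=
      (ContinuousMap.continuous_precomp a).comp (ContinuousMap.continuous_postcomp b)
    exact h2.comp hc
  · show cj e (h 0) = 1
    rw [h0, map_one]
  · show cj e (h 1) = cj e f
    rw [h1]

theorem PP_transfer (e : X ≃ₜ Y) (n : ℕ) (h : PP X n) : PP Y n := by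
  intro A hA B hB hA1 hB1
  obtain ⟨H, hH⟩ := h (cj e.symm A) (cj_G e.symm hA) (cj e.symm B) (cj_G e.symm hB)
    (fun h' => hA1 (by simpa using congrArg (cj e.symm).symm h'))
    (fun h' => hB1 (by simpa using congrArg (cj e.symm).symm h'))
  refine ⟨fun i => (cj e.symm).symm (H i), ?_⟩
  apply (cj e.symm).injective
  rw [hH, map_list_prod, List.map_ofFn]
  congr 2
  funext i
  simp

end transfer

theorem PP3 (hp : St_path) (hk : St_KC) : PP S 3 := by
  intro A hA B hB hA1 hB1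
  have qA := hp A hA
  have qB := hp B hB
  have qA' : ∀ w, Q A⁻¹ w := fun w => Q_inv' (qA _)
  obtain ⟨L₁, h1⟩ := hk A A qA qA hA1 hA1
  obtain ⟨L₂, h2⟩ := hk A⁻¹ B qA' qB (inv_ne_one.2 hA1) hB1
  obtain ⟨H, K, hHK⟩ := h1 (max L₁ L₂) (le_max_left _ _)
  obtain ⟨H', K', hHK'⟩ := h2 (max L₁ L₂) (le_max_right _ _)
  have e1 : M (max L₁ L₂) = K⁻¹ * (A * (H * A * H⁻¹)) * K := by rw [hHK]; group
  have e2 : B = K' * M (max L₁ L₂) * K'⁻¹ * (H' * A * H'⁻¹) := by
    rw [← hHK']; group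
  refine ⟨![K' * K⁻¹, K' * K⁻¹ * H, H'], ?_⟩
  rw [e2, e1]
  simp [List.ofFn_succ]
  group

theorem not_PP (hl : St_low) : ¬ PP S 1 ∧ ¬ PP S 2 := by
  obtain ⟨A, hA, B, hB, hA1, hB1, h1, h2⟩ := hl
  constructor
  · intro h
    obtain ⟨H, hH⟩ := h A hA B hB hA1 hB1
    refine h1 (H 0) ?_
    simpa [List.ofFn_succ] using hH
  · intro h
    obtain ⟨H, hH⟩ := h A hA B hB hA1 hB1
    refine h2 (H 0) (H 1) ?_
    simpa [List.ofFn_succ] using hH

/-- The unit sphere of Euclidean three-space. -/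
abbrev S2 := Metric.sphere (0 : EuclideanSpace ℝ (Fin 3)) 1

def eS : S ≃ₜ S2 :=
  onePointEquivSphereOfFinrankEq (ι := Fin 3) (V := ℂ) (by simp [Complex.finrank_real_complex])

theorem final (hp : St_path) (hk : St_KC) (hl : St_low) :
    IsLeast {n : ℕ | 1 ≤ n ∧ PP S2 n} 3 := by
  refine ⟨⟨by norm_num, PP_transfer eS 3 (PP3 hp hk)⟩, ?_⟩
  rintro n ⟨hn, hP⟩
  by_contra h
  have h3 := PP_transfer eS.symm n hP
  have h4 : n = 1 ∨ n = 2 := by omega
  rcases h4 with rfl | rfl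
  · exact (not_PP hl).1 h3
  · exact (not_PP hl).2 h3

end Pool.Agent.NH50.SPH
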