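import Pool.Agent.NH50.SPH.Calc

/-!
# Project SPH (MP_c6d336_gt): the main construction
-/

set_option autoImplicit false

open Set Filter Topology

noncomputable section

namespace Pool.Agent.NH50.SPH

namespace KC

/-- A homeomorphism of the plane which is the identity far away. -/
theorem GId_ext {Φ : ℂ ≃ₜ ℂ} {R : ℝ} (h : ∀ z : ℂ, R ≤ ‖z‖ → Φ z = z) : GId (ext Φ) := by
  refine GId_of_eventually OnePoint.infty (ev_infty_of R (ext_infty Φ) fun z hz => ?_)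
  rw [ext_coe, h z hz]

theorem Q_tr (hp : St_push) (b w : ℂ) : Q (ext (tr b)) (w : S) := by
  obtain ⟨κ, h1, -, R, hR⟩ := hp ∅ w (w + b) (by simp) (by simp)
  refine Q_congr (Q_of_GId (GId_ext hR) (w : S)) (ev_coe.2 ?_)
  filter_upwards [h1] with z hz
  rw [ext_coe, ext_coe, hz, tr_ap]
  congr 1
  ring

theorem Q_der (hs : St_strict) (hp : St_push) (hm : St_mul) (f : S ≃ₜ S) (g : ℂ → ℂ)
    (hfg : ∀ᶠ z : ℂ in 𝓝 (0 : ℂ), f (z : S) = ((g z : ℂ) : S))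
    (hg : HasStrictFDerivAt g (ContinuousLinearMap.id ℝ ℂ) 0) : Q f ((0 : ℂ) : S) := by
  obtain ⟨Φ, h1, R, hR⟩ := hs g hg
  have hP : GId ((ext (tr (g 0)))⁻¹ * ext Φ) := by
    refine GId_of_eventually OnePoint.infty (ev_infty_of R rfl fun z hz => ?_)
    rw [mul_ap, ext_coe, hR z hz, ext_inv_coe, tr_symm_ap, add_sub_cancel_right]
  have hQ : Q (ext (tr (g 0)) * ((ext (tr (g 0)))⁻¹ * ext Φ)) ((0 : ℂ) : S) := by
    refine hm _ _ _ (Q_of_GId hP _) ?_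
    rw [mul_ap, ext_coe, ext_inv_coe]
    exact Q_tr hp _ _
  rw [mul_inv_cancel_left] at hQ
  refine Q_congr hQ (ev_coe.2 ?_)
  filter_upwards [h1, hfg] with z a b
  rw [ext_coe, a, b]

/-- Normal forms at `0`, both cases together. -/
theorem nf (h1 : St_NF1) (h2 : St_NF2) (f : S ≃ₜ S) (hf : ∀ w, Q f w) (hf1 : f ≠ 1)
    (g₁ g₂ : S ≃ₜ S) (e1 : g₁ ((0 : ℂ) : S) = ((1 : ℂ) : S))
    (e2 : g₂ ((0 : ℂ) : S) = ((-1 : ℂ) : S)) (q1 : Q g₁ ((0 : ℂ) : S))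
    (q2 : Q g₂ ((0 : ℂ) : S)) :
    ∃ H : S ≃ₜ S, (∀ᶠ z in 𝓝 ((0 : ℂ) : S), (H * f * H⁻¹) z = g₁ z) ∧
      ((∀ᶠ z in 𝓝 ((0 : ℂ) : S), (H * f⁻¹ * H⁻¹) z = g₁ z) ∨
        (∀ᶠ z in 𝓝 ((0 : ℂ) : S), (H * f⁻¹ * H⁻¹) z = g₂ z)) := by
  by_cases hff : f * f = 1
  · have hinv : f⁻¹ = f := inv_eq_of_mul_eq_one_left hff
    obtain ⟨x, hx⟩ : ∃ x, f x ≠ x := by
      by_contra hcon
      push Not at hcon
      exact hf1 (Homeomorph.ext hcon)
    obtain ⟨H, hH⟩ := h1 f hf x hx g₁ e1 q1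
    exact ⟨H, hH, Or.inl (by rw [hinv]; exact hH)⟩
  · obtain ⟨x, hx⟩ : ∃ x, f (f x) ≠ x := by
      by_contra hcon
      push Not at hcon
      exact hff (Homeomorph.ext hcon)
    have hx1 : f x ≠ x := by
      intro hcon
      rw [hcon, hcon] at hx
      exact hx rfl
    obtain ⟨H, hH1, hH2⟩ := h2 f hf x hx1 hx g₁ g₂ e1 e2 q1 q2
    exact ⟨H, hH1, Or.inr hH2⟩

/-- Germs at `0` in terms of a radius. -/
theorem rad_zero {p : ℂ → Prop} (h : ∀ᶠ z in 𝓝 (0 : ℂ), p z) :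
    ∃ δ : ℝ, 0 < δ ∧ δ ≤ 1 / 2 ∧ ∀ z : ℂ, ‖z‖ ≤ δ → p z := by
  obtain ⟨ε, he, h'⟩ := Metric.eventually_nhds_iff.1 h
  refine ⟨min (ε / 2) (1 / 2), by positivity, min_le_right _ _, fun z hz => h' ?_⟩
  rw [dist_zero_right]
  have := hz.trans (min_le_left _ _)
  linarith

/-- Germs at `∞` in terms of a radius. -/
theorem rad_infty {p : S → Prop} (h : ∀ᶠ z in 𝓝 (OnePoint.infty : S), p z) :
    ∃ ρ : ℝ, 1 ≤ ρ ∧ p OnePoint.infty ∧ ∀ z : ℂ, ρ ≤ ‖z‖ → p (z : S) := by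
  rw [OnePoint.nhds_infty_eq, eventually_sup, eventually_map, eventually_pure,
    coclosedCompact_eq_cocompact, ← Metric.cobounded_eq_cocompact] at h
  obtain ⟨h1, h2⟩ := h
  obtain ⟨R, -, hR⟩ := (hasBasis_cobounded_norm (E := ℂ)).eventually_iff.1 h1
  exact ⟨max R 1, le_max_right _ _, h2, fun z hz => hR ((le_max_left _ _).trans hz)⟩

theorem conj_inv {G : Type} [Group G] (H A : G) : (H * A * H⁻¹)⁻¹ = H * A⁻¹ * H⁻¹ := by
  group

/-- Normal form of `A`. -/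
theorem nfA (hp : St_push) (h1 : St_NF1) (h2 : St_NF2) (A : S ≃ₜ S) (hA : ∀ w, Q A w)
    (hA1 : A ≠ 1) :
    ∃ (HA : S ≃ₜ S) (δ s : ℝ), 0 < δ ∧ δ ≤ 1 / 2 ∧ |s| = 1 ∧
      (∀ z : ℂ, ‖z‖ ≤ δ → (HA * A * HA⁻¹) (z : S) = ((z + 1 : ℂ) : S)) ∧
      (∀ z : ℂ, ‖z‖ ≤ δ → (HA * A * HA⁻¹)⁻¹ (z : S) = ((z + s : ℂ) : S)) := by
  obtain ⟨H, hH1, hH2⟩ := nf h1 h2 A hA hA1 (ext (tr 1)) (ext (tr (-1)))
    (by rw [ext_coe, tr_ap, zero_add]) (by rw [ext_coe, tr_ap, zero_add])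
    (Q_tr hp _ _) (Q_tr hp _ _)
  rw [ev_coe] at hH1
  rcases hH2 with hH2 | hH2
  · rw [ev_coe] at hH2
    obtain ⟨δ, hd0, hd1, hd⟩ := rad_zero (hH1.and hH2)
    refine ⟨H, δ, 1, hd0, hd1, abs_one, fun z hz => ?_, fun z hz => ?_⟩
    · rw [(hd z hz).1, ext_coe, tr_ap]
    · rw [conj_inv, (hd z hz).2, ext_coe, tr_ap]
      simp
  · rw [ev_coe] at hH2
    obtain ⟨δ, hd0, hd1, hd⟩ := rad_zero (hH1.and hH2)
    refine ⟨H, δ, -1, hd0, hd1, by simp, fun z hz => ?_, fun z hz => ?_⟩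
    · rw [(hd z hz).1, ext_coe, tr_ap]
    · rw [conj_inv, (hd z hz).2, ext_coe, tr_ap]
      simp

/-- The Moebius map `1 - 1 / z`. -/
def m : S ≃ₜ S := ext (tr 1) * J

theorem m_zero : m ((0 : ℂ) : S) = OnePoint.infty := by
  rw [m, mul_ap, J_zero, ext_infty]

theorem m_coe (z : ℂ) (hz : z ≠ 0) : m (z : S) = ((1 - z⁻¹ : ℂ) : S) := by
  rw [m, mul_ap, J_coe z hz, ext_coe, tr_ap]
  congr 1
  ring

theorem m_inv_coe (z : ℂ) (hz : z ≠ 1) : m⁻¹ (z : S) = ((-(z - 1)⁻¹ : ℂ) : S) := by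
  have : m⁻¹ (z : S) = J ((ext (tr 1))⁻¹ (z : S)) := rfl
  rw [this, ext_inv_coe, tr_symm_ap, J_coe _ (sub_ne_zero.2 hz)]

theorem m_inv_infty : m⁻¹ OnePoint.infty = ((0 : ℂ) : S) := by
  have : m⁻¹ OnePoint.infty = J ((ext (tr 1))⁻¹ OnePoint.infty) := rfl
  rw [this, ext_inv_infty, J_infty]

/-- The model germ for `B`. -/
def g1 : S ≃ₜ S := m⁻¹ * J * m

theorem g1_near (z : ℂ) (hz : ‖z‖ < 1 / 2) :
    g1 (z : S) = (((z - 1) * (2 * z - 1)⁻¹ : ℂ) : S) := by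
  have hz1 : z ≠ 1 := by
    rintro rfl
    norm_num at hz
  have hz2 : 2 * z - 1 ≠ 0 := by
    intro h
    have : z = 1 / 2 := by linear_combination h / 2
    rw [this] at hz
    norm_num at hz
  by_cases hz0 : z = 0
  · subst hz0
    rw [g1, mul_ap, mul_ap, m_zero, J_infty, m_inv_coe _ (by norm_num)]
    congr 1
    norm_num
  · have h3 : (1 - z⁻¹ : ℂ) ≠ 0 := by
      intro h
      apply hz1
      field_simp at h
      linear_combination h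
    have hz1' : z - 1 ≠ 0 := sub_ne_zero.2 hz1
    have h4 : (-(1 - z⁻¹)⁻¹ : ℂ) = - z * (z - 1)⁻¹ := by
      field_simp
    have h5 : (-z * (z - 1)⁻¹ : ℂ) ≠ 1 := by
      intro h
      apply hz2
      field_simp at h
      linear_combination -h
    rw [g1, mul_ap, mul_ap, m_coe z hz0, J_coe _ h3, h4, m_inv_coe _ h5]
    congr 1
    have h6 : (-z * (z - 1)⁻¹ - 1 : ℂ) = -(2 * z - 1) * (z - 1)⁻¹ := by
      field_simp
      ring
    rw [h6]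
    field_simp

theorem g1_zero : g1 ((0 : ℂ) : S) = ((1 : ℂ) : S) := by
  rw [g1_near 0 (by norm_num)]
  congr 1
  norm_num

theorem Q_g1 (hs : St_strict) (hp : St_push) (hm : St_mul) : Q g1 ((0 : ℂ) : S) := by
  refine Q_der hs hp hm g1 (fun z => (z - 1) * (2 * z - 1)⁻¹) ?_ ?_
  · have : ∀ᶠ z in 𝓝 (0 : ℂ), ‖z‖ < 1 / 2 := by
      have := Metric.ball_mem_nhds (0 : ℂ) (show (0 : ℝ) < 1 / 2 by norm_num)
      filter_upwards [this] with z hz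
      simpa using hz
    filter_upwards [this] with z hz using g1_near z hz
  · have h1 : HasDerivAt (fun z : ℂ => (z - 1) * (2 * z - 1)⁻¹) 1 0 := by
      have ha : HasDerivAt (fun z : ℂ => z - 1) 1 0 := (hasDerivAt_id' (0 : ℂ)).sub_const 1
      have hb : HasDerivAt (fun z : ℂ => 2 * z - 1) (2 * 1) 0 :=
        ((hasDerivAt_id' (0 : ℂ)).const_mul 2).sub_const 1
      have hc := hb.fun_inv (by norm_num)
      have hd := ha.fun_mul hc
      have he : (1 * (2 * 0 - 1 : ℂ)⁻¹ + (0 - 1) * (-(2 * 1) / (2 * 0 - 1) ^ 2)) = 1 := by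
        norm_num
      rw [he] at hd
      exact hd
    have h0 : ContDiffAt ℂ 1 (fun z : ℂ => (z - 1) * (2 * z - 1)⁻¹) 0 := by
      refine ContDiffAt.mul (by fun_prop) (ContDiffAt.inv (by fun_prop) (by norm_num))
    have h1' : HasStrictDerivAt (fun z : ℂ => (z - 1) * (2 * z - 1)⁻¹) 1 0 :=
      h0.hasStrictDerivAt' h1 one_ne_zero
    have h2 := h1'.hasStrictFDerivAt.restrictScalars ℝ
    have h3 : ContinuousLinearMap.restrictScalars ℝ (ContinuousLinearMap.toSpanSingleton ℂ (1 : ℂ))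
        = ContinuousLinearMap.id ℝ ℂ := by
      ext x
      simp
    rw [h3] at h2
    exact h2

/-- Normal form of `B`. -/
theorem nfB (hs : St_strict) (hp : St_push) (hm : St_mul) (h1 : St_NF1) (h2 : St_NF2)
    (B : S ≃ₜ S) (hB : ∀ w, Q B w) (hB1 : B ≠ 1) :
    ∃ (X : S ≃ₜ S) (ρ : ℝ) (c : ℂ), 1 ≤ ρ ∧ ‖c‖ ≤ 2 ∧
      (∀ w : ℂ, ρ ≤ ‖w‖ → (X * B * X⁻¹) (w : S) = ((-w⁻¹ : ℂ) : S)) ∧
      (∀ w : ℂ, ρ ≤ ‖w‖ → (X * B * X⁻¹)⁻¹ (w : S) = ((c - w⁻¹ : ℂ) : S)) ∧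
      (X * B * X⁻¹)⁻¹ OnePoint.infty = (c : S) := by
  obtain ⟨H, hH1, hH2⟩ := nf h1 h2 B hB hB1 g1 (ext (tr (-1))) g1_zero
    (by rw [ext_coe, tr_ap, zero_add]) (Q_g1 hs hp hm) (Q_tr hp _ _)
  have key : ∀ (f g : S ≃ₜ S), (∀ᶠ z in 𝓝 ((0 : ℂ) : S), (H * f * H⁻¹) z = g z) →
      ∀ᶠ w in 𝓝 (OnePoint.infty : S), ((m * H) * f * (m * H)⁻¹) w = m (g (m⁻¹ w)) := by
    intro f g hfg
    have h3 : ∀ᶠ w in 𝓝 (OnePoint.infty : S), (H * f * H⁻¹) (m⁻¹ w) = g (m⁻¹ w) := by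
      refine ev_comp (p := fun z => (H * f * H⁻¹) z = g z) m⁻¹ ?_
      rw [m_inv_infty]
      exact hfg
    filter_upwards [h3] with w hw
    rw [← hw]
    rfl
  have hJ : ∀ᶠ w in 𝓝 (OnePoint.infty : S), m (g1 (m⁻¹ w)) = J w := by
    refine Eventually.of_forall fun w => ?_
    rw [g1, mul_ap, mul_ap, ap_inv, ap_inv]
  have k1 := key B g1 hH1
  rcases hH2 with hH2 | hH2
  · have k2 := key B⁻¹ g1 hH2
    obtain ⟨ρ, hr1, hr2, hr3⟩ := rad_infty ((k1.and k2).and hJ)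
    refine ⟨m * H, ρ, 0, hr1, by simp, fun w hw => ?_, fun w hw => ?_, ?_⟩
    · have hw0 : w ≠ 0 := by
        rintro rfl
        rw [norm_zero] at hw
        linarith
      rw [(hr3 w hw).1.1, (hr3 w hw).2, J_coe w hw0]
    · have hw0 : w ≠ 0 := by
        rintro rfl
        rw [norm_zero] at hw
        linarith
      rw [conj_inv, (hr3 w hw).1.2, (hr3 w hw).2, J_coe w hw0, zero_sub]
    · rw [conj_inv, hr2.1.2, hr2.2, J_infty]
  · have k2 := key B⁻¹ _ hH2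
    obtain ⟨ρ, hr1, hr2, hr3⟩ := rad_infty ((k1.and k2).and hJ)
    refine ⟨m * H, ρ + 1, 2, by linarith, by norm_num, fun w hw => ?_, fun w hw => ?_, ?_⟩
    · have hw0 : w ≠ 0 := by
        rintro rfl
        rw [norm_zero] at hw
        linarith
      have hw' : ρ ≤ ‖w‖ := by linarith
      rw [(hr3 w hw').1.1, (hr3 w hw').2, J_coe w hw0]
    · have hw0 : w ≠ 0 := by
        rintro rfl
        rw [norm_zero] at hw
        linarith
      have hw1 : w ≠ 1 := by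
        rintro rfl
        rw [norm_one] at hw
        linarith
      have hw1' : w - 1 ≠ 0 := sub_ne_zero.2 hw1
      have hw' : ρ ≤ ‖w‖ := by linarith
      have h6 : (-(w - 1)⁻¹ + -1 : ℂ) = -w * (w - 1)⁻¹ := by
        field_simp
        ring
      rw [conj_inv, (hr3 w hw').1.2, m_inv_coe w hw1, ext_coe, tr_ap, h6,
        m_coe _ (mul_ne_zero (neg_ne_zero.2 hw0) (inv_ne_zero hw1'))]
      congr 1
      field_simp
      ring
    · rw [conj_inv, hr2.1.2, m_inv_infty, ext_coe, tr_ap, m_coe _ (by norm_num)]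
      congr 1
      norm_num

end KC

open KC in
theorem kc (hs : St_strict) (hp : St_push) (hm : St_mul) (h1 : St_NF1) (h2 : St_NF2)
    (hd : St_dyn) : St_KC := by
  intro A B hA hB hA1 hB1
  obtain ⟨HA, δ, s, hδ0, hδ1, hs1, hF, hF'⟩ := nfA hp h1 h2 A hA hA1
  obtain ⟨X, ρ, c, hρ, hc, hX1, hX2, hX3⟩ := nfB hs hp hm h1 h2 B hB hB1
  refine ⟨max 6 (max (ρ / δ) (max (3 / δ) (2 * ρ))), fun L hL => ?_⟩
  have hL6 : 6 ≤ L := (le_max_left _ _).trans hL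
  have hL' := (le_max_right _ _).trans hL
  have hLρ : ρ ≤ δ * L := by
    have := (le_max_left _ _).trans hL'
    rwa [div_le_iff₀' hδ0] at this
  have hL'' := (le_max_right _ _).trans hL'
  have hL3 : 3 ≤ δ * L := by
    have := (le_max_left _ _).trans hL''
    rwa [div_le_iff₀' hδ0] at this
  have hL2 : 2 * ρ ≤ L := (le_max_right _ _).trans hL''
  have hL0 : 0 < L := by linarith
  have hLc : (L : ℂ) ≠ 0 := by exact_mod_cast hL0.ne'
  have hr : δ * L ≤ L / 2 := by nlinarith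
  set E : S ≃ₜ S := ext (sc (L : ℂ) hLc) with hE
  have hEz : ∀ z : ℂ, E⁻¹ (z : S) = (((L : ℂ)⁻¹ * z : ℂ) : S) := fun z => rfl
  have hnz : ∀ z : ℂ, ‖z‖ ≤ δ * L → ‖(L : ℂ)⁻¹ * z‖ ≤ δ := by
    intro z hz
    rw [norm_mul, norm_inv, Complex.norm_real, Real.norm_of_nonneg hL0.le, inv_mul_le_iff₀ hL0]
    linarith [mul_comm δ L]
  have hF1 : ∀ z : ℂ, ‖z‖ ≤ δ * L → ((E * HA) * A * (E * HA)⁻¹) (z : S) = ((z + L : ℂ) : S) := by
    intro z hz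
    have e : ((E * HA) * A * (E * HA)⁻¹) (z : S) = E ((HA * A * HA⁻¹) (E⁻¹ (z : S))) := rfl
    rw [e, hEz, hF _ (hnz z hz), hE, ext_coe, sc_ap]
    congr 1
    field_simp
  have hF2 : ∀ z : ℂ, ‖z‖ ≤ δ * L →
      ((E * HA) * A * (E * HA)⁻¹)⁻¹ (z : S) = ((z + s * L : ℂ) : S) := by
    intro z hz
    have e : ((E * HA) * A * (E * HA)⁻¹)⁻¹ (z : S) = E ((HA * A * HA⁻¹)⁻¹ (E⁻¹ (z : S))) := by
      rw [KC.conj_inv, KC.conj_inv]
      rfl
    rw [e, hEz, hF' _ (hnz z hz), hE, ext_coe, sc_ap]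
    congr 1
    field_simp
  obtain ⟨K, hK⟩ := hd ((X * B * X⁻¹) * ((E * HA) * A * (E * HA)⁻¹)) L (δ * L) (c + s * L) hL3
    (by linarith) (by
      have h3 : ‖((s : ℂ) * L)‖ ≤ ‖c + s * L‖ + ‖c‖ := by
        have := norm_sub_le (c + s * L) c
        rwa [add_sub_cancel_left] at this
      rw [norm_mul, Complex.norm_real, Complex.norm_real, Real.norm_eq_abs, hs1, one_mul,
        Real.norm_of_nonneg hL0.le] at h3
      linarith) (by
      intro z hz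
      rw [mul_ap, hF1 z hz, hX1]
      have h3 : ‖(L : ℂ)‖ ≤ ‖z + L‖ + ‖z‖ := by
        have := norm_sub_le (z + L) z
        rwa [add_sub_cancel_left] at this
      rw [Complex.norm_real, Real.norm_of_nonneg hL0.le] at h3
      linarith) (by
      intro w hw
      have hw1 : 1 ≤ ‖w‖ := by linarith
      have h3 : ‖c - w⁻¹‖ ≤ δ * L := by
        have h4 := norm_sub_le c w⁻¹
        rw [norm_inv] at h4
        have h5 : ‖w‖⁻¹ ≤ 1 := inv_le_one_of_one_le₀ hw1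
        linarith
      rw [mul_inv_rev, mul_ap, hX2 w (hLρ.trans hw), hF2 _ h3]
      congr 1
      ring) (by
      rw [mul_inv_rev, mul_ap, hX3, hF2 _ (by linarith)])
  refine ⟨X⁻¹ * (E * HA), X⁻¹ * K, ?_⟩
  have h3 : B * (X⁻¹ * (E * HA) * A * (X⁻¹ * (E * HA))⁻¹) =
      X⁻¹ * ((X * B * X⁻¹) * ((E * HA) * A * (E * HA)⁻¹)) * X := by group
  rw [h3, hK]
  group

end Pool.Agent.NH50.SPH
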