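import Pool.Agent.NH50.SPH.Calc

/-!
# Project SPH (MP_c6d336_gt), part P7: lifting through the exponential
-/

set_option autoImplicit false

open Set Filter Topology

noncomputable section

namespace Pool.Agent.NH50.SPH

namespace Lift

theorem exists_pl (k : S ≃ₜ S) (hinf : k OnePoint.infty = OnePoint.infty) :
    ∃ f : ℂ → ℂ, Continuous f ∧ ∀ z : ℂ, k (z : S) = ((f z : ℂ) : S) := by
  have h : ∀ z : ℂ, ∃ w : ℂ, k (z : S) = (w : S) := by
    intro z
    have h1 : k (z : S) ≠ OnePoint.infty := by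
      intro h
      rw [← hinf] at h
      exact OnePoint.coe_ne_infty z (k.injective h)
    obtain ⟨w, hw⟩ := OnePoint.ne_infty_iff_exists.1 h1
    exact ⟨w, hw.symm⟩
  choose f hf using h
  refine ⟨f, ?_, hf⟩
  rw [OnePoint.isOpenEmbedding_coe.isEmbedding.continuous_iff]
  have h2 : ((fun x : ℂ => (x : S)) ∘ f) = k ∘ (fun x : ℂ => (x : S)) := by
    funext z
    exact (hf z).symm
  show Continuous ((fun x : ℂ => (x : S)) ∘ f)
  rw [h2]
  exact k.continuous.comp OnePoint.continuous_coe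

theorem const_of_exp {X : Type} [TopologicalSpace X] [PreconnectedSpace X] (d : X → ℂ)
    (hd : Continuous d) (h : ∀ x, Complex.exp (d x) = 1) (x y : X) : d x = d y := by
  choose n hn using fun x => Complex.exp_eq_one_iff.1 (h x)
  have hre : Continuous (fun x => (n x : ℝ)) := by
    have h1 : (fun x => (n x : ℝ)) = fun x => (d x).im / (2 * Real.pi) := by
      funext x
      rw [hn x]
      have h2 : ((n x : ℂ) * (2 * (Real.pi : ℂ) * Complex.I)).im = (n x : ℝ) * (2 * Real.pi) := by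
        simp
      rw [h2]
      have h3 : (2 * Real.pi) ≠ 0 := by positivity
      field_simp
    rw [h1]
    exact (Complex.continuous_im.comp hd).div_const _
  have hnc : Continuous n := Int.isClosedEmbedding_coe_real.isEmbedding.continuous_iff.2 hre
  have h4 : n x = n y := PreconnectedSpace.constant (inferInstance : PreconnectedSpace X) hnc
  rw [hn x, hn y, h4]

theorem exists_lift (f : ℂ → ℂ) (hf : Continuous f) (h0 : ∀ z, z ≠ 0 → f z ≠ 0) (h1 : f 1 = 1) :
    ∃ K : ℂ → ℂ, Continuous K ∧ K 0 = 0 ∧ ∀ ζ, Complex.exp (K ζ) = f (Complex.exp ζ) := by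
  have hU : IsSimplyConnected (univ : Set ℂ) := by
    have h2 : ContractibleSpace (univ : Set ℂ) :=
      (convex_univ (𝕜 := ℝ) (E := ℂ)).contractibleSpace univ_nonempty
    show SimplyConnectedSpace (univ : Set ℂ)
    infer_instance
  obtain ⟨K, hK, hK2⟩ := Complex.exists_continuousOn_eqOn_exp_comp hU isOpen_univ
    (g := fun ζ => f (Complex.exp ζ)) (hf.comp Complex.continuous_exp).continuousOn (by
      rintro ⟨z, -, hz⟩
      exact h0 _ (Complex.exp_ne_zero z) hz)
  have hKc : Continuous K := continuousOn_univ.1 hK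
  refine ⟨fun ζ => K ζ - K 0, hKc.sub continuous_const, by simp, fun ζ => ?_⟩
  have h2 : Complex.exp (K ζ) = f (Complex.exp ζ) := hK2 (mem_univ ζ)
  have h3 : Complex.exp (K 0) = 1 := by
    have h4 : Complex.exp (K 0) = f (Complex.exp 0) := hK2 (mem_univ 0)
    rw [h4, Complex.exp_zero, h1]
  show Complex.exp (K ζ - K 0) = _
  rw [Complex.exp_sub, h2, h3, div_one]

/-- the two lifts are inverse to each other -/
theorem lift_comp {f g K L : ℂ → ℂ} (hfg : ∀ z, f (g z) = z) (hK : Continuous K) (hL : Continuous L)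
    (hK0 : K 0 = 0) (hL0 : L 0 = 0) (hKe : ∀ ζ, Complex.exp (K ζ) = f (Complex.exp ζ))
    (hLe : ∀ ζ, Complex.exp (L ζ) = g (Complex.exp ζ)) (ζ : ℂ) : K (L ζ) = ζ := by
  have h := const_of_exp (fun ζ => K (L ζ) - ζ) ((hK.comp hL).sub continuous_id) (fun ζ => by
    rw [Complex.exp_sub, hKe, hLe, hfg]
    exact div_self (Complex.exp_ne_zero ζ)) ζ 0
  simp only [hL0, hK0, sub_zero] at h
  exact sub_eq_zero.1 h

/-- growth at the ends -/
theorem norm_end (f : ℂ → ℂ) (k : S ≃ₜ S) (hinf : k OnePoint.infty = OnePoint.infty)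
    (hf : ∀ z : ℂ, k (z : S) = ((f z : ℂ) : S)) (m : ℝ) :
    ∃ R : ℝ, 0 < R ∧ ∀ z : ℂ, R ≤ ‖z‖ → m ≤ ‖f z‖ := by
  have h1 : Tendsto f (cocompact ℂ) (cocompact ℂ) := by
    have h2 : Tendsto (fun z : ℂ => k (z : S)) (coclosedCompact ℂ) (𝓝 OnePoint.infty) := by
      have h3 := k.continuous.tendsto (OnePoint.infty : S)
      rw [hinf] at h3
      exact h3.comp OnePoint.tendsto_coe_infty
    have h4 : Tendsto (fun z : ℂ => ((f z : ℂ) : S)) (coclosedCompact ℂ) (𝓝 OnePoint.infty) :=
      h2.congr (fun z => hf z)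
    have h5 : comap (fun z : ℂ => (z : S)) (𝓝 OnePoint.infty) = coclosedCompact ℂ :=
      OnePoint.comap_coe_nhds_infty
    have h6 : Tendsto f (coclosedCompact ℂ) (coclosedCompact ℂ) := by
      rw [← h5] 
      rw [tendsto_comap_iff, h5]
      exact h4
    rwa [coclosedCompact_eq_cocompact] at h6
  rw [← Metric.cobounded_eq_cocompact] at h1
  have h7 := tendsto_norm_cobounded_atTop.comp h1
  have h8 := h7.eventually_ge_atTop m
  have h9 : ∃ R : ℝ, ∀ z : ℂ, R ≤ ‖z‖ → m ≤ ‖f z‖ := by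
    have h10 : {z : ℂ | m ≤ ‖f z‖} ∈ Bornology.cobounded ℂ := h8
    obtain ⟨R, hR⟩ := (Metric.hasBasis_cobounded_compl_closedBall (0 : ℂ)).mem_iff.1 h10
    refine ⟨R + 1, fun z hz => hR.2 ?_⟩
    simp
    linarith
  obtain ⟨R, hR⟩ := h9
  exact ⟨max R 1, by positivity, fun z hz => hR z (le_trans (le_max_left _ _) hz)⟩

end Lift

open Lift in
theorem lift : St_lift := by
  intro k h0 h1 hinf hhalf
  obtain ⟨f, hfc, hf⟩ := exists_pl k hinf
  have hsinf : k.symm OnePoint.infty = OnePoint.infty := by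
    rw [Homeomorph.symm_apply_eq, hinf]
  obtain ⟨g, hgc, hg⟩ := exists_pl k.symm hsinf
  have hfg : ∀ z, f (g z) = z := by
    intro z
    apply OnePoint.coe_injective
    rw [← hf, ← hg]
    exact k.apply_symm_apply _
  have hgf : ∀ z, g (f z) = z := by
    intro z
    apply OnePoint.coe_injective
    rw [← hg, ← hf]
    exact k.symm_apply_apply _
  have hf0 : f 0 = 0 := OnePoint.coe_injective (by rw [← hf]; exact h0)
  have hf1 : f 1 = 1 := OnePoint.coe_injective (by rw [← hf]; exact h1)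
  have hg0 : g 0 = 0 := by
    have h := hgf 0
    rwa [hf0] at h
  have hg1 : g 1 = 1 := by
    have h := hgf 1
    rwa [hf1] at h
  have hfne : ∀ z, z ≠ 0 → f z ≠ 0 := by
    intro z hz h
    apply hz
    rw [← hgf z, h, hg0]
  have hgne : ∀ z, z ≠ 0 → g z ≠ 0 := by
    intro z hz h
    apply hz
    rw [← hfg z, h, hf0]
  obtain ⟨K, hKc, hK0, hKe⟩ := exists_lift f hfc hfne hf1
  obtain ⟨L, hLc, hL0, hLe⟩ := exists_lift g hgc hgne hg1
  let KH : ℂ ≃ₜ ℂ :=
    { toFun := K
      invFun := L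
      left_inv := lift_comp hgf hLc hKc hL0 hK0 hLe hKe
      right_inv := lift_comp hfg hKc hLc hK0 hL0 hKe hLe
      continuous_toFun := hKc
      continuous_invFun := hLc }
  have hper : ∀ ζ : ℂ, K (ζ + 2 * Real.pi * Complex.I) = K ζ + 2 * Real.pi * Complex.I := by
    -- the difference is constant
    have hc : ∀ ζ ζ' : ℂ, K (ζ + 2 * Real.pi * Complex.I) - K ζ =
        K (ζ' + 2 * Real.pi * Complex.I) - K ζ' := by
      intro ζ ζ'
      refine const_of_exp (fun ζ => K (ζ + 2 * Real.pi * Complex.I) - K ζ)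
        ((hKc.comp (continuous_id.add continuous_const)).sub hKc) (fun ζ => ?_) ζ ζ'
      rw [Complex.exp_sub, hKe, hKe, Complex.exp_add, Complex.exp_two_pi_mul_I, mul_one]
      exact div_self (hfne _ (Complex.exp_ne_zero ζ))
    -- the circle of radius one half
    have hlt : ∀ z : ℂ, ‖z‖ = 1 / 2 → ‖f z - z‖ < ‖z‖ := by
      intro z hz
      obtain ⟨w, hw, hw2⟩ := hhalf z hz
      have h2 : f z = w := OnePoint.coe_injective (by rw [← hf]; exact hw)
      rw [h2, hz]
      exact hw2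
    let ζ₀ : ℝ → ℂ := fun θ => (-(Real.log 2) : ℂ) + θ * Complex.I
    have hζc : Continuous ζ₀ := by fun_prop
    have hz : ∀ θ : ℝ, ‖Complex.exp (ζ₀ θ)‖ = 1 / 2 := by
      intro θ
      rw [Complex.norm_exp]
      have h2 : (ζ₀ θ).re = -Real.log 2 := by
        show (-((Real.log 2 : ℝ) : ℂ) + (θ : ℂ) * Complex.I).re = -Real.log 2
        rw [Complex.add_re, Complex.neg_re, Complex.ofReal_re, Complex.re_ofReal_mul, Complex.I_re]
        ring
      rw [h2, Real.exp_neg, Real.exp_log (by norm_num)]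
      norm_num
    have hslit : ∀ θ : ℝ, f (Complex.exp (ζ₀ θ)) / Complex.exp (ζ₀ θ) ∈ Complex.slitPlane := by
      intro θ
      apply Complex.ball_one_subset_slitPlane
      rw [Metric.mem_ball, dist_eq_norm]
      have h3 : f (Complex.exp (ζ₀ θ)) / Complex.exp (ζ₀ θ) - 1 =
          (f (Complex.exp (ζ₀ θ)) - Complex.exp (ζ₀ θ)) / Complex.exp (ζ₀ θ) := by
        rw [sub_div, div_self (Complex.exp_ne_zero _)]
      rw [h3, norm_div, div_lt_one (by rw [hz]; norm_num)]
      exact hlt _ (hz θ)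
    have he := const_of_exp (X := ℝ) (fun θ => K (ζ₀ θ) - ζ₀ θ -
        Complex.log (f (Complex.exp (ζ₀ θ)) / Complex.exp (ζ₀ θ)))
      (by
        refine ((hKc.comp hζc).sub hζc).sub ?_
        refine Continuous.clog ?_ hslit
        exact (hfc.comp (Complex.continuous_exp.comp hζc)).div
          (Complex.continuous_exp.comp hζc) (fun θ => Complex.exp_ne_zero _))
      (fun θ => by
        rw [Complex.exp_sub, Complex.exp_sub, hKe, Complex.exp_log (Complex.slitPlane_ne_zero (hslit θ))]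
        exact div_self (Complex.slitPlane_ne_zero (hslit θ))) (2 * Real.pi) 0
    have hζ2 : ζ₀ (2 * Real.pi) = ζ₀ 0 + 2 * Real.pi * Complex.I := by
      simp [ζ₀]
    have hexp : Complex.exp (ζ₀ (2 * Real.pi)) = Complex.exp (ζ₀ 0) := by
      rw [hζ2, Complex.exp_add, Complex.exp_two_pi_mul_I, mul_one]
    simp only [hexp] at he
    rw [hζ2] at he
    intro ζ
    have h5 := hc ζ (ζ₀ 0)
    have h6 : K (ζ₀ 0 + 2 * Real.pi * Complex.I) - K (ζ₀ 0) = 2 * Real.pi * Complex.I := by
      linear_combination he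
    rw [h6] at h5
    linear_combination h5
  refine ⟨KH, ?_, hK0, hper, ?_, ?_⟩
  · intro ζ
    show k ((Complex.exp ζ : ℂ) : S) = ((Complex.exp (K ζ) : ℂ) : S)
    rw [hKe, hf]
  · intro m
    obtain ⟨R, hR, hR2⟩ := norm_end f k hinf hf (Real.exp m)
    refine ⟨Real.log R, fun ζ hζ => ?_⟩
    show m ≤ (K ζ).re
    have h2 : R ≤ ‖Complex.exp ζ‖ := by
      rw [Complex.norm_exp]
      calc R = Real.exp (Real.log R) := (Real.exp_log hR).symm
        _ ≤ _ := Real.exp_le_exp.2 hζ
    have h3 := hR2 _ h2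
    rw [← hKe, Complex.norm_exp] at h3
    exact Real.exp_le_exp.1 h3
  · intro m
    -- f is continuous at 0 with f 0 = 0
    have h2 : Tendsto f (𝓝 0) (𝓝 0) := by
      have h := hfc.tendsto 0
      rwa [hf0] at h
    obtain ⟨δ, hδ, hδ2⟩ := Metric.tendsto_nhds_nhds.1 h2 (Real.exp m) (Real.exp_pos m)
    refine ⟨Real.log (δ / 2), fun ζ hζ => ?_⟩
    show (K ζ).re ≤ m
    have h3 : dist (Complex.exp ζ) 0 < δ := by
      rw [dist_zero_right, Complex.norm_exp]
      calc Real.exp ζ.re ≤ Real.exp (Real.log (δ / 2)) := Real.exp_le_exp.2 hζ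
        _ = δ / 2 := Real.exp_log (by positivity)
        _ < δ := by linarith
    have h4 := hδ2 h3
    rw [dist_zero_right, ← hKe, Complex.norm_exp] at h4
    exact (Real.exp_lt_exp.1 h4).le

end Pool.Agent.NH50.SPH
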