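import Pool.Agent.NH50.SPH.Calc

/-!
# Project SPH: two conjugates are not enough
-/

set_option autoImplicit false

open Set Filter Topology

noncomputable section

namespace Pool.Agent.NH50.SPH

namespace Lw

/-- the extension of a map of the plane to the sphere -/
def fS (F : ℂ → ℂ) (z : S) : S := z.elim OnePoint.infty (fun w : ℂ => ((F w : ℂ) : S))

theorem fS_infty (F : ℂ → ℂ) : fS F OnePoint.infty = OnePoint.infty := rfl

theorem fS_coe (F : ℂ → ℂ) (z : ℂ) : fS F (z : S) = ((F z : ℂ) : S) := rfl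

theorem mem_nhds_infty {s : Set S} (hs : s ∈ 𝓝 (OnePoint.infty : S)) :
    OnePoint.infty ∈ s ∧ ∃ R : ℝ, ∀ z : ℂ, R ≤ ‖z‖ → (z : S) ∈ s := by
  refine ⟨mem_of_mem_nhds hs, ?_⟩
  rw [OnePoint.nhds_infty_eq, mem_sup, mem_map, coclosedCompact_eq_cocompact,
    ← Metric.cobounded_eq_cocompact, Filter.hasBasis_cobounded_norm.mem_iff] at hs
  obtain ⟨⟨R, -, hR⟩, -⟩ := hs
  exact ⟨R, fun z hz => hR hz⟩

theorem joint (F : unitInterval → ℂ → ℂ) (hF : Continuous (Function.uncurry F))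
    (hn : ∀ t z, 1 ≤ ‖z‖ → ‖z‖ ≤ ‖F t z‖) :
    Continuous (fun p : unitInterval × S => fS (F p.1) p.2) := by
  rw [continuous_iff_continuousAt]
  rintro ⟨t, z⟩
  induction z using OnePoint.rec with
  | infty =>
    show Tendsto (fun p : unitInterval × S => fS (F p.1) p.2) (𝓝 (t, OnePoint.infty))
      (𝓝 (OnePoint.infty : S))
    intro s hs
    obtain ⟨h1, R, hR⟩ := mem_nhds_infty hs
    rw [mem_map]
    have h2 : ∀ᶠ z in 𝓝 (OnePoint.infty : S), ∀ t : unitInterval, fS (F t) z ∈ s := by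
      refine ev_infty_of (max R 1) (fun t => ?_) (fun z hz t => ?_)
      · rw [fS_infty]
        exact h1
      · rw [fS_coe]
        exact hR _ (((le_max_left _ _).trans hz).trans (hn t z ((le_max_right _ _).trans hz)))
    have h3 : ∀ᶠ p : unitInterval × S in 𝓝 (t, OnePoint.infty), ∀ t : unitInterval,
        fS (F t) p.2 ∈ s := (continuous_snd.tendsto (t, (OnePoint.infty : S))).eventually h2
    filter_upwards [h3] with p hp using hp p.1
  | coe z =>
    have he : IsOpenEmbedding (Prod.map (id : unitInterval → unitInterval)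
        (fun w : ℂ => (w : S))) := IsOpenEmbedding.id.prodMap OnePoint.isOpenEmbedding_coe
    have h1 := he.continuousAt_iff (g := fun p : unitInterval × S => fS (F p.1) p.2) (x := (t, z))
    refine h1.1 ?_
    have h2 : Continuous ((fun p : unitInterval × S => fS (F p.1) p.2) ∘
        (Prod.map (id : unitInterval → unitInterval) (fun w : ℂ => (w : S)))) :=
      OnePoint.continuous_coe.comp hF
    exact h2.continuousAt

theorem path_mem (F G' : unitInterval → ℂ → ℂ) (hF : Continuous (Function.uncurry F))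
    (hn : ∀ t z, 1 ≤ ‖z‖ → ‖z‖ ≤ ‖F t z‖) (h1 : ∀ t z, G' t (F t z) = z)
    (h2 : ∀ t z, F t (G' t z) = z) (h0 : ∀ z, F 0 z = z) :
    ∃ f ∈ G S, (∀ z : ℂ, f (z : S) = ((F 1 z : ℂ) : S)) ∧ f OnePoint.infty = OnePoint.infty := by
  have hj := joint F hF hn
  have hc : ∀ t, Continuous (fS (F t)) := fun t => hj.comp (by fun_prop : Continuous fun z : S => (t, z))
  let e : unitInterval → (S ≃ S) := fun t =>
    { toFun := fS (F t)
      invFun := fS (G' t)
      left_inv := by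
        intro z
        induction z using OnePoint.rec with
        | infty => rfl
        | coe z => rw [fS_coe, fS_coe, h1]
      right_inv := by
        intro z
        induction z using OnePoint.rec with
        | infty => rfl
        | coe z => rw [fS_coe, fS_coe, h2] }
  have hec : ∀ t, Continuous (e t) := hc
  let h : unitInterval → (S ≃ₜ S) := fun t => Continuous.homeoOfEquivCompactToT2 (hec t)
  have hh : ∀ t z, h t z = fS (F t) z := fun t z => rfl
  refine ⟨h 1, ⟨h, ?_, ?_, rfl⟩, fun z => rfl, rfl⟩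
  · apply ContinuousMap.continuous_of_continuous_uncurry
    exact hj
  · apply Homeomorph.ext
    intro z
    rw [hh]
    induction z using OnePoint.rec with
    | infty => rfl
    | coe z =>
      rw [fS_coe, h0]
      rfl

theorem exists_A : ∃ A ∈ G S, (∀ z : ℂ, A (z : S) = ((-z : ℂ) : S)) ∧
    A OnePoint.infty = OnePoint.infty := by
  obtain ⟨f, hf, h1, h2⟩ := path_mem
    (fun t z => Complex.exp ((Real.pi * (t : ℝ) : ℝ) * Complex.I) * z)
    (fun t z => Complex.exp (-((Real.pi * (t : ℝ) : ℝ) * Complex.I)) * z) (by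
      unfold Function.uncurry
      fun_prop) (by
      intro t z _
      rw [norm_mul, Complex.norm_exp_ofReal_mul_I, one_mul]) (by
      intro t z
      rw [← mul_assoc, ← Complex.exp_add, neg_add_cancel, Complex.exp_zero, one_mul]) (by
      intro t z
      rw [← mul_assoc, ← Complex.exp_add, add_neg_cancel, Complex.exp_zero, one_mul]) (by
      intro z
      simp)
  refine ⟨f, hf, fun z => ?_, h2⟩
  rw [h1]
  congr 1
  simp [Complex.exp_pi_mul_I]

theorem exists_B : ∃ B ∈ G S, (∀ z : ℂ, B (z : S) = ((z * (‖z‖ : ℂ) : ℂ) : S)) ∧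
    B OnePoint.infty = OnePoint.infty := by
  have hpos : ∀ t : unitInterval, 0 < 1 + (t : ℝ) := fun t => by linarith [t.2.1]
  obtain ⟨f, hf, h1, h2⟩ := path_mem
    (fun t z => z * ((‖z‖ ^ (t : ℝ) : ℝ) : ℂ))
    (fun t z => z * ((‖z‖ ^ (-(t : ℝ) / (1 + (t : ℝ))) : ℝ) : ℂ)) (by
      rw [continuous_iff_continuousAt]
      rintro ⟨t, z⟩
      by_cases hz : z = 0
      · subst hz
        show Tendsto (fun p : unitInterval × ℂ => p.2 * ((‖p.2‖ ^ (p.1 : ℝ) : ℝ) : ℂ)) (𝓝 (t, 0))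
          (𝓝 ((0 : ℂ) * ((‖(0 : ℂ)‖ ^ (t : ℝ) : ℝ) : ℂ)))
        rw [zero_mul]
        have h3 : Tendsto (fun p : unitInterval × ℂ => ‖p.2‖) (𝓝 (t, 0)) (𝓝 0) := by
          have h5 : Continuous fun p : unitInterval × ℂ => ‖p.2‖ := by fun_prop
          have := h5.tendsto (t, 0)
          rwa [norm_zero] at this
        refine squeeze_zero_norm' ?_ h3
        have h4 : ∀ᶠ p : unitInterval × ℂ in 𝓝 (t, 0), ‖p.2‖ < 1 := h3.eventually (gt_mem_nhds one_pos)
        filter_upwards [h4] with p hp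
        rw [norm_mul, Complex.norm_real, Real.norm_of_nonneg (Real.rpow_nonneg (norm_nonneg _) _)]
        exact mul_le_of_le_one_right (norm_nonneg _)
          (Real.rpow_le_one (norm_nonneg _) hp.le p.1.2.1)
      · have h3 : ContinuousAt (fun p : unitInterval × ℂ => ‖p.2‖ ^ (p.1 : ℝ)) (t, z) := by
          have h4 := Real.continuousAt_rpow (‖z‖, (t : ℝ)) (Or.inl (norm_ne_zero_iff.2 hz))
          have h5 : Continuous fun p : unitInterval × ℂ => (‖p.2‖, (p.1 : ℝ)) := by fun_prop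
          exact ContinuousAt.comp (f := fun p : unitInterval × ℂ => (‖p.2‖, (p.1 : ℝ)))
            (g := fun p : ℝ × ℝ => p.1 ^ p.2) h4 h5.continuousAt
        exact continuous_snd.continuousAt.mul
          (Complex.continuous_ofReal.continuousAt.comp h3)) (by
      intro t z hz
      rw [norm_mul, Complex.norm_real, Real.norm_of_nonneg (Real.rpow_nonneg (norm_nonneg _) _)]
      exact le_mul_of_one_le_right (norm_nonneg _) (Real.one_le_rpow hz t.2.1)) (by
      intro t z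
      by_cases hz : z = 0
      · rw [hz]
        simp
      · have hz' : 0 < ‖z‖ := norm_pos_iff.2 hz
        have h3 : ‖z * ((‖z‖ ^ (t : ℝ) : ℝ) : ℂ)‖ = ‖z‖ ^ (1 + (t : ℝ)) := by
          rw [norm_mul, Complex.norm_real, Real.norm_of_nonneg (Real.rpow_nonneg (norm_nonneg _) _),
            Real.rpow_add hz', Real.rpow_one]
        show z * ((‖z‖ ^ (t : ℝ) : ℝ) : ℂ) * ((‖z * ((‖z‖ ^ (t : ℝ) : ℝ) : ℂ)‖ ^
          (-(t : ℝ) / (1 + (t : ℝ))) : ℝ) : ℂ) = z
        rw [h3, ← Real.rpow_mul hz'.le, mul_div_cancel₀ _ (hpos t).ne', mul_assoc,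
          ← Complex.ofReal_mul, ← Real.rpow_add hz', add_neg_cancel, Real.rpow_zero,
          Complex.ofReal_one, mul_one]) (by
      intro t z
      by_cases hz : z = 0
      · rw [hz]
        simp
      · have hz' : 0 < ‖z‖ := norm_pos_iff.2 hz
        have h3 : ‖z * ((‖z‖ ^ (-(t : ℝ) / (1 + (t : ℝ))) : ℝ) : ℂ)‖ =
            ‖z‖ ^ (1 + -(t : ℝ) / (1 + (t : ℝ))) := by
          rw [norm_mul, Complex.norm_real, Real.norm_of_nonneg (Real.rpow_nonneg (norm_nonneg _) _),
            Real.rpow_add hz', Real.rpow_one]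
        show z * ((‖z‖ ^ (-(t : ℝ) / (1 + (t : ℝ))) : ℝ) : ℂ) *
          ((‖z * ((‖z‖ ^ (-(t : ℝ) / (1 + (t : ℝ))) : ℝ) : ℂ)‖ ^ (t : ℝ) : ℝ) : ℂ) = z
        have h4 : -(t : ℝ) / (1 + (t : ℝ)) + (1 + -(t : ℝ) / (1 + (t : ℝ))) * (t : ℝ) = 0 := by
          have := (hpos t).ne'
          field_simp
          ring
        rw [h3, ← Real.rpow_mul hz'.le, mul_assoc,
          ← Complex.ofReal_mul, ← Real.rpow_add hz', h4, Real.rpow_zero,
          Complex.ofReal_one, mul_one]) (by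
      intro z
      simp)
  refine ⟨f, hf, fun z => ?_, h2⟩
  rw [h1]
  congr 2
  simp

theorem coe_inj {z w : ℂ} (h : (z : S) = (w : S)) : z = w := OnePoint.coe_injective h

theorem closed_ball (c : ℝ) : IsClosed {z : S | ∃ u : ℂ, z = (u : S) ∧ ‖u‖ ≤ c} := by
  have h1 : {z : S | ∃ u : ℂ, z = (u : S) ∧ ‖u‖ ≤ c} = (fun u : ℂ => (u : S)) '' Metric.closedBall 0 c := by
    ext z
    constructor
    · rintro ⟨u, rfl, hu⟩
      exact ⟨u, by simpa using hu, rfl⟩
    · rintro ⟨u, hu, rfl⟩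
      exact ⟨u, rfl, by simpa using hu⟩
  rw [h1]
  exact ((isCompact_closedBall (0 : ℂ) c).image OnePoint.continuous_coe).isClosed

theorem closed_out (c : ℝ) : IsClosed {z : S | z = OnePoint.infty ∨ ∃ u : ℂ, z = (u : S) ∧ c ≤ ‖u‖} := by
  rw [← isOpen_compl_iff]
  have h1 : {z : S | z = OnePoint.infty ∨ ∃ u : ℂ, z = (u : S) ∧ c ≤ ‖u‖}ᶜ =
      (fun u : ℂ => (u : S)) '' Metric.ball 0 c := by
    ext z
    induction z using OnePoint.rec with
    | infty =>
      constructor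
      · intro h
        exact absurd (Or.inl rfl) h
      · rintro ⟨u, -, hu⟩
        exact absurd hu (OnePoint.coe_ne_infty u)
    | coe z =>
      constructor
      · intro h
        refine ⟨z, ?_, rfl⟩
        rw [Metric.mem_ball, dist_zero_right]
        by_contra hcon
        exact h (Or.inr ⟨z, rfl, not_lt.1 hcon⟩)
      · rintro ⟨u, hu, huz⟩ h
        rcases h with h | ⟨u', hu', hc⟩
        · exact absurd h (OnePoint.coe_ne_infty z)
        · rw [Metric.mem_ball, dist_zero_right] at hu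
          have h2 : u = u' := coe_inj (huz.trans hu')
          rw [h2] at hu
          linarith
  rw [h1]
  exact OnePoint.isOpenEmbedding_coe.isOpenMap _ Metric.isOpen_ball

/-- the limits of the orbits of `B` -/
theorem limit_B {B : S ≃ₜ S} (hB : ∀ z : ℂ, B (z : S) = ((z * (‖z‖ : ℂ) : ℂ) : S))
    (hBi : B OnePoint.infty = OnePoint.infty) {q : ℕ → S} (hq : ∀ n, q (n + 1) = B (q n))
    {L : S} (hL : Tendsto q atTop (𝓝 L)) (h0 : B (q 0) ≠ q 0) :
    L = ((0 : ℂ) : S) ∨ L = OnePoint.infty := by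
  have hfix : B L = L := by
    have h1 : Tendsto (fun n => q (n + 1)) atTop (𝓝 L) := hL.comp (tendsto_add_atTop_nat 1)
    have h2 : Tendsto (fun n => B (q n)) atTop (𝓝 (B L)) := (B.continuous.tendsto L).comp hL
    refine tendsto_nhds_unique h2 ?_
    simpa only [hq] using h1
  rcases hqz : q 0 with _ | u
  · rw [hqz] at h0
    exact absurd hBi h0
  have hq0 : q 0 = (u : S) := hqz
  have hu1 : ‖u‖ ≠ 1 := by
    intro h
    apply h0
    rw [hq0, hB, h]
    simp
  rcases lt_or_gt_of_ne hu1 with hu | hu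
  · left
    have h1 : ∀ n, q n ∈ {z : S | ∃ v : ℂ, z = (v : S) ∧ ‖v‖ ≤ ‖u‖} := by
      intro n
      induction n with
      | zero => exact ⟨u, hq0, le_rfl⟩
      | succ n ih =>
        obtain ⟨v, hv, hvc⟩ := ih
        refine ⟨v * (‖v‖ : ℂ), by rw [hq, hv, hB], ?_⟩
        rw [norm_mul, Complex.norm_real, norm_norm]
        nlinarith [norm_nonneg v]
    obtain ⟨v, hv, hvc⟩ := (closed_ball ‖u‖).mem_of_tendsto hL (Eventually.of_forall h1)
    rw [hv, hB] at hfix
    have h2 := coe_inj hfix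
    have h3 : v * ((‖v‖ : ℂ) - 1) = 0 := by
      linear_combination h2
    rcases mul_eq_zero.1 h3 with h4 | h4
    · rw [hv, h4]
    · exfalso
      have h5 : (‖v‖ : ℂ) = ((1 : ℝ) : ℂ) := by
        rw [Complex.ofReal_one]
        exact sub_eq_zero.1 h4
      have h6 : ‖v‖ = 1 := Complex.ofReal_injective h5
      linarith
  · right
    have h1 : ∀ n, q n ∈ {z : S | z = OnePoint.infty ∨ ∃ v : ℂ, z = (v : S) ∧ ‖u‖ ≤ ‖v‖} := by
      intro n
      induction n with
      | zero => exact Or.inr ⟨u, hq0, le_rfl⟩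
      | succ n ih =>
        rcases ih with h | ⟨v, hv, hvc⟩
        · left
          rw [hq, h, hBi]
        · right
          refine ⟨v * (‖v‖ : ℂ), by rw [hq, hv, hB], ?_⟩
          rw [norm_mul, Complex.norm_real, norm_norm]
          nlinarith [norm_nonneg v]
    rcases (closed_out ‖u‖).mem_of_tendsto hL (Eventually.of_forall h1) with h | ⟨v, hv, hvc⟩
    · exact h
    · exfalso
      rw [hv, hB] at hfix
      have h2 := coe_inj hfix
      have h3 : v * ((‖v‖ : ℂ) - 1) = 0 := by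
        linear_combination h2
      rcases mul_eq_zero.1 h3 with h4 | h4
      · rw [h4, norm_zero] at hvc
        linarith
      · have h5 : (‖v‖ : ℂ) = ((1 : ℝ) : ℂ) := by
          rw [Complex.ofReal_one]
          exact sub_eq_zero.1 h4
        have h6 : ‖v‖ = 1 := Complex.ofReal_injective h5
        linarith

/-- the points of a backward orbit of `B` -/
def pt (ω : ℂ) (n : ℕ) : ℂ := (((2 : ℝ)⁻¹ ^ ((2 : ℝ)⁻¹ ^ n) : ℝ) : ℂ) * ω

theorem pt_B {B : S ≃ₜ S} (hB : ∀ z : ℂ, B (z : S) = ((z * (‖z‖ : ℂ) : ℂ) : S)) {ω : ℂ}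
    (hω : ‖ω‖ = 1) (n : ℕ) : B (pt ω (n + 1) : S) = (pt ω n : S) := by
  rw [hB]
  congr 1
  have h1 : ‖pt ω (n + 1)‖ = (2 : ℝ)⁻¹ ^ ((2 : ℝ)⁻¹ ^ (n + 1)) := by
    unfold pt
    rw [norm_mul, hω, mul_one, Complex.norm_real,
      Real.norm_of_nonneg (Real.rpow_nonneg (by norm_num) _)]
  rw [h1]
  unfold pt
  have h2 : (2 : ℝ)⁻¹ ^ ((2 : ℝ)⁻¹ ^ n) =
      (2 : ℝ)⁻¹ ^ ((2 : ℝ)⁻¹ ^ (n + 1)) * (2 : ℝ)⁻¹ ^ ((2 : ℝ)⁻¹ ^ (n + 1)) := by
    rw [← Real.rpow_add (by norm_num)]
    congr 1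
    rw [pow_succ]
    ring
  rw [h2]
  push_cast
  ring

theorem pt_tendsto (ω : ℂ) : Tendsto (fun n => pt ω n) atTop (𝓝 ω) := by
  have h1 : Tendsto (fun n : ℕ => (2 : ℝ)⁻¹ ^ n) atTop (𝓝 0) :=
    tendsto_pow_atTop_nhds_zero_of_lt_one (by norm_num) (by norm_num)
  have h2 : Tendsto (fun n : ℕ => (2 : ℝ)⁻¹ ^ ((2 : ℝ)⁻¹ ^ n)) atTop (𝓝 ((2 : ℝ)⁻¹ ^ (0 : ℝ))) := by
    have h3 : Continuous fun x : ℝ => (2 : ℝ)⁻¹ ^ x := Real.continuous_const_rpow (by norm_num)
    exact (h3.tendsto 0).comp h1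
  rw [Real.rpow_zero] at h2
  have h3 := ((Complex.continuous_ofReal.tendsto 1).comp h2).mul_const ω
  rw [Complex.ofReal_one, one_mul] at h3
  exact h3

theorem pt_ne {ω : ℂ} (hω : ‖ω‖ = 1) : pt ω 1 ≠ pt ω 0 := by
  intro h
  have h1 := congrArg norm h
  unfold pt at h1
  rw [norm_mul, norm_mul, hω, mul_one, mul_one, Complex.norm_real, Complex.norm_real,
    Real.norm_of_nonneg (Real.rpow_nonneg (by norm_num) _),
    Real.norm_of_nonneg (Real.rpow_nonneg (by norm_num) _), pow_zero, pow_one, Real.rpow_one] at h1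
  have h2 : ((2 : ℝ)⁻¹ ^ ((2 : ℝ)⁻¹)) * ((2 : ℝ)⁻¹ ^ ((2 : ℝ)⁻¹)) = (2 : ℝ)⁻¹ := by
    rw [← Real.rpow_add (by norm_num), ← two_mul, mul_inv_cancel₀ (by norm_num), Real.rpow_one]
  rw [h1] at h2
  norm_num at h2

theorem key {B H : S ≃ₜ S} (hB : ∀ z : ℂ, B (z : S) = ((z * (‖z‖ : ℂ) : ℂ) : S))
    (hBi : B OnePoint.infty = OnePoint.infty) (hH : ∀ z, B (H (B z)) = H z) {ω : ℂ}
    (hω : ‖ω‖ = 1) : H (ω : S) = ((0 : ℂ) : S) ∨ H (ω : S) = OnePoint.infty := by
  refine limit_B hB hBi (q := fun n => H (pt ω n : S)) (fun n => ?_) ?_ ?_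
  · have h1 := hH (pt ω (n + 1) : S)
    rw [pt_B hB hω] at h1
    exact h1.symm
  · exact (H.continuous.tendsto _).comp ((OnePoint.continuous_coe.tendsto ω).comp (pt_tendsto ω))
  · intro h
    have h1 := hH (pt ω (0 + 1) : S)
    rw [pt_B hB hω] at h1
    have h2 : H (pt ω 0 : S) = H (pt ω (0 + 1) : S) := by
      rw [← h1]
      exact h.symm
    exact pt_ne hω (coe_inj (H.injective h2)).symm

end Lw

open Lw in
/-- two conjugates are not enough -/
theorem low : St_low := by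
  obtain ⟨A, hA, hA1, hA2⟩ := exists_A
  obtain ⟨B, hB, hB1, hB2⟩ := exists_B
  have hAA : A * A = 1 := by
    apply Homeomorph.ext
    intro z
    rw [mul_ap]
    induction z using OnePoint.rec with
    | infty => rw [hA2, hA2]; rfl
    | coe z => rw [hA1, hA1, neg_neg]; rfl
  have hinv : ∀ H : S ≃ₜ S, (H * A * H⁻¹) * (H * A * H⁻¹) = 1 := by
    intro H
    calc (H * A * H⁻¹) * (H * A * H⁻¹) = H * (A * A) * H⁻¹ := by group
      _ = 1 := by rw [hAA]; group
  have hBB : B * B ≠ 1 := by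
    intro h
    have h1 : (B * B) ((2 : ℂ) : S) = ((2 : ℂ) : S) := by rw [h]; rfl
    rw [mul_ap, hB1, hB1] at h1
    have h2 := coe_inj h1
    norm_num at h2
  refine ⟨A, hA, B, hB, ?_, ?_, ?_, ?_⟩
  · intro h
    have h1 : A ((1 : ℂ) : S) = ((1 : ℂ) : S) := by rw [h]; rfl
    rw [hA1] at h1
    have h2 := coe_inj h1
    norm_num at h2
  · rintro rfl
    exact hBB (by group)
  · intro H h
    apply hBB
    rw [h]
    exact hinv H
  · intro H₁ H₂ h
    set A₁ := H₁ * A * H₁⁻¹ with hA₁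
    set A₂ := H₂ * A * H₂⁻¹ with hA₂
    have e1 : A₁ * A₁ = 1 := hinv H₁
    have e2 : A₂ * A₂ = 1 := hinv H₂
    have e3 : B * A₁ * B = A₁ := by
      rw [h]
      calc A₁ * A₂ * A₁ * (A₁ * A₂) = A₁ * A₂ * (A₁ * A₁) * A₂ := by group
        _ = A₁ * (A₂ * A₂) := by rw [e1]; group
        _ = A₁ := by rw [e2]; group
    have hH : ∀ z, B (A₁ (B z)) = A₁ z := by
      intro z
      have : (B * A₁ * B) z = A₁ z := by rw [e3]
      exact this
    have k1 := key hB1 hB2 hH (ω := 1) (by simp)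
    have k2 := key hB1 hB2 hH (ω := -1) (by simp)
    have k3 := key hB1 hB2 hH (ω := Complex.I) (by simp)
    have n12 : (1 : ℂ) ≠ -1 := by norm_num
    have n13 : (1 : ℂ) ≠ Complex.I := by
      intro h
      have := congrArg Complex.re h
      simp at this
    have n23 : (-1 : ℂ) ≠ Complex.I := by
      intro h
      have := congrArg Complex.re h
      simp at this
    have inj : ∀ {a b : ℂ} {c : S}, A₁ (a : S) = c → A₁ (b : S) = c → a = b := fun ha hb =>
      coe_inj (A₁.injective (ha.trans hb.symm))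
    rcases k1 with k1 | k1 <;> rcases k2 with k2 | k2 <;> rcases k3 with k3 | k3
    · exact n12 (inj k1 k2)
    · exact n12 (inj k1 k2)
    · exact n13 (inj k1 k3)
    · exact n23 (inj k2 k3)
    · exact n23 (inj k2 k3)
    · exact n13 (inj k1 k3)
    · exact n12 (inj k1 k2)
    · exact n12 (inj k1 k2)

end Pool.Agent.NH50.SPH
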