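import Pool.Agent.NH50.SPH.Calc

/-!
# Project SPH: homeomorphisms close to the identity have `Q` at `1`
-/

set_option autoImplicit false

open Set Filter Topology

noncomputable section

namespace Pool.Agent.NH50.SPH

namespace Near

/-- A homeomorphism sending a point close to infinity to infinity, fixing a large disc. -/
theorem exists_minf (hb : St_bump) (y : S)
    (hy : y = OnePoint.infty ∨ ∃ u : ℂ, y = (u : S) ∧ 32 < ‖u‖) :
    ∃ m : S ≃ₜ S, m y = OnePoint.infty ∧ ∀ z : ℂ, ‖z‖ < 4 → m (z : S) = (z : S) := by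
  rcases hy with rfl | ⟨p, rfl, hp⟩
  · exact ⟨1, rfl, fun z _ => rfl⟩
  · have hp0 : p ≠ 0 := norm_pos_iff.1 (by linarith)
    have hpi : ‖p⁻¹‖ < 1 / 32 := by
      rw [norm_inv, one_div]
      exact inv_strictAnti₀ (by norm_num) hp
    obtain ⟨Φ, h1, h2⟩ := hb 0 p⁻¹ (1 / 4) (by norm_num) (by linarith)
    refine ⟨J * ext Φ * J, ?_, ?_⟩
    · rw [mul_ap, mul_ap, J_coe p hp0, ext_coe, h1 _ (by rw [sub_zero, norm_neg]; linarith),
        neg_add_cancel, J_zero]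
    · intro z hz
      rw [mul_ap, mul_ap]
      by_cases hz0 : z = 0
      · subst hz0
        rw [J_zero, ext_infty, J_infty]
      · have hzp : 0 < ‖z‖ := norm_pos_iff.2 hz0
        have h3 : 1 / 4 ≤ ‖(-z⁻¹ : ℂ) - 0‖ := by
          rw [sub_zero, norm_neg, norm_inv, one_div]
          exact inv_anti₀ hzp hz.le
        rw [J_coe z hz0, ext_coe, h2 _ h3, ← J_coe z hz0, J_J]

/-- The normalised homeomorphism satisfies `Q` at `1`. -/
theorem Q_norm (hs : St_strict) (hl : St_lift) (hd : St_disp) (hsub : St_sub) (k : S ≃ₜ S)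
    (h0 : k ((0 : ℂ) : S) = ((0 : ℂ) : S)) (h1 : k ((1 : ℂ) : S) = ((1 : ℂ) : S))
    (hi : k OnePoint.infty = OnePoint.infty)
    (hc : ∀ z : ℂ, ‖z‖ = 1 / 2 → ∃ w : ℂ, k (z : S) = (w : S) ∧ ‖w - z‖ < 1 / 2) :
    Q k ((1 : ℂ) : S) := by
  obtain ⟨K, hK, hK0, hper, hup, hdown⟩ := hl k h0 h1 hi hc
  obtain ⟨Λ, C, hΛ⟩ := hd K hper hup hdown
  have hQ1 : Q (ext (Λ.symm.trans (K.trans Λ))) ((Λ 0 : ℂ) : S) := hsub _ C hΛ (Λ 0)
  have hQ2 : Q (ext K) ((0 : ℂ) : S) := by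
    have h3 := Q_conj hQ1 (ext Λ)⁻¹
    have h4 : (ext Λ)⁻¹ * ext (Λ.symm.trans (K.trans Λ)) * (ext Λ)⁻¹⁻¹ = ext K := by
      rw [inv_inv]
      ext z
      rw [mul_ap, mul_ap]
      induction z using OnePoint.rec with
      | infty => rfl
      | coe z =>
        rw [ext_coe, ext_coe, ext_inv_coe, ext_coe]
        simp
    rw [h4, ext_inv_coe, Homeomorph.symm_apply_apply] at h3
    exact h3
  have hst : HasStrictFDerivAt (𝕜 := ℝ) Complex.exp (ContinuousLinearMap.id ℝ ℂ) 0 := by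
    have h3 : HasStrictDerivAt Complex.exp (Complex.exp 0) 0 := Complex.hasStrictDerivAt_exp 0
    have h4 := h3.hasStrictFDerivAt.restrictScalars ℝ
    have h5 : ContinuousLinearMap.restrictScalars ℝ
        (ContinuousLinearMap.toSpanSingleton ℂ (Complex.exp 0)) = ContinuousLinearMap.id ℝ ℂ := by
      refine ContinuousLinearMap.ext fun z => ?_
      show z • Complex.exp 0 = z
      rw [Complex.exp_zero, smul_eq_mul, mul_one]
    rw [h5] at h4
    exact h4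
  obtain ⟨e, he, -⟩ := hs Complex.exp hst
  have he0 : e 0 = 1 := by
    rw [he.self_of_nhds, Complex.exp_zero]
  have hQ3 := Q_conj hQ2 (ext e)
  rw [ext_coe, he0] at hQ3
  refine Q_congr hQ3 ?_
  rw [ev_coe]
  have hes : e.symm 1 = 0 := by rw [← he0, e.symm_apply_apply]
  have t1 : Tendsto (fun w => e.symm w) (𝓝 1) (𝓝 0) := by
    have := e.symm.continuous.tendsto 1
    rwa [hes] at this
  have t2 : Tendsto (fun w => K (e.symm w)) (𝓝 1) (𝓝 0) := by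
    have h5 := (K.continuous.tendsto 0).comp t1
    rw [hK0] at h5
    exact h5
  filter_upwards [t1.eventually he, t2.eventually he] with w hw1 hw2
  rw [mul_ap, mul_ap, ext_inv_coe, ext_coe, ext_coe, hw2, ← hK, ← hw1, e.apply_symm_apply]

end Near

theorem near (hs : St_strict) (hb : St_bump) (hm : St_mul) (hl : St_lift) (hd : St_disp)
    (hsub : St_sub) : St_near := by
  refine ⟨1 / 32, by norm_num, ?_⟩
  rintro f ⟨u0, hf0, hu0⟩ ⟨u1, hf1, hu1⟩ hfi hfc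
  have hn1 : ‖u1‖ ≤ 33 / 32 := by
    have : ‖u1‖ ≤ ‖u1 - 1‖ + ‖(1 : ℂ)‖ := by
      calc ‖u1‖ = ‖(u1 - 1) + 1‖ := by rw [sub_add_cancel]
        _ ≤ _ := norm_add_le _ _
    rw [norm_one] at this
    linarith
  obtain ⟨Φ0, ha0, hb0⟩ := hb 0 (-u0) (1 / 4) (by norm_num) (by rw [norm_neg]; linarith)
  obtain ⟨Φ1, ha1, hb1⟩ := hb 1 (1 - u1) (1 / 4) (by norm_num)
    (by rw [norm_sub_rev]; linarith)
  obtain ⟨mi, hmi, hmi'⟩ := Near.exists_minf hb (f OnePoint.infty) (by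
    rcases hfi with h | ⟨u, h1, h2⟩
    · exact Or.inl h
    · exact Or.inr ⟨u, h1, by norm_num at h2; exact h2⟩)
  -- fixed points of the correction
  have hfix : ∀ z : ℂ, 1 / 4 ≤ ‖z‖ → 1 / 4 ≤ ‖z - 1‖ → ‖z‖ < 4 →
      (ext Φ0 * ext Φ1 * mi) (z : S) = (z : S) := by
    intro z h1 h2 h3
    rw [mul_ap, mul_ap, hmi' z h3, ext_coe, hb1 z h2, ext_coe, hb0 z (by rwa [sub_zero])]
  have hsub1 : ∀ z : ℂ, 1 - ‖z‖ ≤ ‖z - 1‖ := by
    intro z
    have : ‖(1 : ℂ)‖ ≤ ‖z - 1‖ + ‖z‖ := by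
      calc ‖(1 : ℂ)‖ = ‖z - (z - 1)‖ := by rw [sub_sub_cancel]
        _ ≤ ‖z‖ + ‖z - 1‖ := norm_sub_le _ _
        _ = _ := add_comm _ _
    rw [norm_one] at this
    linarith
  have hm0 : (ext Φ0 * ext Φ1 * mi) (u0 : S) = ((0 : ℂ) : S) := by
    rw [mul_ap, mul_ap, hmi' u0 (by linarith), ext_coe, hb1 u0 (by linarith [hsub1 u0]), ext_coe,
      ha0 u0 (by rw [sub_zero]; linarith), add_neg_cancel]
  have hm1 : (ext Φ0 * ext Φ1 * mi) (u1 : S) = ((1 : ℂ) : S) := by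
    have h1 : u1 + (1 - u1) = 1 := by ring
    rw [mul_ap, mul_ap, hmi' u1 (by linarith), ext_coe, ha1 u1 (by linarith), ext_coe, h1,
      hb0 1 (by rw [sub_zero, norm_one]; norm_num)]
  have hmI : (ext Φ0 * ext Φ1 * mi) (f OnePoint.infty) = OnePoint.infty := by
    rw [mul_ap, mul_ap, hmi, ext_infty, ext_infty]
  set m : S ≃ₜ S := ext Φ0 * ext Φ1 * mi with hmdef
  have hk1 : (m * f) ((1 : ℂ) : S) = ((1 : ℂ) : S) := by rw [mul_ap, hf1, hm1]
  have hQk : Q (m * f) ((1 : ℂ) : S) := by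
    refine Near.Q_norm hs hl hd hsub (m * f) ?_ hk1 ?_ ?_
    · rw [mul_ap, hf0, hm0]
    · rw [mul_ap, hmI]
    · intro z hz
      obtain ⟨w, hw, hwz⟩ := hfc z hz
      have e1 : ‖w‖ ≤ 17 / 32 := by
        have : ‖w‖ ≤ ‖w - z‖ + ‖z‖ := by
          calc ‖w‖ = ‖(w - z) + z‖ := by rw [sub_add_cancel]
            _ ≤ _ := norm_add_le _ _
        linarith
      have e2 : 15 / 32 ≤ ‖w‖ := by
        have : ‖z‖ ≤ ‖w - z‖ + ‖w‖ := by
          calc ‖z‖ = ‖w - (w - z)‖ := by rw [sub_sub_cancel]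
            _ ≤ ‖w‖ + ‖w - z‖ := norm_sub_le _ _
            _ = _ := add_comm _ _
        linarith
      refine ⟨w, ?_, by linarith⟩
      rw [mul_ap, hw, hfix w (by linarith) (by linarith [hsub1 w]) (by linarith)]
  have hG : GId m := by
    refine GId_of_eventually ((-1 / 2 : ℂ) : S) ?_
    rw [ev_coe]
    filter_upwards [Metric.ball_mem_nhds (-1 / 2 : ℂ) (show (0 : ℝ) < 1 / 8 by norm_num)] with z hz
    rw [mem_ball_iff_norm] at hz
    have e0 : ‖(-1 / 2 : ℂ)‖ = 1 / 2 := by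
      rw [norm_div, norm_neg, norm_one]; norm_num
    have e3 : ‖(-1 / 2 : ℂ) - 1‖ = 3 / 2 := by
      have : (-1 / 2 : ℂ) - 1 = -(3 / 2) := by norm_num
      rw [this, norm_neg, norm_div]; norm_num
    have e1 : ‖z‖ ≤ 5 / 8 := by
      have : ‖z‖ ≤ ‖z - (-1 / 2)‖ + ‖(-1 / 2 : ℂ)‖ := by
        calc ‖z‖ = ‖(z - (-1 / 2)) + (-1 / 2)‖ := by rw [sub_add_cancel]
          _ ≤ _ := norm_add_le _ _
      linarith
    have e2 : 3 / 8 ≤ ‖z‖ := by
      have : ‖(-1 / 2 : ℂ)‖ ≤ ‖z - (-1 / 2)‖ + ‖z‖ := by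
        calc ‖(-1 / 2 : ℂ)‖ = ‖z - (z - (-1 / 2))‖ := by rw [sub_sub_cancel]
          _ ≤ ‖z‖ + ‖z - (-1 / 2)‖ := norm_sub_le _ _
          _ = _ := add_comm _ _
      linarith
    exact hfix z (by linarith) (by linarith [hsub1 z]) (by linarith)
  have hfm : f = m⁻¹ * (m * f) := by rw [inv_mul_cancel_left]
  rw [hfm]
  refine hm m⁻¹ (m * f) _ hQk ?_
  rw [hk1]
  exact Q_of_GId (GId_inv hG) _

end Pool.Agent.NH50.SPH
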