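import Pool.Agent.NH50.SPH.Calc

/-!
# Project SPH: the path component of the identity satisfies `Q`
-/

set_option autoImplicit false

open Set Filter Topology

noncomputable section

namespace Pool.Agent.NH50.SPH

namespace PathC

lemma ev_ball (c : ℂ) {η : ℝ} (hη : 0 < η) : ∀ᶠ x in 𝓝 (c : S), ∃ u : ℂ, x = (u : S) ∧ ‖u - c‖ < η := by
  rw [ev_coe]
  filter_upwards [Metric.ball_mem_nhds c hη] with z hz
  exact ⟨z, rfl, by rwa [← dist_eq_norm]⟩

lemma ev_inf (η : ℝ) : ∀ᶠ x in 𝓝 (OnePoint.infty : S),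
    x = OnePoint.infty ∨ ∃ u : ℂ, x = (u : S) ∧ 1 / η < ‖u‖ := by
  refine ev_infty_of (1 / η + 1) (Or.inl rfl) (fun z hz => Or.inr ⟨z, rfl, by linarith⟩)

lemma local_Q (hn : St_near) (hpp : St_PP) (h : unitInterval → (S ≃ₜ S))
    (hc : Continuous (fun p : unitInterval × S => h p.1 p.2)) (w : S) (t₀ : unitInterval) :
    ∀ᶠ t in 𝓝 t₀, Q (h t * (h t₀)⁻¹) (h t₀ w) := by
  obtain ⟨η, hη, hnear⟩ := hn
  obtain ⟨g, _, hg, _⟩ := hpp ((1 : ℂ) : S) (h t₀ w) ∅ ∅ (by simp) (by simp) (by simp) (by simp)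
  set F : unitInterval → (S ≃ₜ S) := fun t => g⁻¹ * h t * (h t₀)⁻¹ * g with hF
  have hFap : ∀ t z, F t z = g⁻¹ (h t ((h t₀)⁻¹ (g z))) := fun t z => rfl
  have hF0 : ∀ z, F t₀ z = z := by
    intro z
    rw [hFap, ap_inv, inv_ap]
  have hFc : Continuous (fun p : unitInterval × S => F p.1 p.2) := by
    have h1 : Continuous (fun p : unitInterval × S => (h t₀)⁻¹ (g p.2)) :=
      (h t₀)⁻¹.continuous.comp (g.continuous.comp continuous_snd)
    exact g⁻¹.continuous.comp (hc.comp (continuous_fst.prodMk h1))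
  have hpt : ∀ z : S, Tendsto (fun t => F t z) (𝓝 t₀) (𝓝 z) := by
    intro z
    have h1 : Continuous (fun t : unitInterval => F t z) := hFc.comp (continuous_id.prodMk continuous_const)
    have h2 := h1.tendsto t₀
    rwa [hF0 z] at h2
  have e0 : ∀ᶠ t in 𝓝 t₀, ∃ u : ℂ, F t ((0 : ℂ) : S) = (u : S) ∧ ‖u‖ < η := by
    have := (hpt ((0 : ℂ) : S)).eventually (ev_ball 0 hη)
    filter_upwards [this] with t ht
    obtain ⟨u, hu, hu2⟩ := ht
    exact ⟨u, hu, by rwa [sub_zero] at hu2⟩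
  have e1 : ∀ᶠ t in 𝓝 t₀, ∃ u : ℂ, F t ((1 : ℂ) : S) = (u : S) ∧ ‖u - 1‖ < η :=
    (hpt ((1 : ℂ) : S)).eventually (ev_ball 1 hη)
  have einf : ∀ᶠ t in 𝓝 t₀, F t OnePoint.infty = OnePoint.infty ∨
      ∃ u : ℂ, F t OnePoint.infty = (u : S) ∧ 1 / η < ‖u‖ :=
    (hpt OnePoint.infty).eventually (ev_inf η)
  have ecirc : ∀ᶠ t in 𝓝 t₀, ∀ z ∈ Metric.sphere (0 : ℂ) (1 / 2),
      ∃ u : ℂ, F t (z : S) = (u : S) ∧ ‖u - z‖ < η := by
    refine (isCompact_sphere (0 : ℂ) (1 / 2)).eventually_forall_of_forall_eventually ?_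
    intro z₀ _
    have h1 : Continuous (fun p : unitInterval × ℂ => F p.1 (p.2 : S)) :=
      hFc.comp (continuous_fst.prodMk (OnePoint.continuous_coe.comp continuous_snd))
    have h2 := h1.tendsto (t₀, z₀)
    simp only at h2
    rw [hF0] at h2
    have h3 := h2.eventually (ev_ball z₀ (half_pos hη))
    have h4 : ∀ᶠ p : unitInterval × ℂ in 𝓝 (t₀, z₀), p.2 ∈ Metric.ball z₀ (η / 2) :=
      (continuous_snd.tendsto (t₀, z₀)).eventually (Metric.ball_mem_nhds z₀ (half_pos hη))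
    filter_upwards [h3, h4] with p hp3 hp4
    obtain ⟨u, hu, hu2⟩ := hp3
    refine ⟨u, hu, ?_⟩
    rw [Metric.mem_ball, dist_eq_norm] at hp4
    calc ‖u - p.2‖ = ‖(u - z₀) - (p.2 - z₀)‖ := by ring_nf
      _ ≤ ‖u - z₀‖ + ‖p.2 - z₀‖ := norm_sub_le _ _
      _ < η := by linarith
  filter_upwards [e0, e1, einf, ecirc] with t h0 h1 hi hcc
  have hQ : Q (F t) ((1 : ℂ) : S) := by
    refine hnear (F t) h0 h1 hi ?_
    intro z hz
    exact hcc z (by rw [mem_sphere_zero_iff_norm]; exact hz)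
  have hQ2 := Q_conj hQ g
  rw [hg] at hQ2
  have e : g * F t * g⁻¹ = h t * (h t₀)⁻¹ := by
    rw [hF]
    group
  rwa [e] at hQ2

end PathC

theorem path (hn : St_near) (hm : St_mul) (hpp : St_PP) : St_path := by
  intro f hf w
  obtain ⟨h, hcont, h0, h1⟩ := hf
  have hc : Continuous (fun p : unitInterval × S => h p.1 p.2) :=
    ContinuousMap.continuous_uncurry_of_continuous ⟨_, hcont⟩
  have hloc : IsLocallyConstant (fun t => Q (h t) w) := by
    rw [IsLocallyConstant.iff_eventually_eq]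
    intro t₀
    filter_upwards [PathC.local_Q hn hpp h hc w t₀] with t ht
    rw [eq_iff_iff]
    constructor
    · intro hQ
      have h2 := Q_inv ht
      have e1 : (h t * (h t₀)⁻¹) (h t₀ w) = h t w := by
        rw [mul_ap, inv_ap]
      rw [e1] at h2
      have h3 := hm _ _ w hQ h2
      have e2 : (h t * (h t₀)⁻¹)⁻¹ * h t = h t₀ := by group
      rwa [e2] at h3
    · intro hQ
      have h3 := hm _ _ w hQ ht
      have e2 : (h t * (h t₀)⁻¹) * h t₀ = h t := by group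
      rwa [e2] at h3
  have h2 := hloc.apply_eq_of_preconnectedSpace 1 0
  have h3 : Q (h 0) w := by
    rw [h0]
    exact Q_of_GId GId_one w
  have h4 : Q (h 1) w := by
    rw [h2]
    exact h3
  rwa [h1] at h4

end Pool.Agent.NH50.SPH
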