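import Pool.Agent.NH50.SPH.Calc

/-!
# Project SPH: pushing points in the plane and in the sphere
-/

set_option autoImplicit false

open Set Filter Topology

noncomputable section

namespace Pool.Agent.NH50.SPH

namespace PushAux

/-- There is a homeomorphism of the plane which is the translation by `b - a` near `a`, the
identity near the points of `Z` and far away. -/
def Rel (Z : Finset ℂ) (a b : ℂ) : Prop :=
  ∃ κ : ℂ ≃ₜ ℂ, (∀ᶠ z in 𝓝 a, κ z = z + (b - a)) ∧ (∀ w ∈ Z, ∀ᶠ z in 𝓝 w, κ z = z) ∧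
    ∃ R : ℝ, ∀ z : ℂ, R ≤ ‖z‖ → κ z = z

theorem add_tendsto (a b : ℂ) : Tendsto (fun z : ℂ => z + (b - a)) (𝓝 a) (𝓝 b) := by
  have h : Continuous fun z : ℂ => z + (b - a) := by fun_prop
  have h2 := h.tendsto a
  have h3 : a + (b - a) = b := by ring
  rwa [h3] at h2

theorem rel_symm {Z : Finset ℂ} {a b : ℂ} (h : Rel Z a b) : Rel Z b a := by
  obtain ⟨κ, h1, h2, R, h3⟩ := h
  refine ⟨κ.symm, ?_, ?_, R, ?_⟩
  · filter_upwards [(add_tendsto b a).eventually h1] with z hz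
    have h4 : κ (z + (a - b)) = z := by rw [hz]; ring
    rw [← h4, κ.symm_apply_apply, h4]
  · intro w hw
    filter_upwards [h2 w hw] with z hz
    rw [← hz, κ.symm_apply_apply, hz]
  · intro z hz
    have h4 := h3 z hz
    rw [← h4, κ.symm_apply_apply, h4]

theorem rel_trans {Z : Finset ℂ} {a b c : ℂ} (h : Rel Z a b) (h' : Rel Z b c) : Rel Z a c := by
  obtain ⟨κ, h1, h2, R, h3⟩ := h
  obtain ⟨κ', h1', h2', R', h3'⟩ := h'
  refine ⟨κ.trans κ', ?_, ?_, max R R', ?_⟩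
  · filter_upwards [h1, (add_tendsto a b).eventually h1'] with z hz hz'
    show κ' (κ z) = z + (c - a)
    rw [hz, hz']
    ring
  · intro w hw
    filter_upwards [h2 w hw, h2' w hw] with z hz hz'
    show κ' (κ z) = z
    rw [hz, hz']
  · intro z hz
    show κ' (κ z) = z
    rw [h3 z (le_trans (le_max_left _ _) hz), h3' z (le_trans (le_max_right _ _) hz)]

theorem exists_radius (Z : Finset ℂ) (a : ℂ) (ha : a ∉ Z) :
    ∃ r : ℝ, 0 < r ∧ ∀ w ∈ Z, r < ‖w - a‖ := by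
  have h1 : (Z : Set ℂ)ᶜ ∈ 𝓝 a := Z.finite_toSet.isClosed.compl_mem_nhds (by simpa using ha)
  obtain ⟨r, hr, hsub⟩ := Metric.mem_nhds_iff.1 h1
  refine ⟨r / 2, by positivity, fun w hw => ?_⟩
  by_contra hcon
  push Not at hcon
  have h2 : w ∈ Metric.ball a r := by
    rw [Metric.mem_ball, dist_eq_norm]
    linarith
  exact hsub h2 (by simpa using hw)

theorem rel_local (hb : St_bump) (Z : Finset ℂ) (a : ℂ) (ha : a ∉ Z) :
    ∀ᶠ b in 𝓝 a, Rel Z a b := by
  obtain ⟨r, hr, hZ⟩ := exists_radius Z a ha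
  have h1 : ∀ᶠ b in 𝓝 a, ‖b - a‖ < r / 4 := by
    have := Metric.ball_mem_nhds a (show (0 : ℝ) < r / 4 by positivity)
    filter_upwards [this] with b hb
    rwa [Metric.mem_ball, dist_eq_norm] at hb
  filter_upwards [h1] with b hab
  obtain ⟨Φ, h2, h3⟩ := hb a (b - a) r hr hab
  refine ⟨Φ, ?_, ?_, ‖a‖ + r, ?_⟩
  · have := Metric.ball_mem_nhds a (show (0 : ℝ) < r / 2 by positivity)
    filter_upwards [this] with z hz
    rw [Metric.mem_ball, dist_eq_norm] at hz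
    exact h2 z hz.le
  · intro w hw
    have hc : Continuous fun z : ℂ => ‖z - a‖ := by fun_prop
    have h4 : ∀ᶠ z in 𝓝 w, r < ‖z - a‖ := (hc.tendsto w).eventually (lt_mem_nhds (hZ w hw))
    filter_upwards [h4] with z hz
    exact h3 z hz.le
  · intro z hz
    refine h3 z ?_
    have := norm_sub_norm_le z a
    linarith

end PushAux

open PushAux

theorem push (h : St_bump) : St_push := by
  intro Z a b ha hb
  have hconn : IsPreconnected ((Z : Set ℂ)ᶜ) :=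
    (Set.Countable.isConnected_compl_of_one_lt_rank (by simp)
      Z.finite_toSet.countable).isPreconnected
  have key : Rel Z a b := by
    refine hconn.induction₂' (Rel Z) ?_ ?_ (by simpa using ha) (by simpa using hb)
    · intro x hx
      refine eventually_nhdsWithin_of_eventually_nhds ?_
      filter_upwards [rel_local h Z x (by simpa using hx)] with y hy
      exact ⟨hy, rel_symm hy⟩
    · intro x y z _ _ _ hxy hyz
      exact rel_trans hxy hyz
  exact key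

namespace PushAux

/-- The finite points of a finite subset of the sphere. -/
def fin (Z : Finset S) : Finset ℂ :=
  Z.preimage (fun z : ℂ => (z : S)) (OnePoint.coe_injective.injOn)

theorem mem_fin {Z : Finset S} {z : ℂ} : z ∈ fin Z ↔ (z : S) ∈ Z := Finset.mem_preimage

/-- Near a point of `Z` the extension of a homeomorphism from `Rel` is the identity. -/
theorem ext_near (Z : Finset S) (κ : ℂ ≃ₜ ℂ) (h2 : ∀ w ∈ fin Z, ∀ᶠ z in 𝓝 w, κ z = z)
    (R : ℝ) (h3 : ∀ z : ℂ, R ≤ ‖z‖ → κ z = z) (w : S) (hw : w ∈ Z) :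
    ∀ᶠ z in 𝓝 w, ext κ z = z := by
  induction w using OnePoint.rec with
  | infty =>
    refine ev_infty_of R (ext_infty κ) fun z hz => ?_
    rw [ext_coe, h3 z hz]
  | coe w =>
    rw [ev_coe]
    filter_upwards [h2 w (mem_fin.2 hw)] with z hz
    rw [ext_coe, hz]

theorem pp_fin (h : St_push) (a b : ℂ) (Z₁ Z₂ : Finset S) (ha1 : (a : S) ∉ Z₁)
    (hb1 : (b : S) ∉ Z₁) (ha2 : (a : S) ∉ Z₂) (hb2 : (b : S) ∉ Z₂) :
    ∃ κ κ' : S ≃ₜ S, κ (a : S) = (b : S) ∧ (∀ w ∈ Z₁, ∀ᶠ z in 𝓝 w, κ z = z) ∧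
      (∀ w ∈ Z₂, ∀ᶠ z in 𝓝 w, κ' z = z) ∧ (∀ᶠ z in 𝓝 (a : S), κ' (κ z) = z) := by
  obtain ⟨κ, h1, h2, R, h3⟩ := h (fin Z₁) a b (fun hh => ha1 (mem_fin.1 hh))
    (fun hh => hb1 (mem_fin.1 hh))
  obtain ⟨κ', h1', h2', R', h3'⟩ := h (fin Z₂) b a (fun hh => hb2 (mem_fin.1 hh))
    (fun hh => ha2 (mem_fin.1 hh))
  refine ⟨ext κ, ext κ', ?_, ext_near Z₁ κ h2 R h3, ext_near Z₂ κ' h2' R' h3', ?_⟩
  · rw [ext_coe, h1.self_of_nhds]
    congr 1
    ring
  · rw [ev_coe]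
    filter_upwards [h1, (add_tendsto a b).eventually h1'] with z hz hz'
    rw [ext_coe, ext_coe, hz, hz']
    congr 1
    ring

theorem exists_q (Z : Finset S) : ∃ q : ℂ, (q : S) ∉ Z := by
  obtain ⟨q, hq⟩ := Infinite.exists_notMem_finset (fin Z)
  exact ⟨q, fun h => hq (mem_fin.2 h)⟩

theorem m_finite (q : ℂ) (z : S) (hz : z ≠ (q : S)) :
    ∃ w : ℂ, (J * ext (tr (-q))) z = (w : S) := by
  induction z using OnePoint.rec with
  | infty => exact ⟨0, by rw [mul_ap, ext_infty, J_infty]⟩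
  | coe z =>
    have h1 : z ≠ q := fun h => hz (by rw [h])
    have h2 : z + -q ≠ 0 := by
      intro h
      apply h1
      linear_combination h
    exact ⟨-(z + -q)⁻¹, by rw [mul_ap, ext_coe, tr_ap, J_coe _ h2]⟩

end PushAux

theorem pp (h : St_push) : St_PP := by
  classical
  intro a b Z₁ Z₂ ha1 hb1 ha2 hb2
  obtain ⟨q, hq⟩ := exists_q (insert a (insert b (Z₁ ∪ Z₂)))
  have hqa : a ≠ (q : S) := fun hh => hq (by rw [← hh]; simp)
  have hqb : b ≠ (q : S) := fun hh => hq (by rw [← hh]; simp)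
  set m : S ≃ₜ S := J * ext (tr (-q)) with hm
  obtain ⟨a', ha'⟩ := m_finite q a hqa
  obtain ⟨b', hb'⟩ := m_finite q b hqb
  rw [← hm] at ha' hb'
  clear_value m
  have hnot : ∀ (Z : Finset S) (c : S), c ∉ Z → m c ∉ Z.image m := by
    intro Z c hc hcon
    obtain ⟨d, hd, hdc⟩ := Finset.mem_image.1 hcon
    exact hc (m.injective hdc ▸ hd)
  obtain ⟨κ, κ', h1, h2, h3, h4⟩ := pp_fin h a' b' (Z₁.image m) (Z₂.image m)
    (ha' ▸ hnot Z₁ a ha1) (hb' ▸ hnot Z₁ b hb1) (ha' ▸ hnot Z₂ a ha2) (hb' ▸ hnot Z₂ b hb2)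
  refine ⟨m⁻¹ * κ * m, m⁻¹ * κ' * m, ?_, ?_, ?_, ?_⟩
  · rw [mul_ap, mul_ap, ha', h1, ← hb', inv_ap]
  · intro w hw
    filter_upwards [ev_comp m (h2 (m w) (Finset.mem_image_of_mem m hw))] with z hz
    rw [mul_ap, mul_ap, hz, inv_ap]
  · intro w hw
    filter_upwards [ev_comp m (h3 (m w) (Finset.mem_image_of_mem m hw))] with z hz
    rw [mul_ap, mul_ap, hz, inv_ap]
  · rw [← ha'] at h4
    filter_upwards [ev_comp m h4] with z hz
    rw [mul_ap, mul_ap, mul_ap, mul_ap, ap_inv, hz, inv_ap]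

end Pool.Agent.NH50.SPH
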