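import Pool.Agent.NH50.SPH.Calc

/-!
# Project SPH: slow functions
-/

set_option autoImplicit false

open Set Filter Topology

noncomputable section

namespace Pool.Agent.NH50.SPH

namespace Slo

/-- the values at the half integers -/
def sq (a : ℝ → ℝ) : ℕ → ℝ
  | 0 => 0
  | n + 1 => max (sq a n + 1) (a (sq a n))

variable (a : ℝ → ℝ)

theorem sq_succ (n : ℕ) : sq a n + 1 ≤ sq a (n + 1) := le_max_left _ _

theorem sq_a (n : ℕ) : a (sq a n) ≤ sq a (n + 1) := le_max_right _ _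

theorem sq_mono : Monotone (sq a) := monotone_nat_of_le_succ fun n => by
  have := sq_succ a n
  linarith

theorem sq_lt (n : ℕ) : sq a n < sq a (n + 1) := by
  have := sq_succ a n
  linarith

theorem sq_ge (n : ℕ) : (n : ℝ) ≤ sq a n := by
  induction n with
  | zero => simp [sq]
  | succ n ih =>
    have := sq_succ a n
    push_cast
    linarith

/-- piecewise linear interpolation -/
def cp (s : ℝ) : ℝ := sq a ⌊2 * s⌋₊ + (2 * s - ⌊2 * s⌋₊) * (sq a (⌊2 * s⌋₊ + 1) - sq a ⌊2 * s⌋₊)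

theorem cp_eq {s : ℝ} {n : ℕ} (h1 : (n : ℝ) ≤ 2 * s) (h2 : 2 * s < n + 1) :
    cp a s = sq a n + (2 * s - n) * (sq a (n + 1) - sq a n) := by
  have h : ⌊2 * s⌋₊ = n := (Nat.floor_eq_iff ((Nat.cast_nonneg n).trans h1)).2 ⟨h1, h2⟩
  rw [cp, h]

theorem cp_ge {s : ℝ} {n : ℕ} (h1 : (n : ℝ) ≤ 2 * s) (h2 : 2 * s < n + 1) : sq a n ≤ cp a s := by
  rw [cp_eq a h1 h2]
  have := sq_lt a n
  have : 0 ≤ (2 * s - n) * (sq a (n + 1) - sq a n) := mul_nonneg (by linarith) (by linarith)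
  linarith

theorem cp_lt {s : ℝ} {n : ℕ} (h1 : (n : ℝ) ≤ 2 * s) (h2 : 2 * s < n + 1) :
    cp a s < sq a (n + 1) := by
  rw [cp_eq a h1 h2]
  have := sq_lt a n
  have : (2 * s - n) * (sq a (n + 1) - sq a n) < 1 * (sq a (n + 1) - sq a n) :=
    mul_lt_mul_of_pos_right (by linarith) (by linarith)
  linarith

theorem fl {s : ℝ} (hs : 0 ≤ s) : ((⌊2 * s⌋₊ : ℕ) : ℝ) ≤ 2 * s ∧ 2 * s < (⌊2 * s⌋₊ : ℕ) + 1 :=
  ⟨Nat.floor_le (by linarith), Nat.lt_floor_add_one _⟩

theorem cp_strict {s t : ℝ} (hs : 0 ≤ s) (hst : s < t) : cp a s < cp a t := by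
  obtain ⟨h1, h2⟩ := fl hs
  obtain ⟨h3, h4⟩ := fl (hs.trans hst.le)
  rcases Nat.lt_or_ge ⌊2 * s⌋₊ ⌊2 * t⌋₊ with h | h
  · exact (cp_lt a h1 h2).trans_le ((sq_mono a h).trans (cp_ge a h3 h4))
  · have h5 : ⌊2 * t⌋₊ = ⌊2 * s⌋₊ := le_antisymm h (Nat.floor_le_floor (by linarith))
    rw [h5] at h3 h4
    rw [cp_eq a h1 h2, cp_eq a h3 h4]
    have := sq_lt a ⌊2 * s⌋₊
    have : (2 * s - (⌊2 * s⌋₊ : ℕ)) * (sq a (⌊2 * s⌋₊ + 1) - sq a ⌊2 * s⌋₊) <
        (2 * t - (⌊2 * s⌋₊ : ℕ)) * (sq a (⌊2 * s⌋₊ + 1) - sq a ⌊2 * s⌋₊) :=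
      mul_lt_mul_of_pos_right (by linarith) (by linarith)
    linarith

theorem cp_zero : cp a 0 = 0 := by
  rw [cp_eq a (n := 0) (by simp) (by simp)]
  simp [sq]

theorem cp_surj {y : ℝ} (hy : 0 ≤ y) : ∃ s : ℝ, 0 ≤ s ∧ cp a s = y := by
  have hex : ∃ n : ℕ, y < sq a n := by
    obtain ⟨n, hn⟩ := exists_nat_gt y
    exact ⟨n, hn.trans_le (sq_ge a n)⟩
  classical
  obtain ⟨n, hn1, hn2⟩ : ∃ n : ℕ, sq a n ≤ y ∧ y < sq a (n + 1) := by
    have h0 : Nat.find hex ≠ 0 := by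
      intro h
      have := Nat.find_spec hex
      rw [h] at this
      simp only [sq] at this
      linarith
    obtain ⟨n, hn⟩ := Nat.exists_eq_succ_of_ne_zero h0
    refine ⟨n, ?_, ?_⟩
    · have := Nat.find_min hex (m := n) (by omega)
      exact not_lt.1 this
    · have := Nat.find_spec hex
      rwa [hn] at this
  have hd : 0 < sq a (n + 1) - sq a n := by linarith [sq_lt a n]
  set u : ℝ := (y - sq a n) / (sq a (n + 1) - sq a n) with hu
  have hu0 : 0 ≤ u := div_nonneg (by linarith) hd.le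
  have hu1 : u < 1 := (div_lt_one hd).2 (by linarith)
  have hn0 : (0 : ℝ) ≤ n := Nat.cast_nonneg n
  refine ⟨(n + u) / 2, by positivity, ?_⟩
  rw [cp_eq a (n := n) (by linarith) (by linarith)]
  have : (2 * ((n + u) / 2) - n) * (sq a (n + 1) - sq a n) = y - sq a n := by
    have h1 : (2 * ((n + u) / 2) - n) = u := by ring
    rw [h1, hu, div_mul_cancel₀ _ hd.ne']
  rw [this]
  ring

/-- the inverse function -/
def chi (s : ℝ) : ℝ := if 0 ≤ s then cp a s else -cp a (-s)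

theorem chi_neg (s : ℝ) : chi a (-s) = -chi a s := by
  unfold chi
  rcases lt_trichotomy s 0 with h | h | h
  · rw [if_pos (by linarith), if_neg (by linarith), neg_neg]
  · subst h
    simp [cp_zero]
  · rw [if_neg (by linarith), if_pos h.le, neg_neg]

theorem chi_strict : StrictMono (chi a) := by
  intro s t hst
  unfold chi
  by_cases hs : 0 ≤ s
  · rw [if_pos hs, if_pos (hs.trans hst.le)]
    exact cp_strict a hs hst
  · rw [if_neg hs]
    by_cases ht : 0 ≤ t
    · rw [if_pos ht]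
      have h1 := cp_strict a le_rfl (by linarith : (0 : ℝ) < -s)
      rw [cp_zero] at h1
      have h2 : 0 ≤ cp a t := by
        rcases ht.eq_or_lt with h | h
        · rw [← h, cp_zero]
        · have := cp_strict a le_rfl h
          rw [cp_zero] at this
          exact this.le
      linarith
    · rw [if_neg ht]
      have := cp_strict a (by linarith : (0 : ℝ) ≤ -t) (by linarith : -t < -s)
      linarith

theorem chi_surj : Function.Surjective (chi a) := by
  have h1 : ∀ y : ℝ, 0 ≤ y → ∃ s, chi a s = y := by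
    intro y hy
    obtain ⟨s, hs, h⟩ := cp_surj a hy
    exact ⟨s, by rw [chi, if_pos hs, h]⟩
  intro y
  rcases le_total 0 y with h | h
  · exact h1 y h
  · obtain ⟨s, hs⟩ := h1 (-y) (by linarith)
    exact ⟨-s, by rw [chi_neg, hs, neg_neg]⟩

end Slo

open Slo in
/-- slow functions -/
theorem slow : St_slow := by
  intro a ha
  let e : ℝ ≃o ℝ := StrictMono.orderIsoOfSurjective (chi a) (chi_strict a) (chi_surj a)
  have he : ∀ s, e s = chi a s := fun s => rfl
  refine ⟨e.symm, fun x => ?_, fun r hr => ?_⟩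
  · rw [OrderIso.symm_apply_eq, he, chi_neg, ← he, OrderIso.apply_symm_apply]
  · rw [OrderIso.symm_apply_le, he]
    set s := e.symm r with hs
    have hrs : chi a s = r := by rw [← he, hs, OrderIso.apply_symm_apply]
    have hs0 : 0 ≤ s := by
      have h1 : e 0 = 0 := by rw [he, chi, if_pos le_rfl, cp_zero]
      rw [hs, OrderIso.le_symm_apply, h1]
      exact hr
    obtain ⟨h1, h2⟩ := fl hs0
    have h3 : r < sq a (⌊2 * s⌋₊ + 1) := by
      rw [← hrs, chi, if_pos hs0]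
      exact cp_lt a h1 h2
    have h4 : a r ≤ sq a (⌊2 * s⌋₊ + 1 + 1) := (ha r _ hr h3.le).trans (sq_a a _)
    refine h4.trans ?_
    rw [chi, if_pos (by linarith)]
    exact cp_ge a (by push_cast; linarith) (by push_cast; linarith)

end Pool.Agent.NH50.SPH
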