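import Pool.Agent.NH50.SPH.Defs

/-!
# Project SPH (MP_c6d336_gt): statements of the parts
-/

set_option autoImplicit false

open Set Filter Topology

noncomputable section

namespace Pool.Agent.NH50.SPH

/-! ## Part P2: cut-off homeomorphisms of the plane -/

/-- A germ with strict derivative the identity at `0` is the germ of a homeomorphism of the plane
which is a translation far away. -/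
def St_strict : Prop :=
  ∀ g : ℂ → ℂ, HasStrictFDerivAt g (ContinuousLinearMap.id ℝ ℂ) 0 →
    ∃ Φ : ℂ ≃ₜ ℂ, (∀ᶠ z in 𝓝 (0 : ℂ), Φ z = g z) ∧ ∃ R : ℝ, ∀ z : ℂ, R ≤ ‖z‖ → Φ z = z + g 0

/-- A small translation near `c`, the identity outside the disc of radius `r`. -/
def St_bump : Prop :=
  ∀ (c a : ℂ) (r : ℝ), 0 < r → ‖a‖ < r / 4 →
    ∃ Φ : ℂ ≃ₜ ℂ, (∀ z, ‖z - c‖ ≤ r / 2 → Φ z = z + a) ∧ (∀ z, r ≤ ‖z - c‖ → Φ z = z)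

/-! ## Part P3: pushing points -/

def St_push : Prop :=
  ∀ (Z : Finset ℂ) (a b : ℂ), a ∉ Z → b ∉ Z →
    ∃ κ : ℂ ≃ₜ ℂ, (∀ᶠ z in 𝓝 a, κ z = z + (b - a)) ∧ (∀ w ∈ Z, ∀ᶠ z in 𝓝 w, κ z = z) ∧
      ∃ R : ℝ, ∀ z : ℂ, R ≤ ‖z‖ → κ z = z

def St_PP : Prop :=
  ∀ (a b : S) (Z₁ Z₂ : Finset S), a ∉ Z₁ → b ∉ Z₁ → a ∉ Z₂ → b ∉ Z₂ →
    ∃ κ κ' : S ≃ₜ S, κ a = b ∧ (∀ w ∈ Z₁, ∀ᶠ z in 𝓝 w, κ z = z) ∧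
      (∀ w ∈ Z₂, ∀ᶠ z in 𝓝 w, κ' z = z) ∧ (∀ᶠ z in 𝓝 a, κ' (κ z) = z)

/-! ## Part P5: calculus of `Q` (conjugation, inverse and germ invariance are in `Calc.lean`) -/

def St_loc2 : Prop :=
  ∀ (f : S ≃ₜ S) (w v₁ v₂ : S), Q f w → v₁ ≠ v₂ → v₁ ≠ w → v₁ ≠ f w → v₂ ≠ w → v₂ ≠ f w →
    ∃ Φ : S ≃ₜ S, (∀ᶠ z in 𝓝 w, Φ z = f z) ∧ (∀ᶠ z in 𝓝 v₁, Φ z = z) ∧
      (∀ᶠ z in 𝓝 v₂, Φ z = z)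

def St_mul : Prop :=
  ∀ (f g : S ≃ₜ S) (w : S), Q g w → Q f (g w) → Q (f * g) w

/-! ## Part P6: normal forms -/

def St_NF1 : Prop :=
  ∀ f : S ≃ₜ S, (∀ w, Q f w) → ∀ x, f x ≠ x → ∀ g : S ≃ₜ S, g ((0 : ℂ) : S) = ((1 : ℂ) : S) →
    Q g ((0 : ℂ) : S) → ∃ H : S ≃ₜ S, ∀ᶠ z in 𝓝 ((0 : ℂ) : S), (H * f * H⁻¹) z = g z

def St_NF2 : Prop :=
  ∀ f : S ≃ₜ S, (∀ w, Q f w) → ∀ x, f x ≠ x → f (f x) ≠ x → ∀ g₁ g₂ : S ≃ₜ S,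
    g₁ ((0 : ℂ) : S) = ((1 : ℂ) : S) → g₂ ((0 : ℂ) : S) = ((-1 : ℂ) : S) →
    Q g₁ ((0 : ℂ) : S) → Q g₂ ((0 : ℂ) : S) →
    ∃ H : S ≃ₜ S, (∀ᶠ z in 𝓝 ((0 : ℂ) : S), (H * f * H⁻¹) z = g₁ z) ∧
      (∀ᶠ z in 𝓝 ((0 : ℂ) : S), (H * f⁻¹ * H⁻¹) z = g₂ z)

/-! ## Part P7: lifting through the exponential -/

def St_lift : Prop :=
  ∀ k : S ≃ₜ S, k ((0 : ℂ) : S) = ((0 : ℂ) : S) → k ((1 : ℂ) : S) = ((1 : ℂ) : S) →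
    k OnePoint.infty = OnePoint.infty →
    (∀ z : ℂ, ‖z‖ = 1 / 2 → ∃ w : ℂ, k (z : S) = (w : S) ∧ ‖w - z‖ < 1 / 2) →
    ∃ K : ℂ ≃ₜ ℂ, (∀ ζ : ℂ, k ((Complex.exp ζ : ℂ) : S) = ((Complex.exp (K ζ) : ℂ) : S)) ∧
      K 0 = 0 ∧
      (∀ ζ : ℂ, K (ζ + 2 * Real.pi * Complex.I) = K ζ + 2 * Real.pi * Complex.I) ∧
      (∀ m : ℝ, ∃ X : ℝ, ∀ ζ : ℂ, X ≤ ζ.re → m ≤ (K ζ).re) ∧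
      (∀ m : ℝ, ∃ X : ℝ, ∀ ζ : ℂ, ζ.re ≤ X → (K ζ).re ≤ m)

/-! ## Part P8: slow functions -/

def St_slow : Prop :=
  ∀ a : ℝ → ℝ, (∀ r s : ℝ, 0 ≤ r → r ≤ s → a r ≤ a s) →
    ∃ φ : ℝ ≃o ℝ, (∀ x, φ (-x) = -φ x) ∧ ∀ r : ℝ, 0 ≤ r → φ (a r) ≤ φ r + 1

/-! ## Part P9: conjugating a periodic homeomorphism to sublinear displacement -/

def St_disp : Prop :=
  ∀ K : ℂ ≃ₜ ℂ,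
    (∀ ζ : ℂ, K (ζ + 2 * Real.pi * Complex.I) = K ζ + 2 * Real.pi * Complex.I) →
    (∀ m : ℝ, ∃ X : ℝ, ∀ ζ : ℂ, X ≤ ζ.re → m ≤ (K ζ).re) →
    (∀ m : ℝ, ∃ X : ℝ, ∀ ζ : ℂ, ζ.re ≤ X → (K ζ).re ≤ m) →
    ∃ (Λ : ℂ ≃ₜ ℂ) (C : ℝ), ∀ p : ℂ, ‖Λ (K (Λ.symm p)) - p‖ ≤ C * (1 + √‖p‖)

/-! ## Part P10: homeomorphisms of the plane with sublinear displacement -/

def St_sub : Prop :=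
  ∀ (H : ℂ ≃ₜ ℂ) (C : ℝ), (∀ p : ℂ, ‖H p - p‖ ≤ C * (1 + √‖p‖)) → ∀ p : ℂ, Q (ext H) (p : S)

/-! ## Part P11: homeomorphisms close to the identity -/

def St_near : Prop :=
  ∃ η : ℝ, 0 < η ∧ ∀ f : S ≃ₜ S,
    (∃ u : ℂ, f ((0 : ℂ) : S) = (u : S) ∧ ‖u‖ < η) →
    (∃ u : ℂ, f ((1 : ℂ) : S) = (u : S) ∧ ‖u - 1‖ < η) →
    (f OnePoint.infty = OnePoint.infty ∨ ∃ u : ℂ, f OnePoint.infty = (u : S) ∧ 1 / η < ‖u‖) →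
    (∀ z : ℂ, ‖z‖ = 1 / 2 → ∃ w : ℂ, f (z : S) = (w : S) ∧ ‖w - z‖ < η) →
    Q f ((1 : ℂ) : S)

/-! ## Part P12: the path component of the identity -/

def St_path : Prop := ∀ f ∈ G S, ∀ w : S, Q f w

/-! ## Part P13: the main construction -/

def St_dyn : Prop :=
  ∀ (C : S ≃ₜ S) (L r : ℝ) (a : ℂ), 3 ≤ r → 2 * r ≤ L → r + 1 ≤ ‖a‖ →
    (∀ z : ℂ, ‖z‖ ≤ r → C (z : S) = ((-(z + L)⁻¹ : ℂ) : S)) →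
    (∀ w : ℂ, r ≤ ‖w‖ → C⁻¹ (w : S) = ((a - w⁻¹ : ℂ) : S)) →
    C⁻¹ OnePoint.infty = (a : S) → ∃ K : S ≃ₜ S, C = K * M L * K⁻¹

def St_KC : Prop :=
  ∀ A B : S ≃ₜ S, (∀ w, Q A w) → (∀ w, Q B w) → A ≠ 1 → B ≠ 1 →
    ∃ L₀ : ℝ, ∀ L : ℝ, L₀ ≤ L → ∃ H K : S ≃ₜ S, B * (H * A * H⁻¹) = K * M L * K⁻¹

/-! ## Part P14: the lower bound -/

def St_low : Prop :=
  ∃ A ∈ G S, ∃ B ∈ G S, A ≠ 1 ∧ B ≠ 1 ∧ (∀ H : S ≃ₜ S, B ≠ H * A * H⁻¹) ∧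
    ∀ H₁ H₂ : S ≃ₜ S, B ≠ (H₁ * A * H₁⁻¹) * (H₂ * A * H₂⁻¹)

end Pool.Agent.NH50.SPH
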