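import Pool.Agent.NH50.SPH.Calc

/-!
# Project SPH: homeomorphisms of the plane with sublinear displacement
-/

set_option autoImplicit false

open Set Filter Topology

noncomputable section

namespace Pool.Agent.NH50.SPH

namespace Sub

/-- radial compression onto the open unit ball -/
def R (p : ℂ) : ℂ := ((1 + ‖p‖)⁻¹ : ℝ) • p

/-- its inverse -/
def Ri (q : ℂ) : ℂ := ((1 - ‖q‖)⁻¹ : ℝ) • q

theorem norm_R (p : ℂ) : ‖R p‖ = ‖p‖ / (1 + ‖p‖) := by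
  have h : 0 < 1 + ‖p‖ := by positivity
  rw [R, norm_smul, Real.norm_of_nonneg (by positivity)]
  field_simp

theorem norm_R_lt (p : ℂ) : ‖R p‖ < 1 := by
  rw [norm_R, div_lt_one (by positivity)]
  linarith

theorem Ri_R (p : ℂ) : Ri (R p) = p := by
  have h : 0 < 1 + ‖p‖ := by positivity
  rw [Ri, norm_R, R, smul_smul]
  have : (1 - ‖p‖ / (1 + ‖p‖))⁻¹ * (1 + ‖p‖)⁻¹ = (1 : ℝ) := by
    field_simp
    ring
  rw [this, one_smul]

theorem R_Ri {q : ℂ} (hq : ‖q‖ < 1) : R (Ri q) = q := by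
  have h : 0 < 1 - ‖q‖ := by linarith
  have h1 : ‖Ri q‖ = ‖q‖ / (1 - ‖q‖) := by
    rw [Ri, norm_smul, Real.norm_of_nonneg (by positivity)]
    field_simp
  rw [R, h1, Ri, smul_smul]
  have : (1 + ‖q‖ / (1 - ‖q‖))⁻¹ * (1 - ‖q‖)⁻¹ = (1 : ℝ) := by
    field_simp
    ring
  rw [this, one_smul]

theorem norm_Ri {q : ℂ} (hq : ‖q‖ < 1) : ‖Ri q‖ = ‖q‖ / (1 - ‖q‖) := by
  have h : 0 < 1 - ‖q‖ := by linarith
  rw [Ri, norm_smul, Real.norm_of_nonneg (by positivity)]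
  field_simp

theorem R_cont : Continuous R := by
  unfold R
  have : ∀ p : ℂ, 1 + ‖p‖ ≠ 0 := fun p => by positivity
  fun_prop (disch := assumption)

theorem R_sub (p p' : ℂ) : ‖R p' - R p‖ ≤ 2 * ‖p' - p‖ / (1 + ‖p'‖) := by
  have h : 0 < 1 + ‖p‖ := by positivity
  have h' : 0 < 1 + ‖p'‖ := by positivity
  have e : R p' - R p = ((1 + ‖p'‖)⁻¹ : ℝ) • (p' - p) +
      ((‖p‖ - ‖p'‖) * ((1 + ‖p‖)⁻¹ * (1 + ‖p'‖)⁻¹) : ℝ) • p := by
    have e1 : (1 + ‖p‖)⁻¹ = (1 + ‖p'‖)⁻¹ -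
        (‖p‖ - ‖p'‖) * ((1 + ‖p‖)⁻¹ * (1 + ‖p'‖)⁻¹) := by
      field_simp
      ring
    rw [R, R]
    conv_lhs => rw [e1]
    module
  rw [e]
  refine (norm_add_le _ _).trans ?_
  rw [norm_smul, norm_smul, Real.norm_of_nonneg (by positivity : (0 : ℝ) ≤ (1 + ‖p'‖)⁻¹),
    norm_mul, Real.norm_of_nonneg (by positivity : (0 : ℝ) ≤ (1 + ‖p‖)⁻¹ * (1 + ‖p'‖)⁻¹)]
  have h2 : ‖‖p‖ - ‖p'‖‖ ≤ ‖p' - p‖ := by
    rw [norm_sub_rev p' p]
    exact abs_norm_sub_norm_le p p'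
  have h3 : (1 + ‖p‖)⁻¹ * ‖p‖ ≤ 1 := by
    rw [inv_mul_le_iff₀ h]
    linarith
  have h4 : ‖‖p‖ - ‖p'‖‖ * ((1 + ‖p‖)⁻¹ * (1 + ‖p'‖)⁻¹) * ‖p‖ ≤ ‖p' - p‖ * (1 + ‖p'‖)⁻¹ := by
    calc ‖‖p‖ - ‖p'‖‖ * ((1 + ‖p‖)⁻¹ * (1 + ‖p'‖)⁻¹) * ‖p‖
        = ‖‖p‖ - ‖p'‖‖ * ((1 + ‖p‖)⁻¹ * ‖p‖) * (1 + ‖p'‖)⁻¹ := by ring
      _ ≤ ‖p' - p‖ * 1 * (1 + ‖p'‖)⁻¹ := by gcongr
      _ = _ := by ring
  have h5 : 2 * ‖p' - p‖ / (1 + ‖p'‖) = (1 + ‖p'‖)⁻¹ * ‖p' - p‖ + ‖p' - p‖ * (1 + ‖p'‖)⁻¹ := by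
    field_simp
    ring
  rw [h5]
  linarith

/-- the compressed map -/
def g (H : ℂ ≃ₜ ℂ) (q : ℂ) : ℂ := if ‖q‖ < 1 then R (H (Ri q)) else q

theorem g_lt {H : ℂ ≃ₜ ℂ} {q : ℂ} (hq : ‖q‖ < 1) : g H q = R (H (Ri q)) := if_pos hq

theorem g_ge {H : ℂ ≃ₜ ℂ} {q : ℂ} (hq : 1 ≤ ‖q‖) : g H q = q := if_neg (not_lt.2 hq)

theorem g_g (H : ℂ ≃ₜ ℂ) (q : ℂ) : g H.symm (g H q) = q := by
  by_cases hq : ‖q‖ < 1
  · rw [g_lt hq, g_lt (norm_R_lt _), Ri_R, H.symm_apply_apply, R_Ri hq]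
  · rw [g_ge (not_lt.1 hq), g_ge (not_lt.1 hq)]

theorem g_cont (H : ℂ ≃ₜ ℂ) (C : ℝ) (hH : ∀ p : ℂ, ‖H p - p‖ ≤ C * (1 + √‖p‖)) :
    Continuous (g H) := by
  rw [continuous_iff_continuousAt]
  intro q
  rcases lt_trichotomy ‖q‖ 1 with hq | hq | hq
  · have h1 : ContinuousAt (fun q => R (H (Ri q))) q := by
      refine R_cont.continuousAt.comp (H.continuous.continuousAt.comp ?_)
      unfold Ri
      have : (1 - ‖q‖) ≠ 0 := by linarith
      fun_prop (disch := assumption)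
    refine h1.congr ?_
    have : ∀ᶠ z in 𝓝 q, ‖z‖ < 1 := continuous_norm.tendsto q |>.eventually_lt_const hq
    filter_upwards [this] with z hz using (g_lt hz).symm
  · -- the boundary
    rw [ContinuousAt, g_ge hq.ge]
    have key : Tendsto (fun z => g H z - z) (𝓝 q) (𝓝 0) := by
      have hC : 0 ≤ C := by
        have := (norm_nonneg _).trans (hH 0)
        simpa using this
      -- bound
      have b : ∀ z : ℂ, 3 / 4 ≤ ‖z‖ → ‖z‖ < 1 → ∀ p, p = Ri z → 4 * C * (1 + √‖p‖) ≤ 1 + ‖p‖ →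
          ‖g H z - z‖ ≤ 4 * C * (1 + √‖p‖) / (1 + ‖p‖) := by
        intro z hz1 hz2 p hp h4
        rw [g_lt hz2, ← hp]
        have hz : z = R p := by rw [hp, R_Ri hz2]
        conv_lhs => rw [hz]
        refine (R_sub _ _).trans ?_
        have h5 := hH p
        have h6 : ‖p‖ - ‖H p‖ ≤ ‖H p - p‖ := by
          rw [norm_sub_rev]; exact norm_sub_norm_le _ _
        have h7 : (1 + ‖p‖) / 2 ≤ 1 + ‖H p‖ := by
          have h9 : 4 * (C * (1 + √‖p‖)) ≤ 1 + ‖p‖ := by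
            calc 4 * (C * (1 + √‖p‖)) = 4 * C * (1 + √‖p‖) := by ring
              _ ≤ _ := h4
          have h10 : 0 ≤ ‖p‖ := norm_nonneg p
          generalize C * (1 + √‖p‖) = c at h5 h9
          linarith
        have h8 : 0 < 1 + ‖p‖ := by positivity
        calc 2 * ‖H p - p‖ / (1 + ‖H p‖) ≤ 2 * (C * (1 + √‖p‖)) / ((1 + ‖p‖) / 2) := by
              gcongr
          _ = 4 * C * (1 + √‖p‖) / (1 + ‖p‖) := by
              field_simp
              ring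
      -- limit of the bound
      have l : Tendsto (fun t : ℝ => 4 * C * (1 + √t) / (1 + t)) atTop (𝓝 0) := by
        have l1 : Tendsto (fun t : ℝ => 8 * C / √t) atTop (𝓝 0) :=
          Tendsto.const_div_atTop Real.tendsto_sqrt_atTop _
        refine squeeze_zero' ?_ ?_ l1
        · filter_upwards [eventually_ge_atTop 0] with t ht
          positivity
        · filter_upwards [eventually_ge_atTop 1] with t ht
          have h1 : 1 ≤ √t := Real.one_le_sqrt.2 ht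
          have h2 : √t * √t = t := Real.mul_self_sqrt (by linarith)
          rw [div_le_div_iff₀ (by linarith) (by linarith)]
          nlinarith [mul_nonneg hC (by linarith : (0 : ℝ) ≤ √t - 1), mul_nonneg hC (by linarith : (0 : ℝ) ≤ t), mul_nonneg hC (by linarith : (0 : ℝ) ≤ √t)]
      rw [Metric.tendsto_nhds_nhds]
      intro ε hε
      have e1 := (l.eventually_lt_const hε).and
        ((l.eventually_lt_const one_pos).and (eventually_ge_atTop 0))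
      obtain ⟨T, hT⟩ := eventually_atTop.1 e1
      -- near q, either ‖z‖ ≥ 1 or ‖Ri z‖ ≥ T
      have hT1 : 0 < (1 + (max T 1)) := by positivity
      refine ⟨min (1 / 4) (1 / (1 + (max T 1))), by positivity, ?_⟩
      intro z hz
      rw [dist_zero_right]
      by_cases hz1 : ‖z‖ < 1
      · have d1 : 1 - ‖z‖ ≤ dist z q := by
          rw [dist_comm, dist_eq_norm, ← hq]; exact norm_sub_norm_le _ _
        have d2 : 1 - ‖z‖ < 1 / 4 := lt_of_le_of_lt d1 (hz.trans_le (min_le_left _ _))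
        have d3 : 1 - ‖z‖ < 1 / (1 + (max T 1)) :=
          lt_of_le_of_lt d1 (hz.trans_le (min_le_right _ _))
        have d4 : T ≤ ‖Ri z‖ := by
          rw [norm_Ri hz1, le_div_iff₀ (by linarith)]
          rw [lt_div_iff₀ hT1] at d3
          have : T ≤ max T 1 := le_max_left _ _
          have : 1 ≤ max T 1 := le_max_right _ _
          nlinarith
        obtain ⟨t1, t2, t3⟩ := hT _ d4
        have t4 : 4 * C * (1 + √‖Ri z‖) ≤ 1 + ‖Ri z‖ := by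
          rw [div_lt_one (by positivity)] at t2
          exact t2.le
        exact (b z (by linarith) hz1 _ rfl t4).trans_lt t1
      · rw [g_ge (not_lt.1 hz1), sub_self, norm_zero]
        exact hε
    have := key.add (tendsto_id (α := ℂ) (x := 𝓝 q))
    simpa using this
  · refine (continuousAt_id (x := q)).congr ?_
    have : ∀ᶠ z in 𝓝 q, 1 < ‖z‖ := continuous_norm.tendsto q |>.eventually_const_lt hq
    filter_upwards [this] with z hz using (g_ge hz.le).symm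

/-- the compressed map on the sphere -/
def gS (H : ℂ ≃ₜ ℂ) (z : S) : S := z.elim OnePoint.infty (fun w : ℂ => ((g H w : ℂ) : S))

theorem gS_infty (H : ℂ ≃ₜ ℂ) : gS H OnePoint.infty = OnePoint.infty := rfl

theorem gS_coe (H : ℂ ≃ₜ ℂ) (w : ℂ) : gS H (w : S) = ((g H w : ℂ) : S) := rfl

theorem gS_gS (H : ℂ ≃ₜ ℂ) (z : S) : gS H.symm (gS H z) = z := by
  induction z using OnePoint.rec with
  | infty => rfl
  | coe z => rw [gS_coe, gS_coe, g_g]

theorem gS_cont (H : ℂ ≃ₜ ℂ) (C : ℝ) (hH : ∀ p : ℂ, ‖H p - p‖ ≤ C * (1 + √‖p‖)) :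
    Continuous (gS H) := by
  rw [continuous_iff_continuousAt]
  intro z
  induction z using OnePoint.rec with
  | infty =>
    have h : ∀ᶠ z in 𝓝 (OnePoint.infty : S), gS H z = z :=
      ev_infty_of 1 rfl fun z hz => by rw [gS_coe, g_ge hz]
    refine (continuousAt_id (x := OnePoint.infty)).congr ?_
    filter_upwards [h] with z hz using hz.symm
  | coe z =>
    rw [OnePoint.continuousAt_coe]
    exact (OnePoint.continuous_coe.comp (g_cont H C hH)).continuousAt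

/-- the compressed homeomorphism of the sphere -/
def gH (H : ℂ ≃ₜ ℂ) (C : ℝ) (hH : ∀ p : ℂ, ‖H p - p‖ ≤ C * (1 + √‖p‖)) : S ≃ₜ S :=
  Continuous.homeoOfEquivCompactToT2
    (f := ⟨gS H, gS H.symm, gS_gS H, fun z => by
      have := gS_gS H.symm z
      rwa [Homeomorph.symm_symm] at this⟩) (gS_cont H C hH)

theorem gH_ap (H : ℂ ≃ₜ ℂ) (C : ℝ) (hH : ∀ p : ℂ, ‖H p - p‖ ≤ C * (1 + √‖p‖)) (z : S) :
    gH H C hH z = gS H z := rfl

/-- `R` cut off at radius `ρ` -/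
def Rh (ρ : ℝ) (p : ℂ) : ℂ := ((1 + min ‖p‖ ρ)⁻¹ : ℝ) • p

def Rhi (ρ : ℝ) (q : ℂ) : ℂ := ((1 - min ‖q‖ (ρ / (1 + ρ)))⁻¹ : ℝ) • q

theorem norm_Rh {ρ : ℝ} (hρ : 0 < ρ) (p : ℂ) : ‖Rh ρ p‖ = ‖p‖ / (1 + min ‖p‖ ρ) := by
  have h : 0 ≤ min ‖p‖ ρ := le_min (norm_nonneg _) hρ.le
  rw [Rh, norm_smul, Real.norm_of_nonneg (by positivity)]
  field_simp

theorem Rhi_Rh {ρ : ℝ} (hρ : 0 < ρ) (p : ℂ) : Rhi ρ (Rh ρ p) = p := by
  have h0 : 0 ≤ ‖p‖ := norm_nonneg _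
  have hm : min ‖Rh ρ p‖ (ρ / (1 + ρ)) = min ‖p‖ ρ / (1 + min ‖p‖ ρ) := by
    rw [norm_Rh hρ]
    rcases le_total ‖p‖ ρ with h | h
    · rw [min_eq_left h, min_eq_left]
      rw [div_le_div_iff₀ (by positivity) (by positivity)]
      nlinarith
    · rw [min_eq_right h, min_eq_right]
      gcongr
  rw [Rhi, hm, Rh, smul_smul]
  have h : 0 ≤ min ‖p‖ ρ := le_min (norm_nonneg _) hρ.le
  have : (1 - min ‖p‖ ρ / (1 + min ‖p‖ ρ))⁻¹ * (1 + min ‖p‖ ρ)⁻¹ = (1 : ℝ) := by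
    generalize min ‖p‖ ρ = m at *
    have : 0 < 1 + m := by positivity
    field_simp
    ring
  rw [this, one_smul]

theorem Rh_Rhi {ρ : ℝ} (hρ : 0 < ρ) (q : ℂ) : Rh ρ (Rhi ρ q) = q := by
  have h0 : 0 ≤ ‖q‖ := norm_nonneg _
  set m := min ‖q‖ (ρ / (1 + ρ)) with hmdef
  have hr : ρ / (1 + ρ) < 1 := by rw [div_lt_one (by positivity)]; linarith
  have hm0 : 0 ≤ m := le_min h0 (by positivity)
  have hm1 : m < 1 := lt_of_le_of_lt (min_le_right _ _) hr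
  have h1 : 0 < 1 - m := by linarith
  have hn : ‖Rhi ρ q‖ = ‖q‖ / (1 - m) := by
    rw [Rhi, ← hmdef, norm_smul, Real.norm_of_nonneg (by positivity)]
    field_simp
  have hm : min ‖Rhi ρ q‖ ρ = m / (1 - m) := by
    rw [hn]
    rcases le_total ‖q‖ (ρ / (1 + ρ)) with h | h
    · have e : m = ‖q‖ := min_eq_left h
      rw [e] at h1 ⊢
      refine min_eq_left ?_
      rw [div_le_iff₀ h1]
      rw [le_div_iff₀ (by positivity)] at h
      nlinarith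
    · have e : m = ρ / (1 + ρ) := min_eq_right h
      have e2 : m / (1 - m) = ρ := by
        rw [e]
        have : 0 < 1 + ρ := by positivity
        field_simp
        ring
      rw [e2]
      refine min_eq_right ?_
      calc ρ = m / (1 - m) := e2.symm
        _ ≤ ‖q‖ / (1 - m) := by
          have : m ≤ ‖q‖ := min_le_left _ _
          gcongr
  rw [Rh, hm, Rhi, ← hmdef, smul_smul]
  have : (1 + m / (1 - m))⁻¹ * (1 - m)⁻¹ = (1 : ℝ) := by
    field_simp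
    ring
  rw [this, one_smul]

def RhH {ρ : ℝ} (hρ : 0 < ρ) : ℂ ≃ₜ ℂ where
  toFun := Rh ρ
  invFun := Rhi ρ
  left_inv := Rhi_Rh hρ
  right_inv := Rh_Rhi hρ
  continuous_toFun := by
    unfold Rh
    have : ∀ p : ℂ, 1 + min ‖p‖ ρ ≠ 0 := fun p => by
      have : 0 ≤ min ‖p‖ ρ := le_min (norm_nonneg _) hρ.le
      positivity
    fun_prop (disch := assumption)
  continuous_invFun := by
    unfold Rhi
    have hr : ρ / (1 + ρ) < 1 := by rw [div_lt_one (by positivity)]; linarith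
    have : ∀ q : ℂ, 1 - min ‖q‖ (ρ / (1 + ρ)) ≠ 0 := fun q => by
      have : min ‖q‖ (ρ / (1 + ρ)) ≤ ρ / (1 + ρ) := min_le_right _ _
      linarith
    fun_prop (disch := assumption)

theorem RhH_ap {ρ : ℝ} (hρ : 0 < ρ) {p : ℂ} (hp : ‖p‖ ≤ ρ) : RhH hρ p = R p := by
  show Rh ρ p = R p
  rw [Rh, min_eq_left hp, R]

end Sub

open Pool.Agent.NH50.SPH.Sub in
theorem sub : St_sub := by
  intro H C hH p
  set ρ := max ‖p‖ ‖H p‖ + 1 with hρdef
  have hρ : 0 < ρ := by positivity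
  refine ⟨(ext (RhH hρ))⁻¹ * gH H C hH * ext (RhH hρ), ?_, ?_⟩
  · rw [ev_coe]
    have h1 : ∀ᶠ z : ℂ in 𝓝 p, ‖z‖ < ρ :=
      continuous_norm.tendsto p |>.eventually_lt_const (by
        have := le_max_left ‖p‖ ‖H p‖; linarith)
    have h2 : ∀ᶠ z : ℂ in 𝓝 p, ‖H z‖ < ρ :=
      (continuous_norm.comp H.continuous).tendsto p |>.eventually_lt_const (by
        have := le_max_right ‖p‖ ‖H p‖
        show ‖H p‖ < ρ
        linarith)
    filter_upwards [h1, h2] with z hz1 hz2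
    rw [mul_ap, mul_ap, ext_coe, RhH_ap hρ hz1.le, gH_ap, gS_coe, g_lt (norm_R_lt z), Ri_R,
      ← RhH_ap hρ hz2.le, ← ext_coe, inv_ap, ext_coe]
  · have h1 : GId (gH H C hH) := by
      refine GId_of_eventually OnePoint.infty (ev_infty_of 1 rfl fun z hz => ?_)
      rw [gH_ap, gS_coe, g_ge hz]
    have := GId_conj h1 (ext (RhH hρ))⁻¹
    rwa [inv_inv] at this

end Pool.Agent.NH50.SPH
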